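import Pool.Agent.P8H30.FF.Red

set_option autoImplicit false
set_option linter.unusedSectionVars false
set_option linter.unusedVariables false

/-!
# Invariant alternating forms of degree four are combinations of products
-/

open Module

noncomputable section

namespace Pool.Agent.P8H30.FF

variable {V : Type} [AddCommGroup V] [Module ℂ V] {ω : V →ₗ[ℂ] V →ₗ[ℂ] ℂ}

/-- comparison of dimensions -/
theorem dim_arg' {M N : Type} [AddCommMonoid M] [Module ℂ M] [AddCommGroup N] [Module ℂ N]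
    [Module.Finite ℂ N] (j : M →ₗ[ℂ] N) (hj : Function.Injective j)
    {D A : Submodule ℂ M} (hDA : D ≤ A) (B : M →ₗ[ℂ] M →ₗ[ℂ] ℂ)
    (hinj : ∀ ψ ∈ A, (∀ δ ∈ D, B ψ δ = 0) → ψ = 0) : A ≤ D := by
  let _ : AddCommGroup M := Module.addCommMonoidToAddCommGroup ℂ
  have _ : Module.Finite ℂ M := Module.Finite.of_injective j hj
  exact dim_arg (M := M) hDA B hinj

/-- the coordinates -/
def coo {ι : Type} (b : Basis ι ℂ V) : F4 V →ₗ[ℂ] (ι → ι → ι → ι → ℂ) where
  toFun φ := fun i j k l => φ (b i) (b j) (b k) (b l)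
  map_add' _ _ := rfl
  map_smul' _ _ := rfl

theorem coo_inj {ι : Type} (b : Basis ι ℂ V) : Function.Injective (coo b) := by
  intro φ ψ h
  refine b.ext fun i => b.ext fun j => b.ext fun k => b.ext fun l => ?_
  exact congrFun (congrFun (congrFun (congrFun h i) j) k) l

/-- **Invariant alternating forms of degree four on a symplectic space of dimension eight are
combinations of products**, if the invariant operators are self-adjoint. -/
theorem invariants (halt : ∀ v, ω v v = 0) (hnd : ∀ u, (∀ v, ω u v = 0) → u = 0)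
    (hdim : finrank ℂ V = 8) {Q : Set (Module.End ℂ V)} (hQ : ∀ q ∈ Q, IsAdj ω q (-q))
    (hC : ∀ x, (∀ q ∈ Q, q * x = x * q) → IsAdj ω x x)
    (hS : ∀ U : Submodule ℂ V, (∀ q ∈ Q, ∀ u ∈ U, q u ∈ U) → ∃ p : Module.End ℂ V,
      (∀ q ∈ Q, q * p = p * q) ∧ (∀ u, p u ∈ U) ∧ (∀ u ∈ U, p u = u))
    {φ : F4 V} (hφ : φ ∈ A0 V Q) :
    φ ∈ Submodule.span ℂ {ψ | ∃ P R : Module.End ℂ V, (∀ q ∈ Q, q * P = P * q) ∧
      (∀ q ∈ Q, q * R = R * q) ∧ ψ = wd ω P R} := by
  have hfin : Module.Finite ℂ V := FiniteDimensional.of_finrank_pos (by rw [hdim]; norm_num)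
  obtain ⟨e, he⟩ := exists_J8 halt hnd hdim
  have h := SB.of_J8 halt he
  set D := Submodule.span ℂ {ψ : F4 V | ∃ P R : Module.End ℂ V, (∀ q ∈ Q, q * P = P * q) ∧
      (∀ q ∈ Q, q * R = R * q) ∧ ψ = wd ω P R} with hD
  have hDA : D ≤ A0 V Q := by
    rw [hD, Submodule.span_le]
    rintro _ ⟨P, R, hP, hR, rfl⟩
    exact ⟨wd_alt h.anti (hC P hP) (hC R hR), fun q hq => wd_kill (hQ q hq) (hP q hq) (hR q hq)⟩
  -- the pairing is nondegenerate on the left
  have hinj : ∀ ψ ∈ A0 V Q, (∀ δ ∈ D, pair e (dualJ e) ψ δ = 0) → ψ = 0 := by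
    intro ψ hψ h0
    have hP : ∀ x, (∀ q ∈ Q, q * x = x * q) → Phi e (dualJ e) ψ x = 0 := by
      intro x hx
      have hxa := hC x hx
      refine trace_nd h hC hS (fun q hq => ?_) fun y hy => ?_
      · have h1 := h.Phi_comm hψ.1 (hQ q hq) (hψ.2 q hq) x
        rw [hx q hq, sub_self, map_zero] at h1
        exact (sub_eq_zero.1 h1.symm)
      · have h1 := h0 (wd ω x y) (Submodule.subset_span ⟨x, y, hx, hy, rfl⟩)
        rw [pair_wd h hψ.1 hxa (hC y hy)] at h1
        exact (mul_eq_zero.1 h1).resolve_left (by norm_num)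
    have H : Sys ω e (dualJ e) ψ Q := by
      refine ⟨h, hψ.1, ?_, hdim, hQ, hψ.2, hC, hS, hP⟩
      exact L6_of_Phi halt he hψ.1 (hP 1 fun q _ => by rw [mul_one, one_mul])
    exact H.zero
  have key : A0 V Q ≤ D := dim_arg' (M := F4 V) (coo e) (coo_inj e) hDA (pair e (dualJ e)) hinj
  exact key hφ

end Pool.Agent.P8H30.FF
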