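import Pool.Agent.Y102.V8
import Pool.Agent.P8H30.FF.Red2

set_option autoImplicit false
set_option linter.unusedSectionVars false
set_option linter.unusedVariables false

/-!
# Abelian fourfolds whose de Rham-Betti endomorphisms are self-adjoint
-/

open Module TensorProduct

noncomputable section

namespace Pool.Agent.P8H30.FF

open Pool.Agent.Y102 Pool.Agent.W516.DR Pool.Agent.H204R3.GP Pool.Agent.W516.KC
  Pool.Agent.H204R3.SP

variable {g : ℕ} (A : AbVar g)

/-- the operators -/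
def QQ : Set (Module.End ℂ (ℂ ⊗[ℚ] A.H1)) := {q | ∃ X ∈ A.LA, q = X.baseChange ℂ}

/-- the complex form -/
def omC : ℂ ⊗[ℚ] A.H1 →ₗ[ℂ] ℂ ⊗[ℚ] A.H1 →ₗ[ℂ] ℂ := LinearMap.BilinForm.baseChange ℂ A.om

theorem omC_tmul (u v : A.H1) : omC A ((1 : ℂ) ⊗ₜ[ℚ] u) ((1 : ℂ) ⊗ₜ[ℚ] v) =
    algebraMap ℚ ℂ (A.om u v) := by
  change LinearMap.BilinForm.baseChange ℂ A.om _ _ = _
  rw [LinearMap.BilinForm.baseChange_tmul]
  simp

theorem omC_nd (u : ℂ ⊗[ℚ] A.H1) (hu : ∀ v, omC A u v = 0) : u = 0 :=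
  nondeg_ext A.om (omC A) (omC_tmul A) (fun u hu => A.om_nondeg hu) u hu

theorem omC_anti (u v : ℂ ⊗[ℚ] A.H1) : omC A u v = -omC A v u := by
  have h1 : omC A = -(omC A).flip := by
    apply bilin_ext
    intro u v
    rw [LinearMap.neg_apply, LinearMap.neg_apply, LinearMap.flip_apply, omC_tmul, omC_tmul,
      A.om_anti, map_neg]
  exact congrArg (fun B : ℂ ⊗[ℚ] A.H1 →ₗ[ℂ] ℂ ⊗[ℚ] A.H1 →ₗ[ℂ] ℂ => B u v) h1

theorem omC_alt (u : ℂ ⊗[ℚ] A.H1) : omC A u u = 0 := self_eq_neg.1 (omC_anti A u u)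

theorem QQ_skew : ∀ q ∈ QQ A, IsAdj (omC A) q (-q) := by
  rintro _ ⟨X, hX, rfl⟩ u v
  have h1 := skew_ext A.om (omC A) (omC_tmul A) (A.LA_skew hX) u v
  rw [LinearMap.neg_apply, map_neg]
  exact eq_neg_of_add_eq_zero_left h1

/-- Operators commuting with the Lie algebra. -/
theorem mem_cx {x : Module.End ℂ (ℂ ⊗[ℚ] A.H1)} (hx : ∀ q ∈ QQ A, q * x = x * q) :
    x ∈ cx A.EA := by
  refine end_mem_span _ x fun lam => ?_
  intro X hX
  exact ((comm_iff X x).2 (hx _ ⟨X, hX, rfl⟩).symm lam).symm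

theorem comm_of_cx {x : Module.End ℂ (ℂ ⊗[ℚ] A.H1)} (hx : x ∈ cx A.EA) :
    ∀ q ∈ QQ A, q * x = x * q := by
  rintro _ ⟨X, hX, rfl⟩
  refine cx_comm (S := A.EA) (fun P hP => ?_) x hx
  rw [← bc_mul, ← bc_mul, hP X hX]

variable (hsym : ∀ P ∈ A.EA, ∀ u v, A.om (P u) v = A.om u (P v))
include hsym

theorem adj_of_cx {x : Module.End ℂ (ℂ ⊗[ℚ] A.H1)} (hx : x ∈ cx A.EA) :
    IsAdj (omC A) x x := by
  intro u v
  exact sym_of_cmp A.om (omC A) (omC_tmul A)
    (fun lam u v => hsym _ (cmp_of_ext A.EA hx lam) u v) u v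

theorem EA_commutes {P R : Module.End ℚ A.H1} (hP : P ∈ A.EA) (hR : R ∈ A.EA) :
    P * R = R * P := by
  refine LinearMap.ext fun u => ?_
  rw [← sub_eq_zero]
  apply A.om_nondeg
  intro v
  have h1 := hsym _ (A.EA_mul hP hR) u v
  rw [Module.End.mul_apply, Module.End.mul_apply] at h1
  rw [Module.End.mul_apply, Module.End.mul_apply, map_sub, LinearMap.sub_apply, h1, hsym R hR,
    hsym P hP, sub_self]

/-- The characters of the algebra of endomorphisms. -/
theorem exists_joint : ∃ (n : ℕ) (b : Basis (Fin n) ℂ (ℂ ⊗[ℚ] A.H1)) (χ : Fin n → A.EA → ℂ),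
    ∀ k (P : A.EA), (P : Module.End ℚ A.H1).baseChange ℂ (b k) = χ k P • b k := by
  obtain ⟨n, b, hb⟩ := exists_joint_basis
    (fun P : A.EA => (P : Module.End ℚ A.H1).baseChange ℂ) (fun P R => by
      change (P : Module.End ℚ A.H1).baseChange ℂ * (R : Module.End ℚ A.H1).baseChange ℂ =
        (R : Module.End ℚ A.H1).baseChange ℂ * (P : Module.End ℚ A.H1).baseChange ℂ
      rw [← bc_mul, ← bc_mul, EA_commutes A hsym P.2 R.2])
    (fun P => semisimple_of_reduced _ fun p h0 => by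
      have hm := A.aeval_mem P.2 p
      exact A.eq_zero_of_adj hm (hsym _ hm) h0)
  choose c hc using hb
  exact ⟨n, b, c, fun k P => hc k P⟩

/-- Operators commuting with the endomorphisms preserve the stable subspaces. -/
theorem stable_of_comm {U : Submodule ℂ (ℂ ⊗[ℚ] A.H1)} (hU : ∀ q ∈ QQ A, ∀ u ∈ U, q u ∈ U)
    {T : Module.End ℂ (ℂ ⊗[ℚ] A.H1)}
    (hT : ∀ P ∈ A.EA, T * P.baseChange ℂ = P.baseChange ℂ * T) : ∀ u ∈ U, T u ∈ U := by
  have h1 : T ∈ cx (Subalgebra.toSubmodule (Algebra.adjoin ℚ (A.LA : Set (Module.End ℚ A.H1)))) := by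
    refine end_mem_span _ T fun lam => ?_
    refine mem_adjoin_of_comm A.semi_LA fun P hP => ?_
    exact (comm_iff P T).2 (hT P hP) lam
  have h2 : ∀ Z ∈ Algebra.adjoin ℚ (A.LA : Set (Module.End ℚ A.H1)), ∀ u ∈ U,
      Z.baseChange ℂ u ∈ U := by
    intro Z hZ
    induction hZ using Algebra.adjoin_induction with
    | mem X hX => exact fun u hu => hU _ ⟨X, hX, rfl⟩ u hu
    | algebraMap r =>
      intro u hu
      rw [Algebra.algebraMap_eq_smul_one, LinearMap.baseChange_smul, LinearMap.smul_apply]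
      have h3 : (1 : Module.End ℚ A.H1).baseChange ℂ u = u := by
        have := LinearMap.baseChange_id (R := ℚ) (A := ℂ) (M := A.H1)
        exact congrArg (fun F : Module.End ℂ (ℂ ⊗[ℚ] A.H1) => F u) this
      rw [h3]
      have h4 : r • u = (r : ℂ) • u := by
        rw [← algebraMap_smul ℂ r u]
        rfl
      rw [h4]
      exact U.smul_mem _ hu
    | add X Y _ _ hX hY =>
      intro u hu
      rw [LinearMap.baseChange_add]
      exact U.add_mem (hX u hu) (hY u hu)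
    | mul X Y _ _ hX hY =>
      intro u hu
      rw [bc_mul]
      exact hX _ (hY u hu)
  intro u hu
  clear hT
  induction h1 using Submodule.span_induction with
  | mem X hX =>
    obtain ⟨P, hP, rfl⟩ := hX
    exact h2 P hP u hu
  | zero => exact U.zero_mem
  | add a c _ _ ha hc => exact U.add_mem ha hc
  | smul c a _ ha => exact U.smul_mem c ha

/-- **Semisimplicity.** -/
theorem exists_proj (U : Submodule ℂ (ℂ ⊗[ℚ] A.H1)) (hU : ∀ q ∈ QQ A, ∀ u ∈ U, q u ∈ U) :
    ∃ p : Module.End ℂ (ℂ ⊗[ℚ] A.H1), (∀ q ∈ QQ A, q * p = p * q) ∧ (∀ u, p u ∈ U) ∧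
      (∀ u ∈ U, p u = u) := by
  classical
  obtain ⟨n, b, χ, hb⟩ := exists_joint A hsym
  -- matrix units
  obtain ⟨E, hE⟩ : ∃ E : Fin n → Fin n → Module.End ℂ (ℂ ⊗[ℚ] A.H1), ∀ k l v,
      E k l v = b.repr v l • b k :=
    ⟨fun k l => (Finsupp.lapply l ∘ₗ b.repr.toLinearMap).smulRight (b k), fun k l v => rfl⟩
  have hEcomm : ∀ k l, χ k = χ l → ∀ P ∈ A.EA, E k l * P.baseChange ℂ = P.baseChange ℂ * E k l := by
    intro k l hkl P hP
    refine b.ext fun i => ?_
    rw [Module.End.mul_apply, Module.End.mul_apply, hb i ⟨P, hP⟩, hE, map_smul, hE, map_smul,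
      hb k ⟨P, hP⟩]
    by_cases hi : i = l
    · rw [hi, hkl, Finsupp.smul_apply, smul_smul, smul_eq_mul, mul_comm (χ l ⟨P, hP⟩)]
    · rw [b.repr_self, Finsupp.smul_apply, Finsupp.single_eq_of_ne (Ne.symm hi)]
      simp
  have hEU : ∀ k l, χ k = χ l → ∀ u ∈ U, E k l u ∈ U := fun k l hkl =>
    stable_of_comm A hsym hU (hEcomm k l hkl)
  -- the set of indices
  obtain ⟨K, hK⟩ : ∃ K : Finset (Fin n), ∀ k, k ∈ K ↔ ∃ u ∈ U, b.repr u k ≠ 0 :=
    ⟨Finset.univ.filter fun k => ∃ u ∈ U, b.repr u k ≠ 0, fun k => by simp⟩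
  have hKc : ∀ k l, χ k = χ l → l ∈ K → b k ∈ U := by
    intro k l hkl hl
    obtain ⟨u, hu, hul⟩ := (hK l).1 hl
    have h1 := hEU k l hkl u hu
    rw [hE] at h1
    have h2 := U.smul_mem (b.repr u l)⁻¹ h1
    rwa [smul_smul, inv_mul_cancel₀ hul, one_smul] at h2
  have hKχ : ∀ k l, χ k = χ l → l ∈ K → k ∈ K := by
    intro k l hkl hl
    rw [hK]
    refine ⟨b k, hKc k l hkl hl, ?_⟩
    rw [b.repr_self, Finsupp.single_eq_same]
    exact one_ne_zero
  obtain ⟨p, hp⟩ : ∃ p : Module.End ℂ (ℂ ⊗[ℚ] A.H1), ∀ v, p v = ∑ k ∈ K, b.repr v k • b k :=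
    ⟨∑ k ∈ K, E k k, fun v => by
      rw [LinearMap.sum_apply]
      exact Finset.sum_congr rfl fun k _ => hE k k v⟩
  refine ⟨p, ?_, fun u => ?_, fun u hu => ?_⟩
  · rintro _ ⟨X, hX, rfl⟩
    -- the operator preserves the characters
    have hX' : ∀ l k, b.repr (X.baseChange ℂ (b k)) l ≠ 0 → χ l = χ k := by
      intro l k hne
      funext P
      have h1 : X.baseChange ℂ * (P : Module.End ℚ A.H1).baseChange ℂ =
          (P : Module.End ℚ A.H1).baseChange ℂ * X.baseChange ℂ := by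
        rw [← bc_mul, ← bc_mul, P.2 X hX]
      have h2 := congrArg (fun F : Module.End ℂ (ℂ ⊗[ℚ] A.H1) => b.repr (F (b k)) l) h1
      simp only [Module.End.mul_apply] at h2
      rw [hb, map_smul, map_smul, Finsupp.smul_apply, smul_eq_mul] at h2
      have h3 : ∀ v, b.repr ((P : Module.End ℚ A.H1).baseChange ℂ v) l = χ l P * b.repr v l := by
        intro v
        have h4 : (Finsupp.lapply l ∘ₗ b.repr.toLinearMap) ∘ₗ
            ((P : Module.End ℚ A.H1).baseChange ℂ) =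
            (χ l P) • (Finsupp.lapply l ∘ₗ b.repr.toLinearMap) := by
          refine b.ext fun i => ?_
          rw [LinearMap.comp_apply, hb, map_smul, LinearMap.smul_apply, LinearMap.comp_apply,
            LinearEquiv.coe_coe, Basis.repr_self, Finsupp.lapply_apply, Finsupp.single_apply,
            smul_eq_mul, smul_eq_mul]
          by_cases hl : i = l
          · rw [if_pos hl, hl]
          · rw [if_neg hl, mul_zero, mul_zero]
        exact congrArg (fun F : ℂ ⊗[ℚ] A.H1 →ₗ[ℂ] ℂ => F v) h4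
      rw [h3] at h2
      exact (mul_right_cancel₀ hne h2).symm
    refine b.ext fun i => ?_
    rw [Module.End.mul_apply, Module.End.mul_apply, hp (b i)]
    by_cases hi : i ∈ K
    · rw [Finset.sum_eq_single i, b.repr_self, Finsupp.single_eq_same, one_smul, hp]
      · conv_lhs => rw [← b.sum_repr (X.baseChange ℂ (b i))]
        symm
        refine Finset.sum_subset (Finset.subset_univ K) fun l _ hl => ?_
        by_cases h0 : b.repr (X.baseChange ℂ (b i)) l = 0
        · rw [h0, zero_smul]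
        · exact absurd (hKχ l i (hX' l i h0) hi) hl
      · intro j _ hj
        rw [b.repr_self, Finsupp.single_eq_of_ne hj, zero_smul]
      · intro h; exact absurd hi h
    · rw [Finset.sum_eq_zero, map_zero, hp]
      · symm
        refine Finset.sum_eq_zero fun l hl => ?_
        by_cases h0 : b.repr (X.baseChange ℂ (b i)) l = 0
        · rw [h0, zero_smul]
        · exact absurd (hKχ i l (hX' l i h0).symm hl) hi
      · intro j hj
        have hji : j ≠ i := fun h => hi (h ▸ hj)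
        rw [b.repr_self, Finsupp.single_eq_of_ne hji, zero_smul]
  · rw [hp]
    exact Submodule.sum_mem _ fun k hk => U.smul_mem _ (hKc k k rfl hk)
  · rw [hp]
    conv_rhs => rw [← b.sum_repr u]
    refine Finset.sum_subset (Finset.subset_univ K) fun l _ hl => ?_
    by_cases h0 : b.repr u l = 0
    · rw [h0, zero_smul]
    · exact absurd ((hK l).2 ⟨u, hu, h0⟩) hl

end Pool.Agent.P8H30.FF
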