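import Pool.Agent.P8H30.FF.Sym

set_option autoImplicit false
set_option linter.unusedSectionVars false
set_option linter.unusedVariables false

/-!
# Four anticommuting operators on a symplectic space of dimension eight
-/

open Module

noncomputable section

namespace Pool.Agent.P8H30.FF

variable {V : Type} [AddCommGroup V] [Module ℂ V] {ι : Type} [Fintype ι] [DecidableEq ι]

/-- Creation and annihilation operators. -/
structure Car (ω : V →ₗ[ℂ] V →ₗ[ℂ] ℂ) (x x' y y' : Module.End ℂ V) : Prop where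
  xx : ∀ v, x (x v) = 0
  x'x' : ∀ v, x' (x' v) = 0
  yy : ∀ v, y (y v) = 0
  y'y' : ∀ v, y' (y' v) = 0
  xx' : ∀ v, x (x' v) = v - x' (x v)
  yy' : ∀ v, y (y' v) = v - y' (y v)
  xy : ∀ v, x (y v) = -y (x v)
  xy' : ∀ v, x (y' v) = -y' (x v)
  yx' : ∀ v, y (x' v) = -x' (y v)
  y'x' : ∀ v, y' (x' v) = -x' (y' v)
  ax : IsAdj ω x x
  ax' : IsAdj ω x' x'
  ay : IsAdj ω y y
  ay' : IsAdj ω y' y'

/-- commuting with the four operators -/
structure Com (x x' y y' t : Module.End ℂ V) : Prop where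
  x : t * x = x * t
  x' : t * x' = x' * t
  y : t * y = y * t
  y' : t * y' = y' * t

namespace Com

variable {x x' y y' t s : Module.End ℂ V}

theorem add (h : Com x x' y y' t) (h' : Com x x' y y' s) : Com x x' y y' (t + s) :=
  ⟨by rw [add_mul, mul_add, h.x, h'.x], by rw [add_mul, mul_add, h.x', h'.x'],
    by rw [add_mul, mul_add, h.y, h'.y], by rw [add_mul, mul_add, h.y', h'.y']⟩

theorem sub (h : Com x x' y y' t) (h' : Com x x' y y' s) : Com x x' y y' (t - s) :=
  ⟨by rw [sub_mul, mul_sub, h.x, h'.x], by rw [sub_mul, mul_sub, h.x', h'.x'],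
    by rw [sub_mul, mul_sub, h.y, h'.y], by rw [sub_mul, mul_sub, h.y', h'.y']⟩

theorem smul (c : ℂ) (h : Com x x' y y' t) : Com x x' y y' (c • t) :=
  ⟨by rw [smul_mul_assoc, mul_smul_comm, h.x], by rw [smul_mul_assoc, mul_smul_comm, h.x'],
    by rw [smul_mul_assoc, mul_smul_comm, h.y], by rw [smul_mul_assoc, mul_smul_comm, h.y']⟩

theorem mul (h : Com x x' y y' t) (h' : Com x x' y y' s) : Com x x' y y' (t * s) :=
  ⟨by rw [mul_assoc, h'.x, ← mul_assoc, h.x, mul_assoc],
    by rw [mul_assoc, h'.x', ← mul_assoc, h.x', mul_assoc],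
    by rw [mul_assoc, h'.y, ← mul_assoc, h.y, mul_assoc],
    by rw [mul_assoc, h'.y', ← mul_assoc, h.y', mul_assoc]⟩

theorem one : Com x x' y y' (1 : Module.End ℂ V) :=
  ⟨by rw [one_mul, mul_one], by rw [one_mul, mul_one], by rw [one_mul, mul_one],
    by rw [one_mul, mul_one]⟩

theorem ex (h : Com x x' y y' t) (v : V) : t (x v) = x (t v) :=
  congrArg (fun F : Module.End ℂ V => F v) h.x

theorem ex' (h : Com x x' y y' t) (v : V) : t (x' v) = x' (t v) :=
  congrArg (fun F : Module.End ℂ V => F v) h.x'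

theorem ey (h : Com x x' y y' t) (v : V) : t (y v) = y (t v) :=
  congrArg (fun F : Module.End ℂ V => F v) h.y

theorem ey' (h : Com x x' y y' t) (v : V) : t (y' v) = y' (t v) :=
  congrArg (fun F : Module.End ℂ V => F v) h.y'

end Com

namespace Car

variable {ω : V →ₗ[ℂ] V →ₗ[ℂ] ℂ} {b : Basis ι ℂ V} {b' : ι → V} {x x' y y' : Module.End ℂ V}
  (C : Car ω x x' y y')

include C in
theorem Com_adj (h : SB ω b b') {t t' : Module.End ℂ V} (ht : Com x x' y y' t)
    (hadj : IsAdj ω t t') : Com x x' y y' t' := by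
  refine ⟨?_, ?_, ?_, ?_⟩
  · have h1 := hadj.mul C.ax
    rw [ht.x] at h1
    exact h.adj_uniq (C.ax.mul hadj) h1
  · have h1 := hadj.mul C.ax'
    rw [ht.x'] at h1
    exact h.adj_uniq (C.ax'.mul hadj) h1
  · have h1 := hadj.mul C.ay
    rw [ht.y] at h1
    exact h.adj_uniq (C.ay.mul hadj) h1
  · have h1 := hadj.mul C.ay'
    rw [ht.y'] at h1
    exact h.adj_uniq (C.ay'.mul hadj) h1

/-- the projection -/
def pj (x x' y y' : Module.End ℂ V) : Module.End ℂ V := x * x' * (y * y')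

/-- the space of the vacuum vectors -/
def W (x y : Module.End ℂ V) : Submodule ℂ V := LinearMap.ker x ⊓ LinearMap.ker y

theorem pj_apply (v : V) : pj x x' y y' v = x (x' (y (y' v))) := rfl

theorem mem_W {v : V} : v ∈ W x y ↔ x v = 0 ∧ y v = 0 := by
  rw [W, Submodule.mem_inf, LinearMap.mem_ker, LinearMap.mem_ker]

section

include C

theorem pj_eq (v : V) : pj x x' y y' v = v - y' (y v) - x' (x v) + x' (y' (y (x v))) := by
  rw [pj_apply]
  simp only [C.xx', C.yy', C.xy, C.xy', C.yx', C.y'x', map_sub, map_neg, neg_neg]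
  abel

theorem pj_mem (v : V) : pj x x' y y' v ∈ W x y := by
  rw [mem_W, C.pj_eq]
  constructor
  · simp only [C.xx', C.yy', C.xy, C.xy', C.yx', C.y'x', C.xx, C.yy, C.x'x', C.y'y', map_sub,
      map_neg, neg_neg, map_zero, map_add]
    abel
  · simp only [C.xx', C.yy', C.xy, C.xy', C.yx', C.y'x', C.xx, C.yy, C.x'x', C.y'y', map_sub,
      map_neg, neg_neg, map_zero, map_add]
    abel

theorem pj_id {v : V} (hv : v ∈ W x y) : pj x x' y y' v = v := by
  rw [mem_W] at hv
  rw [C.pj_eq, hv.1, hv.2]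
  simp

theorem pj_proj : LinearMap.IsProj (W x y) (pj x x' y y') :=
  ⟨C.pj_mem, fun v hv => C.pj_id hv⟩

theorem decomp (v : V) : v = pj x x' y y' v + x' (pj x x' y y' (x v)) +
    y' (pj x x' y y' (y v)) + x' (y' (pj x x' y y' (y (x v)))) := by
  rw [C.pj_eq, C.pj_eq, C.pj_eq, C.pj_eq]
  simp only [C.xx', C.yy', C.xy, C.xy', C.yx', C.y'x', C.xx, C.yy, C.x'x', C.y'y', map_sub,
      map_neg, neg_neg, map_zero, map_add]
  abel

/-- An operator that commutes and kills the vacuum vectors is zero. -/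
theorem com_zero {t : Module.End ℂ V} (ht : Com x x' y y' t) (h0 : ∀ v ∈ W x y, t v = 0) :
    t = 0 := by
  refine LinearMap.ext fun v => ?_
  conv_lhs => rw [C.decomp v]
  rw [map_add, map_add, map_add, ht.ex', ht.ey', ht.ex', ht.ey', h0 _ (C.pj_mem _),
    h0 _ (C.pj_mem _), h0 _ (C.pj_mem _), h0 _ (C.pj_mem _)]
  simp

theorem com_mem {t : Module.End ℂ V} (ht : Com x x' y y' t) {v : V} (hv : v ∈ W x y) :
    t v ∈ W x y := by
  rw [mem_W] at hv ⊢
  rw [← ht.ex, ← ht.ey, hv.1, hv.2, map_zero]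
  exact ⟨rfl, rfl⟩

theorem trace_pj (hd : LinearMap.trace ℂ V 1 = 8) :
    LinearMap.trace ℂ V (pj x x' y y') = 2 := by
  have e1 : x * x' + x' * x = 1 := LinearMap.ext fun v => by
    rw [LinearMap.add_apply, Module.End.mul_apply, Module.End.mul_apply, C.xx']
    simp
  have e2 : y * y' + y' * y = 1 := LinearMap.ext fun v => by
    rw [LinearMap.add_apply, Module.End.mul_apply, Module.End.mul_apply, C.yy']
    simp
  have e3 : y * y' * x' = x' * (y * y') := LinearMap.ext fun v => by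
    simp only [Module.End.mul_apply, C.y'x', C.yx', map_neg, neg_neg]
  have t1 : LinearMap.trace ℂ V (y * y') = 4 := by
    have h1 := congrArg (LinearMap.trace ℂ V) e2
    rw [map_add, LinearMap.trace_mul_comm ℂ y' y, hd] at h1
    linear_combination (1 / 2) * h1
  have h1 := congrArg (fun s => LinearMap.trace ℂ V (s * (y * y'))) e1
  simp only [add_mul, map_add, one_mul] at h1
  have h2 : LinearMap.trace ℂ V (x' * x * (y * y')) = LinearMap.trace ℂ V (x * x' * (y * y')) := by
    rw [mul_assoc, LinearMap.trace_mul_comm, mul_assoc, e3, mul_assoc]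
  rw [h2, t1] at h1
  unfold pj
  linear_combination (1 / 2) * h1

theorem finrank_W [FiniteDimensional ℂ V] (hd : LinearMap.trace ℂ V 1 = 8) :
    finrank ℂ (W x y) = 2 := by
  have h1 := LinearMap.IsProj.trace C.pj_proj
  rw [C.trace_pj hd] at h1
  exact_mod_cast h1.symm

variable (h : SB ω b b')
include h

theorem sy (v w : V) : ω v (x' (y' w)) = ω w (x' (y' v)) := by
  rw [← C.ax', ← C.ay', h.anti, C.y'x', map_neg, neg_neg]

theorem nd {v : V} (hv : v ∈ W x y) (h0 : ∀ w ∈ W x y, ω v (x' (y' w)) = 0) : v = 0 := by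
  have h1 : ∀ u, ω (y' (x' v)) u = 0 := by
    intro u
    rw [C.decomp u]
    have e1 : ω (y' (x' v)) (pj x x' y y' u) = 0 := by
      rw [C.ay', C.ax']
      exact h0 _ (C.pj_mem u)
    have e2 : ∀ s, ω (y' (x' v)) (x' s) = 0 := by
      intro s
      rw [← C.ax', C.y'x', map_neg, C.x'x', neg_zero, map_zero, LinearMap.zero_apply]
    have e3 : ∀ s, ω (y' (x' v)) (y' s) = 0 := by
      intro s
      rw [← C.ay', C.y'y', map_zero, LinearMap.zero_apply]
    rw [map_add, map_add, map_add, e1, e2, e3, e2]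
    simp
  have h2 : y' (x' v) = 0 := h.nondeg' h1
  have h3 : x (y (y' (x' v))) = v := by
    rw [mem_W] at hv
    simp only [C.yy', C.yx', hv.1, hv.2, C.xx', map_zero, neg_zero, sub_zero]
  rw [← h3, h2, map_zero, map_zero]

/-- **The commutant**: there is exactly one skew operator. -/
theorem exists_z [FiniteDimensional ℂ V] (hd : LinearMap.trace ℂ V 1 = 8) :
    ∃ z : Module.End ℂ V, Com x x' y y' z ∧ IsAdj ω z (-z) ∧ z ≠ 0 ∧
      (∀ t, Com x x' y y' t → IsAdj ω t (-t) → ∃ c : ℂ, t = c • z) ∧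
      (∀ u, Com x x' y y' u → IsAdj ω u u → u * z = z * u →
        ∃ c : ℂ, u = c • (1 : Module.End ℂ V)) := by
  let wb : Basis (Fin 2) ℂ (W x y) := Module.finBasisOfFinrankEq ℂ _ (C.finrank_W hd)
  obtain ⟨w1, w2, hw1, hw2, hw1', hspan, hind⟩ : ∃ w1 w2 : V, w1 ∈ W x y ∧ w2 ∈ W x y ∧
      w1 ≠ 0 ∧ (∀ w ∈ W x y, ∃ α γ : ℂ, w = α • w1 + γ • w2) ∧
      (∀ α γ : ℂ, α • w1 = γ • w2 → γ = 0) := by
    refine ⟨wb 0, wb 1, (wb 0).2, (wb 1).2, fun h0 => wb.ne_zero 0 (Subtype.ext h0),
      fun w hw => ?_, fun α γ hαγ => ?_⟩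
    · refine ⟨wb.repr ⟨w, hw⟩ 0, wb.repr ⟨w, hw⟩ 1, ?_⟩
      have h1 := congrArg (fun z : W x y => (z : V)) (wb.sum_repr ⟨w, hw⟩)
      rw [Fin.sum_univ_two] at h1
      exact h1.symm
    · have h1 := wb.linearIndependent
      rw [Fintype.linearIndependent_iff] at h1
      have h2 := h1 ![α, -γ] (by
        rw [Fin.sum_univ_two]
        apply Subtype.ext
        simp only [Matrix.cons_val_zero, Matrix.cons_val_one, Submodule.coe_add,
          Submodule.coe_smul, neg_smul]
        rw [hαγ]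
        simp) 1
      simpa using h2
  -- the operator on the vacuum vectors
  obtain ⟨N, hN⟩ : ∃ N : Module.End ℂ V, ∀ v, N v =
      ω w1 (x' (y' (pj x x' y y' v))) • w2 - ω w2 (x' (y' (pj x x' y y' v))) • w1 :=
    ⟨(ω w1 ∘ₗ x' ∘ₗ y' ∘ₗ pj x x' y y').smulRight w2 -
      (ω w2 ∘ₗ x' ∘ₗ y' ∘ₗ pj x x' y y').smulRight w1, fun v => rfl⟩
  rw [mem_W] at hw1 hw2
  have hxN : ∀ v, x (N v) = 0 := fun v => by
    rw [hN, map_sub, map_smul, map_smul, hw1.1, hw2.1, smul_zero, smul_zero, sub_zero]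
  have hyN : ∀ v, y (N v) = 0 := fun v => by
    rw [hN, map_sub, map_smul, map_smul, hw1.2, hw2.2, smul_zero, smul_zero, sub_zero]
  have hNx' : ∀ v, N (x' v) = 0 := fun v => by
    have h1 : pj x x' y y' (x' v) = 0 := by
      rw [pj_apply]
      simp only [C.y'x', C.yx', map_neg, C.x'x', map_zero, neg_zero]
    rw [hN, h1]
    simp
  have hNy' : ∀ v, N (y' v) = 0 := fun v => by
    have h1 : pj x x' y y' (y' v) = 0 := by
      rw [pj_apply, C.y'y']
      simp
    rw [hN, h1]
    simp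
  obtain ⟨z, hz⟩ : ∃ z : Module.End ℂ V, ∀ v, z v = N v + x' (N (x v)) + y' (N (y v)) +
      x' (y' (N (y (x v)))) :=
    ⟨N + x' * N * x + y' * N * y + x' * y' * N * (y * x), fun v => rfl⟩
  have hcom : Com x x' y y' z := by
    refine ⟨LinearMap.ext fun v => ?_, LinearMap.ext fun v => ?_, LinearMap.ext fun v => ?_,
      LinearMap.ext fun v => ?_⟩
    · rw [Module.End.mul_apply, Module.End.mul_apply, hz, hz]
      simp only [C.xx', C.yy', C.xy, C.xy', C.yx', C.y'x', C.xx, C.yy, C.x'x', C.y'y', map_sub,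
        map_neg, neg_neg, map_zero, map_add, hxN, hyN, hNx', hNy', neg_zero]
      abel
    · rw [Module.End.mul_apply, Module.End.mul_apply, hz, hz]
      simp only [C.xx', C.yy', C.xy, C.xy', C.yx', C.y'x', C.xx, C.yy, C.x'x', C.y'y', map_sub,
        map_neg, neg_neg, map_zero, map_add, hxN, hyN, hNx', hNy', neg_zero]
      abel
    · rw [Module.End.mul_apply, Module.End.mul_apply, hz, hz]
      simp only [C.xx', C.yy', C.xy, C.xy', C.yx', C.y'x', C.xx, C.yy, C.x'x', C.y'y', map_sub,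
        map_neg, neg_neg, map_zero, map_add, hxN, hyN, hNx', hNy', neg_zero]
      abel
    · rw [Module.End.mul_apply, Module.End.mul_apply, hz, hz]
      simp only [C.xx', C.yy', C.xy, C.xy', C.yx', C.y'x', C.xx, C.yy, C.x'x', C.y'y', map_sub,
        map_neg, neg_neg, map_zero, map_add, hxN, hyN, hNx', hNy', neg_zero]
      abel
  rw [← mem_W] at hw1 hw2
  have hzW : ∀ v ∈ W x y, z v = ω w1 (x' (y' v)) • w2 - ω w2 (x' (y' v)) • w1 := by
    intro v hv
    rw [hz, hN v, C.pj_id hv]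
    rw [mem_W] at hv
    simp [hv.1, hv.2]
  have hzskew : IsAdj ω z (-z) := by
    obtain ⟨z', hz'⟩ := h.exists_adj z
    have hz'c := C.Com_adj h hcom hz'
    have h1 : z' + z = 0 := by
      refine C.com_zero (hz'c.add hcom) fun v hv => ?_
      refine C.nd h (C.com_mem (hz'c.add hcom) hv) fun w hw => ?_
      rw [LinearMap.add_apply, map_add, LinearMap.add_apply, h.adj_symm hz', hcom.ex', hcom.ey',
        hzW w hw, hzW v hv]
      simp only [map_sub, map_smul, LinearMap.sub_apply, LinearMap.smul_apply, smul_eq_mul]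
      rw [C.sy h v w2, C.sy h v w1]
      ring
    rwa [eq_neg_of_add_eq_zero_left h1] at hz'
  have hz0 : z ≠ 0 := by
    intro h0
    apply hw1'
    refine C.nd h hw1 fun w hw => ?_
    have h1 := hzW w hw
    rw [h0, LinearMap.zero_apply] at h1
    exact hind _ _ (sub_eq_zero.1 h1.symm).symm
  -- skew operators
  have hsk : ∀ t, Com x x' y y' t → IsAdj ω t (-t) → ∀ v w,
      ω (t v) (x' (y' w)) = -ω v (x' (y' (t w))) := by
    intro t ht hta v w
    rw [hta, LinearMap.neg_apply, map_neg, ht.ex', ht.ey']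
  have hself : ∀ t, Com x x' y y' t → IsAdj ω t (-t) → ∀ v, ω (t v) (x' (y' v)) = 0 := by
    intro t ht hta v
    have h1 := hsk t ht hta v v
    rw [C.sy h v (t v)] at h1
    exact self_eq_neg.1 h1
  have hzero : ∀ t, Com x x' y y' t → IsAdj ω t (-t) → ω (t w1) (x' (y' w2)) = 0 → t = 0 := by
    intro t ht hta h0
    have h1 : t w1 = 0 := by
      refine C.nd h (C.com_mem ht hw1) fun w hw => ?_
      obtain ⟨α, γ, rfl⟩ := hspan w hw
      simp only [map_add, map_smul, smul_eq_mul]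
      rw [hself t ht hta, h0]
      ring
    have h2 : t w2 = 0 := by
      refine C.nd h (C.com_mem ht hw2) fun w hw => ?_
      obtain ⟨α, γ, rfl⟩ := hspan w hw
      simp only [map_add, map_smul, smul_eq_mul]
      rw [hself t ht hta, hsk t ht hta w2 w1, h1]
      simp
    refine C.com_zero ht fun v hv => ?_
    obtain ⟨α, γ, rfl⟩ := hspan v hv
    rw [map_add, map_smul, map_smul, h1, h2, smul_zero, smul_zero, add_zero]
  have hδ : ω (z w1) (x' (y' w2)) ≠ 0 := fun h0 => hz0 (hzero z hcom hzskew h0)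
  have huniq : ∀ t, Com x x' y y' t → IsAdj ω t (-t) → ∃ c : ℂ, t = c • z := by
    intro t ht hta
    refine ⟨ω (t w1) (x' (y' w2)) / ω (z w1) (x' (y' w2)), ?_⟩
    rw [← sub_eq_zero]
    refine hzero _ (ht.sub (hcom.smul _)) ?_ ?_
    · have h1 := hta.sub (hzskew.smul (ω (t w1) (x' (y' w2)) / ω (z w1) (x' (y' w2))))
      have e1 : -t - (ω (t w1) (x' (y' w2)) / ω (z w1) (x' (y' w2))) • -z =
        -(t - (ω (t w1) (x' (y' w2)) / ω (z w1) (x' (y' w2))) • z) := by module
      rwa [e1] at h1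
    · rw [LinearMap.sub_apply, LinearMap.smul_apply, map_sub, map_smul, LinearMap.sub_apply,
        LinearMap.smul_apply, smul_eq_mul, div_mul_cancel₀ _ hδ, sub_self]
  refine ⟨z, hcom, hzskew, hz0, huniq, fun u hu hua huz => ?_⟩
  obtain ⟨c, hc⟩ := huniq (u * z) (hu.mul hcom) (by
    have h1 := hua.mul hzskew
    rwa [neg_mul, ← huz] at h1)
  refine ⟨c, ?_⟩
  rw [← sub_eq_zero]
  refine C.com_zero (hu.sub (Com.one.smul c)) fun v hv => ?_
  have hv' := C.com_mem (hu.sub (Com.one.smul c)) hv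
  have h1 : z ((u - c • (1 : Module.End ℂ V)) v) = 0 := by
    have h2 : z * (u - c • (1 : Module.End ℂ V)) = 0 := by
      rw [mul_sub, ← huz, hc, mul_smul_comm, mul_one, sub_self]
    exact congrArg (fun F : Module.End ℂ V => F v) h2
  obtain ⟨α, γ, hαγ⟩ := hspan _ hv'
  rw [hαγ, map_add, map_smul, map_smul] at h1
  have h2 := congrArg (fun s => ω s (x' (y' w2))) h1
  have h3 := congrArg (fun s => ω s (x' (y' w1))) h1
  simp only [map_add, map_smul, LinearMap.add_apply, LinearMap.smul_apply, smul_eq_mul, map_zero,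
    LinearMap.zero_apply] at h2 h3
  rw [hself z hcom hzskew] at h2 h3
  rw [hsk z hcom hzskew w2 w1, C.sy h w2 (z w1)] at h3
  have hα : α = 0 := (mul_eq_zero.1 (by linear_combination h2)).resolve_right hδ
  have hγ : γ = 0 := (mul_eq_zero.1 (by linear_combination -h3)).resolve_right hδ
  rw [hαγ, hα, hγ, zero_smul, zero_smul, add_zero]

end

end Car

end Pool.Agent.P8H30.FF
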