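import Pool.Agent.P8H30.FF.Eig
import Pool.Agent.P8H30.FF.Car

set_option autoImplicit false
set_option linter.unusedSectionVars false
set_option linter.unusedVariables false

/-!
# The Clifford family is impossible
-/

open Module

noncomputable section

namespace Pool.Agent.P8H30.FF

variable {V : Type} [AddCommGroup V] [Module ℂ V] {ι : Type} [Fintype ι] [DecidableEq ι]

theorem IsAdj.both {ω : V →ₗ[ℂ] V →ₗ[ℂ] ℂ} {b : Basis ι ℂ V} {b' : ι → V} (h : SB ω b b')
    {x : Module.End ℂ V} (h1 : IsAdj ω x x) (h2 : IsAdj ω x (-x)) : x = 0 := by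
  have h3 := eq_neg_iff_add_eq_zero.1 (h.adj_uniq h1 h2)
  rw [← two_smul ℂ] at h3
  exact (smul_eq_zero.1 h3).resolve_left two_ne_zero

/-- The commutant of four anticommuting involutions. -/
theorem exists_z' {ω : V →ₗ[ℂ] V →ₗ[ℂ] ℂ} {b : Basis ι ℂ V} {b' : ι → V} (h : SB ω b b')
    [FiniteDimensional ℂ V] (hd : LinearMap.trace ℂ V 1 = 8) {a c d e : Module.End ℂ V}
    (haa : IsAdj ω a a) (hca : IsAdj ω c c) (hda : IsAdj ω d d) (hea : IsAdj ω e e)
    (ha : a * a = 1) (hc : c * c = 1) (hdd : d * d = 1) (he : e * e = 1)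
    (hac : a * c = -(c * a)) (had : a * d = -(d * a)) (hae : a * e = -(e * a))
    (hcd : c * d = -(d * c)) (hce : c * e = -(e * c)) (hde : d * e = -(e * d)) :
    ∃ z : Module.End ℂ V, (z * a = a * z ∧ z * c = c * z ∧ z * d = d * z ∧ z * e = e * z) ∧
      IsAdj ω z (-z) ∧ z ≠ 0 ∧
      (∀ t, (t * a = a * t ∧ t * c = c * t ∧ t * d = d * t ∧ t * e = e * t) → IsAdj ω t (-t) →
        ∃ r : ℂ, t = r • z) ∧
      (∀ u, (u * a = a * u ∧ u * c = c * u ∧ u * d = d * u ∧ u * e = e * u) → IsAdj ω u u →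
        u * z = z * u → ∃ r : ℂ, u = r • (1 : Module.End ℂ V)) := by
  have hI : Complex.I * Complex.I = -1 := Complex.I_mul_I
  obtain ⟨p, hp⟩ : ∃ p : Module.End ℂ V, p = Complex.I • c := ⟨_, rfl⟩
  obtain ⟨q, hq⟩ : ∃ q : Module.End ℂ V, q = Complex.I • e := ⟨_, rfl⟩
  have hcp : c = -(Complex.I • p) := by rw [hp, smul_smul, hI, neg_one_smul, neg_neg]
  have heq : e = -(Complex.I • q) := by rw [hq, smul_smul, hI, neg_one_smul, neg_neg]
  have ev : ∀ {f g : Module.End ℂ V}, f = g → ∀ v, f v = g v := fun h v => by rw [h]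
  have kaa : ∀ v, a (a v) = v := ev ha
  have kdd : ∀ v, d (d v) = v := ev hdd
  have kpp : ∀ v, p (p v) = -v := fun v => by
    have h1 : p * p = -1 := by rw [hp, smul_mul_smul_comm, hI, hc, neg_one_smul]
    exact ev h1 v
  have kqq : ∀ v, q (q v) = -v := fun v => by
    have h1 : q * q = -1 := by rw [hq, smul_mul_smul_comm, hI, he, neg_one_smul]
    exact ev h1 v
  have kpa : ∀ v, p (a v) = -a (p v) := ev (f := p * a) (g := -(a * p)) (by
    rw [hp, smul_mul_assoc, mul_smul_comm, hac]; module)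
  have kda : ∀ v, d (a v) = -a (d v) := ev (f := d * a) (g := -(a * d)) (by rw [had, neg_neg])
  have kqa : ∀ v, q (a v) = -a (q v) := ev (f := q * a) (g := -(a * q)) (by
    rw [hq, smul_mul_assoc, mul_smul_comm, hae]; module)
  have kdp : ∀ v, d (p v) = -p (d v) := ev (f := d * p) (g := -(p * d)) (by
    rw [hp, smul_mul_assoc, mul_smul_comm, hcd]; module)
  have kqp : ∀ v, q (p v) = -p (q v) := ev (f := q * p) (g := -(p * q)) (by
    rw [hp, hq, smul_mul_smul_comm, smul_mul_smul_comm, hce]; module)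
  have kqd : ∀ v, q (d v) = -d (q v) := ev (f := q * d) (g := -(d * q)) (by
    rw [hq, smul_mul_assoc, mul_smul_comm, hde]; module)
  have hpa : IsAdj ω p p := by rw [hp]; exact hca.smul _
  have hqa : IsAdj ω q q := by rw [hq]; exact hea.smul _
  let X : Module.End ℂ V := (1 / 2 : ℂ) • (a + p)
  let X' : Module.End ℂ V := (1 / 2 : ℂ) • (a - p)
  let Y : Module.End ℂ V := (1 / 2 : ℂ) • (d + q)
  let Y' : Module.End ℂ V := (1 / 2 : ℂ) • (d - q)
  have C : Car ω X X' Y Y' := by
    refine ⟨fun v => ?_, fun v => ?_, fun v => ?_, fun v => ?_, fun v => ?_, fun v => ?_,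
      fun v => ?_, fun v => ?_, fun v => ?_, fun v => ?_, (haa.add hpa).smul _,
      (haa.sub hpa).smul _, (hda.add hqa).smul _, (hda.sub hqa).smul _⟩ <;>
    · simp only [X, X', Y, Y', LinearMap.smul_apply, LinearMap.add_apply, LinearMap.sub_apply,
        map_smul, map_add, map_sub, kaa, kdd, kpp, kqq, kpa, kda, kqa, kdp, kqp, kqd]
      module
  have hfrom : ∀ t, (t * a = a * t ∧ t * c = c * t ∧ t * d = d * t ∧ t * e = e * t) →
      Com X X' Y Y' t := by
    rintro t ⟨h1, h2, h3, h4⟩
    have h5 : t * p = p * t := by rw [hp, mul_smul_comm, smul_mul_assoc, h2]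
    have h6 : t * q = q * t := by rw [hq, mul_smul_comm, smul_mul_assoc, h4]
    refine ⟨?_, ?_, ?_, ?_⟩ <;>
      simp only [X, X', Y, Y', mul_smul_comm, smul_mul_assoc, mul_add, add_mul, mul_sub, sub_mul,
        h1, h3, h5, h6]
  have hto : ∀ t, Com X X' Y Y' t →
      (t * a = a * t ∧ t * c = c * t ∧ t * d = d * t ∧ t * e = e * t) := by
    intro t ht
    have ea : a = X + X' := by simp only [X, X']; module
    have ep : p = X - X' := by simp only [X, X']; module
    have ed : d = Y + Y' := by simp only [Y, Y']; module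
    have eq : q = Y - Y' := by simp only [Y, Y']; module
    refine ⟨?_, ?_, ?_, ?_⟩
    · rw [ea, mul_add, add_mul, ht.x, ht.x']
    · rw [hcp, ep, mul_neg, neg_mul, mul_smul_comm, smul_mul_assoc, mul_sub, sub_mul, ht.x, ht.x']
    · rw [ed, mul_add, add_mul, ht.y, ht.y']
    · rw [heq, eq, mul_neg, neg_mul, mul_smul_comm, smul_mul_assoc, mul_sub, sub_mul, ht.y, ht.y']
  obtain ⟨z, h1, h2, h3, h4, h5⟩ := C.exists_z h hd
  exact ⟨z, hto z h1, h2, h3, fun t ht hta => h4 t (hfrom t ht) hta,
    fun u hu hua huz => h5 u (hfrom u hu) hua huz⟩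

namespace Sys

variable {ω : V →ₗ[ℂ] V →ₗ[ℂ] ℂ} {b : Basis ι ℂ V} {b' : ι → V} {φ : F4 V}
  {Q : Set (Module.End ℂ V)} (H : Sys ω b b' φ Q)
include H

section

variable {m : ℕ} {x : Fin m → Module.End ℂ V} (hadj : ∀ i, IsAdj ω (x i) (x i))
  (hcl : ∀ i j, x i * x j + x j * x i = if i = j then (2 : ℂ) • (1 : Module.End ℂ V) else 0)
  (hbr : ∀ q ∈ Q, ∃ a : Fin m → Fin m → ℂ, ∀ i, q * x i - x i * q = ∑ j, a i j • x j)
include hadj hcl hbr

omit H hadj hbr in
theorem sq (i : Fin m) : x i * x i = 1 := by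
  have h1 := hcl i i
  rw [if_pos rfl, ← two_smul ℂ] at h1
  exact smul_right_injective _ two_ne_zero h1

omit H hadj hbr in
theorem an {i j : Fin m} (hij : i ≠ j) : x i * x j = -(x j * x i) := by
  have h1 := hcl i j
  rw [if_neg hij] at h1
  exact eq_neg_of_add_eq_zero_left h1

theorem br_anti {q : Module.End ℂ V} {a : Fin m → Fin m → ℂ}
    (ha : ∀ i, q * x i - x i * q = ∑ j, a i j • x j) (i j : Fin m) : a i j = -a j i := by
  have := H.nontriv
  have h1 : q * (x i * x j + x j * x i) - (x i * x j + x j * x i) * q =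
      (∑ k, a i k • (x k * x j + x j * x k)) + ∑ k, a j k • (x i * x k + x k * x i) := by
    have e1 : q * (x i * x j + x j * x i) - (x i * x j + x j * x i) * q =
      (q * x i - x i * q) * x j + x j * (q * x i - x i * q) +
        (x i * (q * x j - x j * q) + (q * x j - x j * q) * x i) := by noncomm_ring
    rw [e1, ha, ha]
    simp only [Finset.sum_mul, Finset.mul_sum, smul_mul_assoc, mul_smul_comm, smul_add,
      Finset.sum_add_distrib]
  have e2 : ∀ k, a i k • (x k * x j + x j * x k) =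
      if k = j then (2 * a i j) • (1 : Module.End ℂ V) else 0 := by
    intro k
    rw [hcl]
    by_cases hk : k = j
    · rw [if_pos hk, if_pos hk, hk, smul_smul, mul_comm]
    · rw [if_neg hk, if_neg hk, smul_zero]
  have e3 : ∀ k, a j k • (x i * x k + x k * x i) =
      if k = i then (2 * a j i) • (1 : Module.End ℂ V) else 0 := by
    intro k
    rw [hcl]
    by_cases hk : k = i
    · rw [if_pos hk.symm, if_pos hk, hk, smul_smul, mul_comm]
    · rw [if_neg (Ne.symm hk), if_neg hk, smul_zero]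
  rw [Finset.sum_congr rfl fun k _ => e2 k, Finset.sum_congr rfl fun k _ => e3 k,
    Finset.sum_ite_eq' Finset.univ j, Finset.sum_ite_eq' Finset.univ i,
    if_pos (Finset.mem_univ _), if_pos (Finset.mem_univ _), hcl, ← add_smul] at h1
  have h2 : q * (if i = j then (2 : ℂ) • (1 : Module.End ℂ V) else 0) -
      (if i = j then (2 : ℂ) • (1 : Module.End ℂ V) else 0) * q = 0 := by
    by_cases hij : i = j
    · rw [if_pos hij, mul_smul_comm, smul_mul_assoc, mul_one, one_mul, sub_self]
    · rw [if_neg hij, mul_zero, zero_mul, sub_self]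
  rw [h2] at h1
  have h3 := (smul_eq_zero.1 h1.symm).resolve_right one_ne_zero
  linear_combination (1 / 2) * h3

/-- the splitting of the operators -/
theorem exists_split {q : Module.End ℂ V} (hq : q ∈ Q) : ∃ t : Module.End ℂ V,
    q - t ∈ Submodule.span ℂ {y | ∃ i j, y = x i * x j} ∧ (∀ i, t * x i = x i * t) ∧
      IsAdj ω t (-t) := by
  obtain ⟨a, ha⟩ := hbr q hq
  have haa := H.br_anti hadj hcl hbr ha
  obtain ⟨s, hs⟩ : ∃ s : Module.End ℂ V, s = (1 / 4 : ℂ) • ∑ j, ∑ k, a j k • (x k * x j) :=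
    ⟨_, rfl⟩
  refine ⟨q - s, ?_, fun i => ?_, ?_⟩
  · rw [sub_sub_cancel, hs]
    refine Submodule.smul_mem _ _ (Submodule.sum_mem _ fun j _ => Submodule.sum_mem _ fun k _ =>
      Submodule.smul_mem _ _ (Submodule.subset_span ⟨k, j, rfl⟩))
  · rw [← sub_eq_zero]
    have e1 : (q - s) * x i - x i * (q - s) = (q * x i - x i * q) - (s * x i - x i * s) := by
      noncomm_ring
    have e2 : s * x i - x i * s = (1 / 4 : ℂ) • ∑ j, ∑ k, a j k •
        (x k * (x j * x i + x i * x j) - (x k * x i + x i * x k) * x j) := by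
      rw [hs, smul_mul_assoc, mul_smul_comm, ← smul_sub, Finset.sum_mul, Finset.mul_sum,
        ← Finset.sum_sub_distrib]
      congr 1
      refine Finset.sum_congr rfl fun j _ => ?_
      rw [Finset.sum_mul, Finset.mul_sum, ← Finset.sum_sub_distrib]
      refine Finset.sum_congr rfl fun k _ => ?_
      rw [smul_mul_assoc, mul_smul_comm, ← smul_sub]
      congr 1
      noncomm_ring
    have e3 : ∀ j k, a j k • (x k * (x j * x i + x i * x j) - (x k * x i + x i * x k) * x j) =
        (if j = i then (2 * a i k) • x k else 0) - (if k = i then (2 * a j i) • x j else 0) := by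
      intro j k
      rw [hcl, hcl]
      by_cases hj : j = i <;> by_cases hk : k = i
      · rw [if_pos hj, if_pos hk, if_pos hj, if_pos hk, hj, hk, mul_smul_comm, smul_mul_assoc,
          mul_one, one_mul, sub_self, smul_zero, sub_self]
      · rw [if_pos hj, if_neg hk, if_pos hj, if_neg hk, hj, mul_smul_comm,
          mul_one, zero_mul, sub_zero, sub_zero, smul_smul, mul_comm]
      · rw [if_neg hj, if_pos hk, if_neg hj, if_pos hk, hk, smul_mul_assoc, one_mul, mul_zero,
          zero_sub, zero_sub, smul_neg, smul_smul, mul_comm]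
      · rw [if_neg hj, if_neg hk, if_neg hj, if_neg hk, mul_zero, zero_mul, sub_self, smul_zero]
    have e4 : ∑ j, ∑ k, a j k •
        (x k * (x j * x i + x i * x j) - (x k * x i + x i * x k) * x j) =
        (4 : ℂ) • ∑ k, a i k • x k := by
      rw [Finset.sum_congr rfl fun j _ => Finset.sum_congr rfl fun k _ => e3 j k]
      simp only [Finset.sum_sub_distrib]
      rw [Finset.sum_comm (f := fun j k => if j = i then (2 * a i k) • x k else 0)]
      simp only [Finset.sum_ite_eq', Finset.mem_univ, if_true]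
      rw [← Finset.sum_sub_distrib, Finset.smul_sum]
      refine Finset.sum_congr rfl fun k _ => ?_
      rw [haa k i]
      module
    rw [e1, e2, e4, ha, smul_smul]
    norm_num
  · have h1 : IsAdj ω s (-s) := by
      obtain ⟨s', hs'⟩ := H.h.exists_adj s
      have h2 : ∀ u v, ω (s u) v = ω u ((-s) v) := by
        intro u v
        rw [hs]
        simp only [LinearMap.smul_apply, LinearMap.sum_apply, Module.End.mul_apply,
          LinearMap.neg_apply, map_neg, map_smul, map_sum]
        rw [← smul_neg, ← Finset.sum_neg_distrib]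
        congr 1
        rw [Finset.sum_comm]
        refine Finset.sum_congr rfl fun j _ => ?_
        rw [← Finset.sum_neg_distrib]
        refine Finset.sum_congr rfl fun k _ => ?_
        rw [hadj, hadj, haa k j, neg_smul]
      exact h2
    have h2 := (H.skew q hq).sub h1
    have h3 : -q - -s = -(q - s) := by abel
    rwa [h3] at h2

/-- commuting with the operators -/
theorem comm_of {y : Module.End ℂ V} (h1 : ∀ i j, y * (x i * x j) = x i * x j * y)
    (h2 : ∀ t, (∀ i, t * x i = x i * t) → IsAdj ω t (-t) → t * y = y * t) :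
    ∀ q ∈ Q, q * y = y * q := by
  intro q hq
  obtain ⟨t, hs, ht, hta⟩ := H.exists_split hadj hcl hbr hq
  have h3 : ∀ s ∈ Submodule.span ℂ {y | ∃ i j, y = x i * x j}, s * y = y * s := by
    intro s hs
    induction hs using Submodule.span_induction with
    | mem s hs => obtain ⟨i, j, rfl⟩ := hs; exact (h1 i j).symm
    | zero => rw [zero_mul, mul_zero]
    | add s s' _ _ hs hs' => rw [add_mul, mul_add, hs, hs']
    | smul c s _ hs => rw [smul_mul_assoc, mul_smul_comm, hs]
  have h4 := h3 _ hs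
  rw [sub_mul, mul_sub, h2 t ht hta] at h4
  exact sub_left_injective h4

theorem no_small (y y' : Module.End ℂ V) (hy : y * y' = 1) (hya : IsAdj ω y (-y))
    (h1 : ∀ i j, y * (x i * x j) = x i * x j * y)
    (h2 : ∀ t, (∀ i, t * x i = x i * t) → t * y = y * t) : False := by
  have := H.nontriv
  have h3 := H.hC y (H.comm_of hadj hcl hbr h1 fun t ht _ => h2 t ht)
  rw [IsAdj.both H.h h3 hya, zero_mul] at hy
  exact one_ne_zero hy.symm

end

/-- the case of two operators -/
theorem no_two {x : Fin 2 → Module.End ℂ V} (hadj : ∀ i, IsAdj ω (x i) (x i))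
    (hcl : ∀ i j, x i * x j + x j * x i = if i = j then (2 : ℂ) • (1 : Module.End ℂ V) else 0)
    (hbr : ∀ q ∈ Q, ∃ a : Fin 2 → Fin 2 → ℂ, ∀ i, q * x i - x i * q = ∑ j, a i j • x j) :
    False := by
  have s0 := sq hcl 0
  have s1 := sq hcl 1
  have a10 := an hcl (show (1 : Fin 2) ≠ 0 by decide)
  refine H.no_small hadj hcl hbr (x 0 * x 1) (x 1 * x 0) ?_ ?_ (fun i j => ?_) fun t ht => ?_
  · rw [mul_assoc, ← mul_assoc (x 1), s1, one_mul, s0]
  · have h1 := (hadj 0).mul (hadj 1)
    rwa [a10] at h1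
  · fin_cases i <;> fin_cases j
    · change x 0 * x 1 * (x 0 * x 0) = x 0 * x 0 * (x 0 * x 1)
      rw [s0, mul_one, one_mul]
    · rfl
    · change x 0 * x 1 * (x 1 * x 0) = x 1 * x 0 * (x 0 * x 1)
      rw [a10, mul_neg, neg_mul]
    · change x 0 * x 1 * (x 1 * x 1) = x 1 * x 1 * (x 0 * x 1)
      rw [s1, mul_one, one_mul]
  · rw [← mul_assoc, ht, mul_assoc, ht, mul_assoc]

/-- the case of three operators -/
theorem no_three {x : Fin 3 → Module.End ℂ V} (hadj : ∀ i, IsAdj ω (x i) (x i))
    (hcl : ∀ i j, x i * x j + x j * x i = if i = j then (2 : ℂ) • (1 : Module.End ℂ V) else 0)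
    (hbr : ∀ q ∈ Q, ∃ a : Fin 3 → Fin 3 → ℂ, ∀ i, q * x i - x i * q = ∑ j, a i j • x j) :
    False := by
  have s0 : ∀ s, x 0 * (x 0 * s) = s := fun s => by rw [← mul_assoc, sq hcl, one_mul]
  have s1 : ∀ s, x 1 * (x 1 * s) = s := fun s => by rw [← mul_assoc, sq hcl, one_mul]
  have s2 : ∀ s, x 2 * (x 2 * s) = s := fun s => by rw [← mul_assoc, sq hcl, one_mul]
  have q0 := sq hcl 0
  have q1 := sq hcl 1
  have q2 := sq hcl 2
  have a10 : x 1 * x 0 = -(x 0 * x 1) := an hcl (by decide)
  have a20 : x 2 * x 0 = -(x 0 * x 2) := an hcl (by decide)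
  have a21 : x 2 * x 1 = -(x 1 * x 2) := an hcl (by decide)
  have b10 : ∀ s, x 1 * (x 0 * s) = -(x 0 * (x 1 * s)) := fun s => by
    rw [← mul_assoc, a10, neg_mul, mul_assoc]
  have b20 : ∀ s, x 2 * (x 0 * s) = -(x 0 * (x 2 * s)) := fun s => by
    rw [← mul_assoc, a20, neg_mul, mul_assoc]
  have b21 : ∀ s, x 2 * (x 1 * s) = -(x 1 * (x 2 * s)) := fun s => by
    rw [← mul_assoc, a21, neg_mul, mul_assoc]
  have hc : ∀ i, x 0 * (x 1 * x 2) * x i = x i * (x 0 * (x 1 * x 2)) := by
    intro i
    fin_cases i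
    · change x 0 * (x 1 * x 2) * x 0 = x 0 * (x 0 * (x 1 * x 2))
      simp only [mul_assoc, s0, s1, s2, q0, q1, q2, a10, a20, a21, b10, b20, b21, mul_neg, neg_neg]
    · change x 0 * (x 1 * x 2) * x 1 = x 1 * (x 0 * (x 1 * x 2))
      simp only [mul_assoc, s0, s1, s2, q0, q1, q2, a10, a20, a21, b10, b20, b21, mul_neg, neg_neg]
    · change x 0 * (x 1 * x 2) * x 2 = x 2 * (x 0 * (x 1 * x 2))
      simp only [mul_assoc, s0, s1, s2, q0, q1, q2, a10, a20, a21, b10, b20, b21, mul_neg, neg_neg,
        mul_one]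
  refine H.no_small hadj hcl hbr (x 0 * (x 1 * x 2)) (x 2 * (x 1 * x 0)) ?_ ?_
    (fun i j => ?_) fun t ht => ?_
  · simp only [mul_assoc, s0, s1, s2, q0]
  · have h1 := (hadj 0).mul ((hadj 1).mul (hadj 2))
    have h2 : x 2 * x 1 * x 0 = -(x 0 * (x 1 * x 2)) := by
      simp only [mul_assoc, a10, a20, a21, b10, b20, b21, mul_neg, neg_neg, neg_mul]
    rwa [h2] at h1
  · rw [← mul_assoc, hc, mul_assoc, hc, mul_assoc]
  · rw [← mul_assoc, ht, mul_assoc, ← mul_assoc t, ht, mul_assoc, ht, mul_assoc, mul_assoc]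

/-- the case of at least four operators -/
theorem no_four {n : ℕ} {x : Fin (n + 4) → Module.End ℂ V} (hadj : ∀ i, IsAdj ω (x i) (x i))
    (hcl : ∀ i j, x i * x j + x j * x i = if i = j then (2 : ℂ) • (1 : Module.End ℂ V) else 0)
    (hbr : ∀ q ∈ Q, ∃ a : Fin (n + 4) → Fin (n + 4) → ℂ, ∀ i,
      q * x i - x i * q = ∑ j, a i j • x j) :
    False := by
  have := H.fin
  have := H.nontriv
  obtain ⟨i0, hi0⟩ : ∃ i : Fin (n + 4), i.val = 0 := ⟨⟨0, by omega⟩, rfl⟩
  obtain ⟨i1, hi1⟩ : ∃ i : Fin (n + 4), i.val = 1 := ⟨⟨1, by omega⟩, rfl⟩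
  obtain ⟨i2, hi2⟩ : ∃ i : Fin (n + 4), i.val = 2 := ⟨⟨2, by omega⟩, rfl⟩
  obtain ⟨i3, hi3⟩ : ∃ i : Fin (n + 4), i.val = 3 := ⟨⟨3, by omega⟩, rfl⟩
  have ne : ∀ {i j : Fin (n + 4)}, i.val ≠ j.val → i ≠ j := fun h h' => h (by rw [h'])
  have hcase : ∀ i : Fin (n + 4), i = i0 ∨ i = i1 ∨ i = i2 ∨ i = i3 ∨ 4 ≤ i.val := by
    intro i
    rcases Nat.lt_or_ge i.val 4 with h4 | h4
    · have : i.val = 0 ∨ i.val = 1 ∨ i.val = 2 ∨ i.val = 3 := by omega
      rcases this with h | h | h | h
      · exact Or.inl (Fin.ext (by rw [h, hi0]))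
      · exact Or.inr (Or.inl (Fin.ext (by rw [h, hi1])))
      · exact Or.inr (Or.inr (Or.inl (Fin.ext (by rw [h, hi2]))))
      · exact Or.inr (Or.inr (Or.inr (Or.inl (Fin.ext (by rw [h, hi3])))))
    · exact Or.inr (Or.inr (Or.inr (Or.inr h4)))
  have s : ∀ i s, x i * (x i * s) = s := fun i s => by rw [← mul_assoc, sq hcl, one_mul]
  have a10 : x i1 * x i0 = -(x i0 * x i1) := an hcl (ne (by omega))
  have a20 : x i2 * x i0 = -(x i0 * x i2) := an hcl (ne (by omega))
  have a21 : x i2 * x i1 = -(x i1 * x i2) := an hcl (ne (by omega))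
  have a30 : x i3 * x i0 = -(x i0 * x i3) := an hcl (ne (by omega))
  have a31 : x i3 * x i1 = -(x i1 * x i3) := an hcl (ne (by omega))
  have a32 : x i3 * x i2 = -(x i2 * x i3) := an hcl (ne (by omega))
  have asc : ∀ {p q : Module.End ℂ V}, p * q = -(q * p) →
      ∀ s, p * (q * s) = -(q * (p * s)) := fun h s => by
    rw [← mul_assoc, h, neg_mul, mul_assoc]
  have b10 := asc a10
  have b20 := asc a20
  have b21 := asc a21
  have b30 := asc a30
  have b31 := asc a31
  have b32 := asc a32
  obtain ⟨v, hv⟩ : ∃ v : Module.End ℂ V, v = x i0 * (x i1 * (x i2 * x i3)) := ⟨_, rfl⟩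
  have hvv : v * v = 1 := by
    rw [hv]
    simp only [mul_assoc, s, sq hcl, a10, a20, a21, a30, a31, a32, b10, b20, b21, b30, b31, b32,
      mul_neg, neg_neg, mul_one]
  have hva : IsAdj ω v v := by
    have h1 := (hadj i0).mul ((hadj i1).mul ((hadj i2).mul (hadj i3)))
    have h2 : x i3 * x i2 * x i1 * x i0 = v := by
      rw [hv]
      simp only [mul_assoc, s, sq hcl, a10, a20, a21, a30, a31, a32, b10, b20, b21, b30, b31, b32,
        mul_neg, neg_neg, mul_one, neg_mul]
    rw [h2] at h1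
    rw [hv] at h1 ⊢
    exact h1
  have v0 : v * x i0 = -(x i0 * v) := by
    rw [hv]
    simp only [mul_assoc, s, sq hcl, a10, a20, a21, a30, a31, a32, b10, b20, b21, b30, b31, b32,
      mul_neg, neg_neg, mul_one]
  have v1 : v * x i1 = -(x i1 * v) := by
    rw [hv]
    simp only [mul_assoc, s, sq hcl, a10, a20, a21, a30, a31, a32, b10, b20, b21, b30, b31, b32,
      mul_neg, neg_neg, mul_one]
  have v2 : v * x i2 = -(x i2 * v) := by
    rw [hv]
    simp only [mul_assoc, s, sq hcl, a10, a20, a21, a30, a31, a32, b10, b20, b21, b30, b31, b32,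
      mul_neg, neg_neg, mul_one]
  have v3 : v * x i3 = -(x i3 * v) := by
    rw [hv]
    simp only [mul_assoc, s, sq hcl, a10, a20, a21, a30, a31, a32, b10, b20, b21, b30, b31, b32,
      mul_neg, neg_neg, mul_one]
  have vj : ∀ j : Fin (n + 4), 4 ≤ j.val → v * x j = x j * v := by
    intro j hj
    have c0 : x j * x i0 = -(x i0 * x j) := an hcl (ne (by omega))
    have c1 : x j * x i1 = -(x i1 * x j) := an hcl (ne (by omega))
    have c2 : x j * x i2 = -(x i2 * x j) := an hcl (ne (by omega))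
    have c3 : x j * x i3 = -(x i3 * x j) := an hcl (ne (by omega))
    rw [hv]
    simp only [mul_assoc, c3, asc c0, asc c1, asc c2, mul_neg, neg_neg]
  obtain ⟨z, hz, hza, hz0, huniq, hu⟩ := exists_z' H.h H.trace_one (hadj i0) (hadj i1) (hadj i2)
    (hadj i3) (sq hcl i0) (sq hcl i1) (sq hcl i2) (sq hcl i3) (an hcl (ne (by omega)))
    (an hcl (ne (by omega))) (an hcl (ne (by omega))) (an hcl (ne (by omega)))
    (an hcl (ne (by omega))) (an hcl (ne (by omega)))
  have hzv : z * v = v * z := by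
    rw [hv, ← mul_assoc, hz.1, mul_assoc, ← mul_assoc z, hz.2.1, mul_assoc, ← mul_assoc z,
      hz.2.2.1, mul_assoc, hz.2.2.2]
    simp only [mul_assoc]
  -- the dichotomy
  have hdich : ∀ j : Fin (n + 4), 4 ≤ j.val →
      (∃ r : ℂ, x j = r • v) ∨ z * x j = -(x j * z) := by
    intro j hj
    have cj : ∀ i : Fin (n + 4), i.val < 4 → x j * x i = -(x i * x j) := fun i hi =>
      an hcl (ne (by omega))
    obtain ⟨u, hu'⟩ : ∃ u : Module.End ℂ V, u = x j * v := ⟨_, rfl⟩
    have huu : u * u = 1 := by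
      rw [hu', mul_assoc, ← mul_assoc v, vj j hj, mul_assoc, hvv, mul_one, sq hcl]
    have hua : IsAdj ω u u := by
      have h1 := (hadj j).mul hva
      rw [vj j hj, ← hu'] at h1
      exact h1
    have hucom : ∀ i : Fin (n + 4), i.val < 4 → v * x i = -(x i * v) → u * x i = x i * u := by
      intro i hi hvi
      rw [hu', mul_assoc, hvi, mul_neg, ← mul_assoc, cj i hi, neg_mul, neg_neg, mul_assoc]
    have hu4 : u * x i0 = x i0 * u ∧ u * x i1 = x i1 * u ∧ u * x i2 = x i2 * u ∧
        u * x i3 = x i3 * u :=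
      ⟨hucom i0 (by omega) v0, hucom i1 (by omega) v1, hucom i2 (by omega) v2,
        hucom i3 (by omega) v3⟩
    have hmulc : ∀ {p q y : Module.End ℂ V}, p * y = y * p → q * y = y * q →
        p * q * y = y * (p * q) := fun h1 h2 => by rw [mul_assoc, h2, ← mul_assoc, h1, mul_assoc]
    obtain ⟨c, hc⟩ := huniq (u * (z * u))
      ⟨hmulc hu4.1 (hmulc hz.1 hu4.1), hmulc hu4.2.1 (hmulc hz.2.1 hu4.2.1),
        hmulc hu4.2.2.1 (hmulc hz.2.2.1 hu4.2.2.1), hmulc hu4.2.2.2 (hmulc hz.2.2.2 hu4.2.2.2)⟩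
      (by
        have h1 := hua.mul (hza.mul hua)
        have h2 : u * -z * u = -(u * (z * u)) := by noncomm_ring
        rwa [h2] at h1)
    have h1 : z * u = c • (u * z) := by
      have h2 := congrArg (fun s => u * s) hc
      simp only [mul_smul_comm] at h2
      rwa [← mul_assoc u, huu, one_mul] at h2
    have h2 : (c * c - 1) • z = 0 := by
      have h3 : z = c • (c • z) := by
        calc z = z * (u * u) := by rw [huu, mul_one]
          _ = c • (u * (z * u)) := by
            rw [← mul_assoc]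
            nth_rewrite 1 [h1]
            rw [smul_mul_assoc, mul_assoc]
          _ = c • (c • z) := by rw [hc]
      rw [sub_smul, one_smul, mul_smul, ← h3, sub_self]
    have h3 := (smul_eq_zero.1 h2).resolve_right hz0
    have h4 : (c - 1) * (c + 1) = 0 := by linear_combination h3
    rcases mul_eq_zero.1 h4 with h5 | h5
    · left
      rw [sub_eq_zero.1 h5, one_smul] at h1
      obtain ⟨r, hr⟩ := hu u hu4 hua h1.symm
      refine ⟨r, ?_⟩
      have h6 : x j = u * v := by rw [hu', mul_assoc, hvv, mul_one]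
      rw [h6, hr, smul_mul_assoc, one_mul]
    · right
      rw [eq_neg_of_add_eq_zero_left h5, neg_one_smul] at h1
      have h6 : x j = u * v := by rw [hu', mul_assoc, hvv, mul_one]
      rw [h6, ← mul_assoc, h1, neg_mul, mul_assoc, hzv, ← mul_assoc]
  have hlow : ∀ i : Fin (n + 4), i.val < 4 → z * x i = x i * z := by
    intro i hi
    rcases hcase i with h | h | h | h | h
    · rw [h]; exact hz.1
    · rw [h]; exact hz.2.1
    · rw [h]; exact hz.2.2.1
    · rw [h]; exact hz.2.2.2
    · omega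
  have hxne : ∀ i, x i ≠ 0 := fun i h0 => by
    have := sq hcl i
    rw [h0, mul_zero] at this
    exact zero_ne_one this
  have hfour : ∀ t, (∀ i, t * x i = x i * t) → t * x i0 = x i0 * t ∧ t * x i1 = x i1 * t ∧
      t * x i2 = x i2 * t ∧ t * x i3 = x i3 * t := fun t ht => ⟨ht _, ht _, ht _, ht _⟩
  -- the two cases
  have hfin : (∀ i, z * x i = x i * z) → False := by
    intro hall
    refine hz0 (IsAdj.both H.h (H.hC z (H.comm_of hadj hcl hbr (fun i j => ?_)
      fun t ht hta => ?_)) hza)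
    · rw [← mul_assoc, hall, mul_assoc, hall, mul_assoc]
    · obtain ⟨c, rfl⟩ := huniq t (hfour t ht) hta
      rw [smul_mul_assoc, mul_smul_comm]
  by_cases hex : ∃ j : Fin (n + 4), 4 ≤ j.val ∧ ∃ r : ℂ, x j = r • v
  · obtain ⟨j, hj, r, hr⟩ := hex
    refine hfin fun i => ?_
    rcases Nat.lt_or_ge i.val 4 with h4 | h4
    · exact hlow i h4
    · by_cases hij : i = j
      · rw [hij, hr, mul_smul_comm, smul_mul_assoc, hzv]
      · exfalso
        have h1 := an hcl hij
        have h2 : x i * x j = x j * x i := by rw [hr, mul_smul_comm, smul_mul_assoc, vj i h4]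
        rw [h2] at h1
        have h3 : (2 : ℂ) • (x j * x i) = 0 := by
          rw [two_smul]
          nth_rewrite 1 [h1]
          exact neg_add_cancel _
        have h5 := (smul_eq_zero.1 h3).resolve_left two_ne_zero
        have h6 : x j * (x j * x i) = x i := s j _
        rw [h5, mul_zero] at h6
        exact hxne i h6.symm
  · push Not at hex
    by_cases hn : ∃ j : Fin (n + 4), 4 ≤ j.val
    · obtain ⟨j, hj⟩ := hn
      have hanti : ∀ j : Fin (n + 4), 4 ≤ j.val → z * x j = -(x j * z) := fun j hj =>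
        (hdich j hj).resolve_left fun ⟨r, hr⟩ => hex j hj r hr
      have ht0 : ∀ t, (∀ i, t * x i = x i * t) → IsAdj ω t (-t) → t = 0 := by
        intro t ht hta
        obtain ⟨c, rfl⟩ := huniq t (hfour t ht) hta
        have h1 := ht j
        rw [smul_mul_assoc, mul_smul_comm, hanti j hj] at h1
        have h2 : (2 * c) • (x j * z) = 0 := by
          have h3 : c • (x j * z) + c • (x j * z) = 0 := by
            nth_rewrite 1 [← h1]
            rw [smul_neg, neg_add_cancel]
          rw [two_mul, add_smul]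
          exact h3
        rcases smul_eq_zero.1 h2 with h3 | h3
        · have h4 : c = 0 := by
            rcases mul_eq_zero.1 h3 with h | h
            · norm_num at h
            · exact h
          rw [h4, zero_smul]
        · exfalso
          apply hz0
          have h4 : x j * (x j * z) = z := s j z
          rw [h3, mul_zero] at h4
          exact h4.symm
      have hζ : ∀ i, z * v * x i = -(x i * (z * v)) := by
        intro i
        rcases Nat.lt_or_ge i.val 4 with h4 | h4
        · have h5 : v * x i = -(x i * v) := by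
            rcases hcase i with h | h | h | h | h
            · rw [h]; exact v0
            · rw [h]; exact v1
            · rw [h]; exact v2
            · rw [h]; exact v3
            · omega
          rw [mul_assoc, h5, mul_neg, ← mul_assoc, hlow i h4, mul_assoc]
        · rw [mul_assoc, vj i h4, ← mul_assoc, hanti i h4, neg_mul, mul_assoc]
      have h1 : z * v = 0 := by
        refine IsAdj.both H.h (H.hC _ (H.comm_of hadj hcl hbr (fun i j => ?_)
          fun t ht hta => ?_)) ?_
        · rw [← mul_assoc, hζ, neg_mul, mul_assoc, hζ, mul_neg, neg_neg, mul_assoc]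
        · rw [ht0 t ht hta, zero_mul, mul_zero]
        · have h2 := hza.mul hva
          rw [mul_neg, ← hzv] at h2
          exact h2
      apply hz0
      have h2 : z * v * v = z := by rw [mul_assoc, hvv, mul_one]
      rw [← h2, h1, zero_mul]
    · push Not at hn
      exact hfin fun i => hlow i (hn i)

/-- **The vanishing theorem.** -/
theorem Phi_zero (x : Module.End ℂ V) : Phi b b' φ x = 0 := by
  have := H.nontriv
  by_contra hx
  obtain ⟨m, x, hm, hadj, hcl, hbr, hne⟩ := H.exists_cliff ⟨x, hx⟩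
  match m, x, hm, hadj, hcl, hbr, hne with
  | 0, x, hm, hadj, hcl, hbr, hne => exact absurd hm (lt_irrefl 0)
  | 1, x, hm, hadj, hcl, hbr, hne =>
    apply hne 0
    apply H.hP
    intro q hq
    obtain ⟨a, ha⟩ := hbr q hq
    have h1 := H.br_anti hadj hcl hbr ha 0 0
    have h2 : a 0 0 = 0 := self_eq_neg.1 h1
    have h3 := ha 0
    rw [Fin.sum_univ_one, h2, zero_smul] at h3
    exact sub_eq_zero.1 h3
  | 2, x, hm, hadj, hcl, hbr, hne => exact H.no_two hadj hcl hbr
  | 3, x, hm, hadj, hcl, hbr, hne => exact H.no_three hadj hcl hbr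
  | n + 4, x, hm, hadj, hcl, hbr, hne => exact H.no_four hadj hcl hbr

theorem zero : φ = 0 := by
  refine LinearMap.ext fun q => LinearMap.ext fun p => LinearMap.ext fun u =>
    LinearMap.ext fun v => ?_
  have h1 := H.h.Phi_spec (φ := φ) ((ω p).smulRight q) u v
  rw [H.Phi_zero, LinearMap.zero_apply, map_zero, LinearMap.zero_apply] at h1
  simp only [LinearMap.smulRight_apply, map_smul, LinearMap.smul_apply, smul_eq_mul] at h1
  have h2 : φ q p u v = ∑ i, ω p (b i) * φ q (b' i) u v := by
    conv_lhs => rw [← H.h.exp' p, map_sum, LinearMap.sum_apply, LinearMap.sum_apply]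
    exact Finset.sum_congr rfl fun i _ => by
      rw [map_smul, LinearMap.smul_apply, LinearMap.smul_apply, smul_eq_mul]
  rw [h2, ← h1]
  rfl

end Sys

end Pool.Agent.P8H30.FF
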