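import Pool.Agent.P8H30.FF.Spec

set_option autoImplicit false
set_option linter.unusedSectionVars false
set_option linter.unusedVariables false

/-!
# The Clifford family in the top eigenspace
-/

open Module

noncomputable section

namespace Pool.Agent.P8H30.FF

variable {V : Type} [AddCommGroup V] [Module ℂ V] {ι : Type} [Fintype ι] [DecidableEq ι]

namespace Sys

variable {ω : V →ₗ[ℂ] V →ₗ[ℂ] ℂ} {b : Basis ι ℂ V} {b' : ι → V} {φ : F4 V}
  {Q : Set (Module.End ℂ V)} (H : Sys ω b b' φ Q)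
include H

/-- the operator on trace-free self-adjoint operators -/
theorem exists_T : ∃ T : Module.End ℂ (S0 ω), ∀ x : S0 ω, (T x : Module.End ℂ V) =
    Phi b b' φ x :=
  ⟨(Phi b b' φ).restrict fun x _ => H.Phi_mem x, fun x => rfl⟩

theorem exists_β : ∃ β : S0 ω →ₗ[ℂ] S0 ω →ₗ[ℂ] S0 ω, ∀ x y : S0 ω,
    (β x y : Module.End ℂ V) = jor x y := by
  refine ⟨LinearMap.mk₂ ℂ (fun x y => ⟨jor x y, H.jor_mem x.2 y.2⟩) ?_ ?_ ?_ ?_, fun x y => rfl⟩
  · intro x y z
    apply Subtype.ext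
    simp only [jor, Submodule.coe_add, add_mul, mul_add, map_add]
    module
  · intro c x y
    apply Subtype.ext
    simp only [jor, Submodule.coe_smul, smul_mul_assoc, mul_smul_comm, map_smul, smul_eq_mul]
    module
  · intro x y z
    apply Subtype.ext
    simp only [jor, Submodule.coe_add, add_mul, mul_add, map_add]
    module
  · intro c x y
    apply Subtype.ext
    simp only [jor, Submodule.coe_smul, smul_mul_assoc, mul_smul_comm, map_smul, smul_eq_mul]
    module

theorem exists_D {q : Module.End ℂ V} (hq : q ∈ Q) : ∃ D : Module.End ℂ (S0 ω), ∀ x : S0 ω,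
    (D x : Module.End ℂ V) = q * x - x * q :=
  ⟨(LinearMap.mulLeft ℂ q - LinearMap.mulRight ℂ q).restrict fun x hx => H.br_mem hq hx,
    fun x => rfl⟩

theorem trace_T {T : Module.End ℂ (S0 ω)}
    (hT : ∀ x : S0 ω, (T x : Module.End ℂ V) = Phi b b' φ x) (k : ℕ) :
    ∀ x y : S0 ω, LinearMap.trace ℂ V (((T ^ k) x : Module.End ℂ V) * y) =
      LinearMap.trace ℂ V ((x : Module.End ℂ V) * (T ^ k) y) := by
  induction k with
  | zero => exact fun x y => rfl
  | succ k ih =>
    intro x y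
    rw [pow_succ, Module.End.mul_apply, ih, hT, LinearMap.trace_mul_comm,
      H.h.trace_Phi_symm H.ha, ← hT, ← Module.End.mul_apply, ← pow_succ']
    rw [pow_succ, Module.End.mul_apply]

theorem case_nil {T : Module.End ℂ (S0 ω)}
    (hT : ∀ x : S0 ω, (T x : Module.End ℂ V) = Phi b b' φ x) {n : ℕ}
    (hn : T ^ (n + 2) = 0) : T ^ (n + 1) = 0 := by
  obtain ⟨β, hβ⟩ := H.exists_β
  have hTβ : ∀ x y, T (β x y) = -(β (T x) y + β x (T y)) := by
    intro x y
    apply Subtype.ext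
    rw [hT, hβ, H.Phi_jor x.2 y.2, Submodule.coe_neg, Submodule.coe_add, hβ, hβ, hT, hT]
  have h1 := H.claimN ((LinearMap.range (T ^ (n + 1))).map (S0 ω).subtype) ?_ ?_ ?_
  · refine LinearMap.ext fun x => Subtype.ext ?_
    exact h1 _ ⟨(T ^ (n + 1)) x, ⟨x, rfl⟩, rfl⟩
  · rintro _ ⟨x, -, rfl⟩
    exact x.2.1
  · rintro _ ⟨_, ⟨x, rfl⟩, rfl⟩ q hq
    obtain ⟨D, hD⟩ := H.exists_D hq
    have hc : Commute D T := by
      refine LinearMap.ext fun y => Subtype.ext ?_
      rw [Module.End.mul_apply, Module.End.mul_apply, hD, hT, hT, hD,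
        H.h.Phi_comm H.ha (H.skew q hq) (H.kill q hq)]
    have hc' := hc.pow_right (n + 1)
    refine ⟨(T ^ (n + 1)) (D x), ⟨D x, rfl⟩, ?_⟩
    have h2 := congrArg (fun F : Module.End ℂ (S0 ω) => ((F x : S0 ω) : Module.End ℂ V)) hc'.eq
    simp only [Module.End.mul_apply] at h2
    rw [hD] at h2
    exact h2.symm
  · rintro _ ⟨_, ⟨x, rfl⟩, rfl⟩ _ ⟨_, ⟨y, rfl⟩, rfl⟩
    have h2 := congrArg (fun z : S0 ω => (z : Module.End ℂ V)) (nil_step T β hTβ hn x y)
    simp only [hβ, ZeroMemClass.coe_zero] at h2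
    unfold jor at h2
    have h3 : LinearMap.trace ℂ V (((T ^ (n + 1)) x : Module.End ℂ V) * (T ^ (n + 1)) y) = 0 := by
      rw [H.trace_T hT, ← Module.End.mul_apply, ← pow_add]
      have h4 : n + 1 + (n + 1) = n + (n + 2) := by omega
      rw [h4, pow_add, hn, mul_zero, LinearMap.zero_apply, ZeroMemClass.coe_zero, mul_zero,
        map_zero]
    rw [h3, mul_zero, zero_smul, sub_zero] at h2
    exact h2

/-- **The Clifford family.** -/
theorem exists_cliff (hne : ∃ x, Phi b b' φ x ≠ 0) : ∃ (m : ℕ) (x : Fin m → Module.End ℂ V),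
    0 < m ∧ (∀ i, IsAdj ω (x i) (x i)) ∧
    (∀ i j, x i * x j + x j * x i = if i = j then (2 : ℂ) • (1 : Module.End ℂ V) else 0) ∧
    (∀ q ∈ Q, ∃ a : Fin m → Fin m → ℂ, ∀ i, q * x i - x i * q = ∑ j, a i j • x j) ∧
    (∀ i, Phi b b' φ (x i) ≠ 0) := by
  have := H.fin
  have := H.nontriv
  obtain ⟨T, hT⟩ := H.exists_T
  have hT0 : T ≠ 0 := by
    obtain ⟨x, hx⟩ := hne
    obtain ⟨x', hx'⟩ := H.h.exists_adj x
    have h1 : IsAdj ω (x + x') (x + x') := by
      have := hx'.add (H.h.adj_symm hx')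
      rwa [add_comm x' x] at this
    obtain ⟨c, hc⟩ : ∃ c : ℂ, LinearMap.trace ℂ V (x + x') = 8 * c :=
      ⟨LinearMap.trace ℂ V (x + x') / 8, by ring⟩
    have h2 : x + x' - c • (1 : Module.End ℂ V) ∈ S0 ω :=
      ⟨h1.sub (IsAdj.one.smul c), by rw [map_sub, hc, map_smul, H.trace_one, smul_eq_mul]; ring⟩
    intro h0
    have h3 : Phi b b' φ (x + x' - c • (1 : Module.End ℂ V)) = 0 := by
      have := hT ⟨_, h2⟩
      rw [h0] at this
      exact this.symm
    rw [map_sub, map_smul, H.Phi_one, smul_zero, sub_zero, map_add,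
      ← H.h.Phi_star H.ha hx', ← two_smul ℂ] at h3
    exact hx ((smul_eq_zero.1 h3).resolve_left two_ne_zero)
  have hnt : Nontrivial (S0 ω) := by
    by_contra hcon
    rw [not_nontrivial_iff_subsingleton] at hcon
    exact hT0 (LinearMap.ext fun x => Subsingleton.elim _ _)
  rcases nil_or T with ⟨n, hn⟩ | ⟨μ, hμ0, hμ, hμ2⟩
  · exfalso
    induction n with
    | zero => rw [zero_add, pow_one] at hn; exact hT0 hn
    | succ n ih => exact ih (H.case_nil hT hn)
  -- the eigenspace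
  obtain ⟨E, hE⟩ : ∃ E : Submodule ℂ (Module.End ℂ V), ∀ x, x ∈ E ↔
      x ∈ S0 ω ∧ Phi b b' φ x = μ • x :=
    ⟨S0 ω ⊓ Module.End.eigenspace (Phi b b' φ) μ, fun x => by
      rw [Submodule.mem_inf, Module.End.mem_eigenspace_iff]⟩
  have hjor : ∀ x ∈ E, ∀ y ∈ E, jor x y = 0 := by
    intro x hx y hy
    rw [hE] at hx hy
    by_contra h0
    apply hμ2
    refine Module.End.hasEigenvalue_of_hasEigenvector (x := ⟨jor x y, H.jor_mem hx.1 hy.1⟩)
      ⟨?_, fun h1 => h0 (congrArg Subtype.val h1)⟩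
    rw [Module.End.mem_eigenspace_iff]
    apply Subtype.ext
    rw [hT, Submodule.coe_smul]
    change Phi b b' φ (jor x y) = _ • jor x y
    rw [H.Phi_jor hx.1 hy.1, hx.2, hy.2]
    simp only [jor, smul_mul_assoc, mul_smul_comm, map_smul, smul_eq_mul]
    module
  have hEst : ∀ x ∈ E, ∀ q ∈ Q, q * x - x * q ∈ E := by
    intro x hx q hq
    rw [hE] at hx ⊢
    refine ⟨H.br_mem hq hx.1, ?_⟩
    rw [H.h.Phi_comm H.ha (H.skew q hq) (H.kill q hq), hx.2, mul_smul_comm, smul_mul_assoc,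
      smul_sub]
  have hmul : ∀ x ∈ E, ∀ y ∈ E, x * y + y * x =
      (1 / 4 * LinearMap.trace ℂ V (x * y)) • (1 : Module.End ℂ V) := fun x hx y hy =>
    sub_eq_zero.1 (hjor x hx y hy)
  -- nondegeneracy
  have hnd : ∀ x ∈ E, (∀ y ∈ E, LinearMap.trace ℂ V (x * y) = 0) → x = 0 := by
    obtain ⟨R, hR⟩ : ∃ R : Submodule ℂ (Module.End ℂ V), ∀ x, x ∈ R ↔ x ∈ E ∧
        ∀ y ∈ E, LinearMap.trace ℂ V (x * y) = 0 :=
      ⟨{ carrier := {x | x ∈ E ∧ ∀ y ∈ E, LinearMap.trace ℂ V (x * y) = 0}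
         add_mem' := fun {x x'} h h' => ⟨E.add_mem h.1 h'.1, fun y hy => by
          rw [add_mul, map_add, h.2 y hy, h'.2 y hy, add_zero]⟩
         zero_mem' := ⟨E.zero_mem, fun y _ => by rw [zero_mul, map_zero]⟩
         smul_mem' := fun c x hx => ⟨E.smul_mem c hx.1, fun y hy => by
          rw [smul_mul_assoc, map_smul, hx.2 y hy, smul_zero]⟩ }, fun x => Iff.rfl⟩
    intro x hx hxy
    refine H.claimN R (fun y hy => ((hE y).1 ((hR y).1 hy).1).1.1) (fun y hy q hq => ?_)
      (fun y hy z hz => ?_) x ((hR x).2 ⟨hx, hxy⟩)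
    · rw [hR] at hy ⊢
      refine ⟨hEst y hy.1 q hq, fun z hz => ?_⟩
      have h1 := hy.2 _ (hEst z hz q hq)
      rw [mul_sub, map_sub] at h1
      rw [sub_mul, map_sub]
      have e1 : LinearMap.trace ℂ V (q * y * z) = LinearMap.trace ℂ V (y * (z * q)) := by
        rw [mul_assoc, LinearMap.trace_mul_comm, mul_assoc]
      have e2 : y * q * z = y * (q * z) := mul_assoc _ _ _
      rw [e1, e2]
      linear_combination -h1
    · rw [hR] at hy hz
      rw [hmul y hy.1 z hz.1, hy.2 z hz.1, mul_zero, zero_smul]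
  -- the form
  let B : LinearMap.BilinForm ℂ E := LinearMap.mk₂ ℂ
    (fun x y => LinearMap.trace ℂ V ((x : Module.End ℂ V) * y))
    (fun x x' y => by rw [Submodule.coe_add, add_mul, map_add])
    (fun c x y => by rw [Submodule.coe_smul, smul_mul_assoc, map_smul])
    (fun x y y' => by rw [Submodule.coe_add, mul_add, map_add])
    (fun c x y => by rw [Submodule.coe_smul, mul_smul_comm, map_smul])
  have hB : ∀ x y : E, B x y = LinearMap.trace ℂ V ((x : Module.End ℂ V) * y) := fun x y => rfl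
  have hBs : LinearMap.IsSymm B := ⟨fun x y => LinearMap.trace_mul_comm ℂ _ _⟩
  obtain ⟨v, hv⟩ := LinearMap.BilinForm.exists_orthogonal_basis hBs
  have hv' : ∀ i j, i ≠ j → B (v i) (v j) = 0 := fun i j hij => hv hij
  have hvv : ∀ i, B (v i) (v i) ≠ 0 := by
    intro i h0
    apply v.ne_zero i
    apply Subtype.ext
    refine hnd _ (v i).2 fun y hy => ?_
    have h1 : B (v i) = 0 := v.ext fun j => by
      rw [LinearMap.zero_apply]
      by_cases hij : i = j
      · rw [← hij, h0]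
      · exact hv' i j hij
    have h2 := congrArg (fun F : E →ₗ[ℂ] ℂ => F ⟨y, hy⟩) h1
    exact h2
  have hr : ∀ i, ∃ r : ℂ, r ^ 2 = 8 / B (v i) (v i) := fun i =>
    IsAlgClosed.exists_pow_nat_eq _ two_pos
  choose r hr using hr
  have hr0 : ∀ i, r i ≠ 0 := fun i h0 => by
    have := hr i
    rw [h0, zero_pow two_ne_zero] at this
    exact div_ne_zero (by norm_num) (hvv i) this.symm
  have hxE : ∀ i, r i • (v i : Module.End ℂ V) ∈ E := fun i => E.smul_mem _ (v i).2
  refine ⟨finrank ℂ E, fun i => r i • (v i : Module.End ℂ V), ?_, fun i => ?_, fun i j => ?_,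
    fun q hq => ?_, fun i => ?_⟩
  · obtain ⟨x, hx⟩ := hμ.exists_hasEigenvector
    have h1 : (x : Module.End ℂ V) ∈ E := by
      rw [hE]
      refine ⟨x.2, ?_⟩
      have h2 := Module.End.mem_eigenspace_iff.1 hx.1
      rw [← hT, h2, Submodule.coe_smul]
    have h3 : Nontrivial E := ⟨⟨⟨x, h1⟩, 0, fun h4 => hx.2 (Subtype.ext (by
      have h5 := congrArg (fun z : E => (z : Module.End ℂ V)) h4
      exact h5))⟩⟩
    exact Module.finrank_pos
  · exact ((hE _).1 (hxE i)).1.1
  · have h1 := hmul _ (hxE i) _ (hxE j)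
    rw [smul_mul_smul_comm, map_smul, ← hB, smul_eq_mul] at h1
    rw [smul_mul_smul_comm, smul_mul_smul_comm]
    rw [smul_mul_smul_comm] at h1
    rw [h1]
    by_cases hij : i = j
    · rw [if_pos hij, ← hij]
      congr 1
      have h2 := hr i
      have h3 := hvv i
      field_simp at h2
      linear_combination (1 / 4) * h2
    · rw [if_neg hij, hv' i j hij, mul_zero, mul_zero, zero_smul]
  · have h1 : ∀ i, ∃ a : Fin (finrank ℂ E) → ℂ, q * (r i • (v i : Module.End ℂ V)) -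
        (r i • (v i : Module.End ℂ V)) * q = ∑ j, a j • (r j • (v j : Module.End ℂ V)) := by
      intro i
      have h2 := v.sum_repr ⟨_, hEst _ (hxE i) q hq⟩
      have h3 := congrArg (fun z : E => (z : Module.End ℂ V)) h2
      simp only [Submodule.coe_sum, Submodule.coe_smul] at h3
      refine ⟨fun j => v.repr ⟨_, hEst _ (hxE i) q hq⟩ j / r j, ?_⟩
      refine h3.symm.trans ?_
      refine Finset.sum_congr rfl fun j _ => ?_
      rw [smul_smul, div_mul_cancel₀ _ (hr0 j)]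
    choose a ha using h1
    exact ⟨a, ha⟩
  · rw [((hE _).1 (hxE i)).2, smul_smul]
    refine smul_ne_zero (mul_ne_zero hμ0 (hr0 i)) fun h0 => v.ne_zero i (Subtype.ext h0)

end Sys

end Pool.Agent.P8H30.FF
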