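import Pool.Agent.P8H30.FF.Sym
import Pool.Agent.P8H30.FF.Darb

set_option autoImplicit false
set_option linter.unusedSectionVars false
set_option linter.unusedVariables false
set_option linter.unusedSimpArgs false

/-!
# Alternating forms of degree four on a symplectic space of dimension eight

A primitive form of degree four is annihilated by the product with the symplectic form.
-/

open Module Equiv

namespace Pool.Agent.P8H30.FF

variable {V : Type} [AddCommGroup V] [Module ℂ V]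

/-- forms of degree four -/
abbrev F4 (V : Type) [AddCommGroup V] [Module ℂ V] : Type :=
  V →ₗ[ℂ] V →ₗ[ℂ] V →ₗ[ℂ] V →ₗ[ℂ] ℂ

/-- alternating forms -/
structure Alt4 (φ : F4 V) : Prop where
  a12 : ∀ u v w, φ u u v w = 0
  a23 : ∀ u v w, φ u v v w = 0
  a34 : ∀ u v w, φ u v w w = 0

namespace Alt4

variable {φ : F4 V} (h : Alt4 φ)
include h

theorem s12 (u v w x : V) : φ u v w x = -φ v u w x := by
  have h1 := h.a12 (u + v) w x
  simp only [map_add, LinearMap.add_apply, h.a12, zero_add, add_zero] at h1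
  linear_combination h1

theorem s23 (u v w x : V) : φ u v w x = -φ u w v x := by
  have h1 := h.a23 u (v + w) x
  simp only [map_add, LinearMap.add_apply, h.a23, zero_add, add_zero] at h1
  linear_combination h1

theorem s34 (u v w x : V) : φ u v w x = -φ u v x w := by
  have h1 := h.a34 u v (w + x)
  simp only [map_add, LinearMap.add_apply, h.a34, zero_add, add_zero] at h1
  linear_combination h1

theorem a13 (u v w : V) : φ u v u w = 0 := by rw [h.s12, h.a23, neg_zero]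

theorem a24 (u v w : V) : φ u v w v = 0 := by rw [h.s23, h.a34, neg_zero]

theorem a14 (u v w : V) : φ u v w u = 0 := by rw [h.s12, h.a24, neg_zero]

/-- moving a pair -/
theorem pair (u v w x : V) : φ u v w x = φ w x u v := by
  rw [h.s23, h.s12, h.s34, h.s23]
  ring

/-- moving a pair -/
theorem mid (u v w x : V) : φ u v w x = φ v w u x := by
  rw [h.s12, h.s23]
  ring

end Alt4

/-- the product of a form of degree two and a form of degree four -/
def L6 (ω : V →ₗ[ℂ] V →ₗ[ℂ] ℂ) (φ : F4 V) (a b c d e f : V) : ℂ :=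
  ω a b * φ c d e f - ω a c * φ b d e f + ω a d * φ b c e f
     - ω a e * φ b c d f + ω a f * φ b c d e + ω b c * φ a d e f
     - ω b d * φ a c e f + ω b e * φ a c d f - ω b f * φ a c d e
     + ω c d * φ a b e f - ω c e * φ a b d f + ω c f * φ a b d e
     + ω d e * φ a b c f - ω d f * φ a b c e + ω e f * φ a b c d

section

variable {ω : V →ₗ[ℂ] V →ₗ[ℂ] ℂ} {φ : F4 V}

theorem L6_s0 (h : Alt4 φ) (hω : ∀ u v, ω u v = -ω v u) (a b c d e f : V) :
    L6 ω φ b a c d e f = -L6 ω φ a b c d e f := by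
  unfold L6
  linear_combination (φ c d e f) * hω b a + (ω c d) * h.s12 b a e f
     - (ω c e) * h.s12 b a d f + (ω c f) * h.s12 b a d e
     + (ω d e) * h.s12 b a c f - (ω d f) * h.s12 b a c e
     + (ω e f) * h.s12 b a c d

theorem L6_s1 (h : Alt4 φ) (hω : ∀ u v, ω u v = -ω v u) (a b c d e f : V) :
    L6 ω φ a c b d e f = -L6 ω φ a b c d e f := by
  unfold L6
  linear_combination (ω a d) * h.s12 c b e f - (ω a e) * h.s12 c b d f
     + (ω a f) * h.s12 c b d e + (φ a d e f) * hω c b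
     + (ω d e) * h.s23 a c b f - (ω d f) * h.s23 a c b e
     + (ω e f) * h.s23 a c b d

theorem L6_s2 (h : Alt4 φ) (hω : ∀ u v, ω u v = -ω v u) (a b c d e f : V) :
    L6 ω φ a b d c e f = -L6 ω φ a b c d e f := by
  unfold L6
  linear_combination (ω a b) * h.s12 d c e f - (ω a e) * h.s23 b d c f
     + (ω a f) * h.s23 b d c e + (ω b e) * h.s23 a d c f
     - (ω b f) * h.s23 a d c e + (φ a b e f) * hω d c
     + (ω e f) * h.s34 a b d c

theorem L6_s3 (h : Alt4 φ) (hω : ∀ u v, ω u v = -ω v u) (a b c d e f : V) :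
    L6 ω φ a b c e d f = -L6 ω φ a b c d e f := by
  unfold L6
  linear_combination (ω a b) * h.s23 c e d f - (ω a c) * h.s23 b e d f
     + (ω a f) * h.s34 b c e d + (ω b c) * h.s23 a e d f
     - (ω b f) * h.s34 a c e d + (ω c f) * h.s34 a b e d
     + (φ a b c f) * hω e d

theorem L6_s4 (h : Alt4 φ) (hω : ∀ u v, ω u v = -ω v u) (a b c d e f : V) :
    L6 ω φ a b c d f e = -L6 ω φ a b c d e f := by
  unfold L6
  linear_combination (ω a b) * h.s34 c d f e - (ω a c) * h.s34 b d f e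
     + (ω a d) * h.s34 b c f e + (ω b c) * h.s34 a d f e
     - (ω b d) * h.s34 a c f e + (ω c d) * h.s34 a b f e
     + (φ a b c d) * hω f e

theorem L6_add0 (a b c d e f x : V) :
    L6 ω φ (a + x) b c d e f = L6 ω φ a b c d e f + L6 ω φ x b c d e f := by
  unfold L6
  simp only [map_add, LinearMap.add_apply]
  ring

theorem L6_smul0 (r : ℂ) (a b c d e f : V) :
    L6 ω φ (r • a) b c d e f = r * L6 ω φ a b c d e f := by
  unfold L6
  simp only [map_smul, LinearMap.smul_apply, smul_eq_mul]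
  ring

theorem L6_add1 (a b c d e f x : V) :
    L6 ω φ a (b + x) c d e f = L6 ω φ a b c d e f + L6 ω φ a x c d e f := by
  unfold L6
  simp only [map_add, LinearMap.add_apply]
  ring

theorem L6_smul1 (r : ℂ) (a b c d e f : V) :
    L6 ω φ a (r • b) c d e f = r * L6 ω φ a b c d e f := by
  unfold L6
  simp only [map_smul, LinearMap.smul_apply, smul_eq_mul]
  ring

theorem L6_add2 (a b c d e f x : V) :
    L6 ω φ a b (c + x) d e f = L6 ω φ a b c d e f + L6 ω φ a b x d e f := by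
  unfold L6
  simp only [map_add, LinearMap.add_apply]
  ring

theorem L6_smul2 (r : ℂ) (a b c d e f : V) :
    L6 ω φ a b (r • c) d e f = r * L6 ω φ a b c d e f := by
  unfold L6
  simp only [map_smul, LinearMap.smul_apply, smul_eq_mul]
  ring

theorem L6_add3 (a b c d e f x : V) :
    L6 ω φ a b c (d + x) e f = L6 ω φ a b c d e f + L6 ω φ a b c x e f := by
  unfold L6
  simp only [map_add, LinearMap.add_apply]
  ring

theorem L6_smul3 (r : ℂ) (a b c d e f : V) :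
    L6 ω φ a b c (r • d) e f = r * L6 ω φ a b c d e f := by
  unfold L6
  simp only [map_smul, LinearMap.smul_apply, smul_eq_mul]
  ring

theorem L6_add4 (a b c d e f x : V) :
    L6 ω φ a b c d (e + x) f = L6 ω φ a b c d e f + L6 ω φ a b c d x f := by
  unfold L6
  simp only [map_add, LinearMap.add_apply]
  ring

theorem L6_smul4 (r : ℂ) (a b c d e f : V) :
    L6 ω φ a b c d (r • e) f = r * L6 ω φ a b c d e f := by
  unfold L6
  simp only [map_smul, LinearMap.smul_apply, smul_eq_mul]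
  ring

theorem L6_add5 (a b c d e f x : V) :
    L6 ω φ a b c d e (f + x) = L6 ω φ a b c d e f + L6 ω φ a b c d e x := by
  unfold L6
  simp only [map_add, LinearMap.add_apply]
  ring

theorem L6_smul5 (r : ℂ) (a b c d e f : V) :
    L6 ω φ a b c d e (r • f) = r * L6 ω φ a b c d e f := by
  unfold L6
  simp only [map_smul, LinearMap.smul_apply, smul_eq_mul]
  ring

/-- the product, as a function of a family -/
def Lv (ω : V →ₗ[ℂ] V →ₗ[ℂ] ℂ) (φ : F4 V) (s : Fin 6 → V) : ℂ :=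
  L6 ω φ (s 0) (s 1) (s 2) (s 3) (s 4) (s 5)

theorem Lv_swap (h : Alt4 φ) (hω : ∀ u v, ω u v = -ω v u) (k : Fin 5) (s : Fin 6 → V) :
    Lv ω φ (s ∘ swap k.castSucc k.succ) = -Lv ω φ s := by
  fin_cases k
  · exact L6_s0 h hω _ _ _ _ _ _
  · exact L6_s1 h hω _ _ _ _ _ _
  · exact L6_s2 h hω _ _ _ _ _ _
  · exact L6_s3 h hω _ _ _ _ _ _
  · exact L6_s4 h hω _ _ _ _ _ _

theorem Lv_perm (h : Alt4 φ) (hω : ∀ u v, ω u v = -ω v u) (σ : Perm (Fin 6)) :
    ∀ s : Fin 6 → V, Lv ω φ (s ∘ σ) = Lv ω φ s ∨ Lv ω φ (s ∘ σ) = -Lv ω φ s := by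
  have h1 : σ ∈ Submonoid.closure (Set.range fun i : Fin 5 => swap i.castSucc i.succ) := by
    rw [Equiv.Perm.mclosure_swap_castSucc_succ]
    trivial
  induction h1 using Submonoid.closure_induction with
  | mem x hx =>
    obtain ⟨k, rfl⟩ := hx
    exact fun s => Or.inr (Lv_swap h hω k s)
  | one => exact fun s => Or.inl rfl
  | mul x y _ _ hx hy =>
    intro s
    have e : s ∘ (x * y : Perm (Fin 6)) = (s ∘ x) ∘ y := rfl
    rw [e]
    rcases hy (s ∘ x) with h2 | h2 <;> rcases hx s with h3 | h3 <;> rw [h2, h3]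
    · exact Or.inl rfl
    · exact Or.inr rfl
    · exact Or.inr rfl
    · exact Or.inl (neg_neg _)

/-- the standard symplectic matrix -/
def J8 (i j : Fin 8) : ℂ :=
  if i.val / 2 = j.val / 2 then (if i.val < j.val then 1 else if j.val < i.val then -1 else 0) else 0

section cases

variable {e : Fin 8 → V} (h : Alt4 φ) (he : ∀ i j, ω (e i) (e j) = J8 i j)
  (hR : ∀ u v, φ (e 0) (e 1) u v + φ (e 2) (e 3) u v + φ (e 4) (e 5) u v + φ (e 6) (e 7) u v = 0)
include h he hR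

theorem case0 : L6 ω φ (e 0) (e 1) (e 2) (e 3) (e 4) (e 5) = 0 := by
  unfold L6
  simp only [he]
  have hz : ∀ i j : Fin 8, i.val / 2 ≠ j.val / 2 → J8 i j = 0 := fun i j hij => by
    unfold J8; rw [if_neg hij]
  have h01 : J8 0 1 = 1 := by unfold J8; simp
  have h23 : J8 2 3 = 1 := by unfold J8; simp
  have h45 : J8 4 5 = 1 := by unfold J8; simp
  rw [hz 0 2 (by decide), hz 0 3 (by decide), hz 0 4 (by decide), hz 0 5 (by decide), hz 1 2 (by decide), hz 1 3 (by decide), hz 1 4 (by decide), hz 1 5 (by decide), hz 2 4 (by decide), hz 2 5 (by decide), hz 3 4 (by decide), hz 3 5 (by decide), h01, h23, h45]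
  linear_combination (1/2) * hR (e 0) (e 1) +
    (-(1/2)) * h.a13 (e 0) (e 1) (e 1) +
    (-(1/2)) * h.pair (e 2) (e 3) (e 0) (e 1) +
    (-(1/2)) * h.pair (e 4) (e 5) (e 0) (e 1) +
    (-(1/2)) * h.pair (e 6) (e 7) (e 0) (e 1) +
    (1/2) * hR (e 2) (e 3) +
    (-(1/2)) * h.a13 (e 2) (e 3) (e 3) +
    (-(1/2)) * h.pair (e 4) (e 5) (e 2) (e 3) +
    (-(1/2)) * h.pair (e 6) (e 7) (e 2) (e 3) +
    (1/2) * hR (e 4) (e 5) +
    (-(1/2)) * h.a13 (e 4) (e 5) (e 5) +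
    (-(1/2)) * h.pair (e 6) (e 7) (e 4) (e 5) +
    (-1/2) * hR (e 6) (e 7) +
    (-(-1/2)) * h.a13 (e 6) (e 7) (e 7)

theorem case1 : L6 ω φ (e 0) (e 1) (e 2) (e 3) (e 4) (e 6) = 0 := by
  unfold L6
  simp only [he]
  have hz : ∀ i j : Fin 8, i.val / 2 ≠ j.val / 2 → J8 i j = 0 := fun i j hij => by
    unfold J8; rw [if_neg hij]
  have h01 : J8 0 1 = 1 := by unfold J8; simp
  have h23 : J8 2 3 = 1 := by unfold J8; simp
  rw [hz 0 2 (by decide), hz 0 3 (by decide), hz 0 4 (by decide), hz 0 6 (by decide), hz 1 2 (by decide), hz 1 3 (by decide), hz 1 4 (by decide), hz 1 6 (by decide), hz 2 4 (by decide), hz 2 6 (by decide), hz 3 4 (by decide), hz 3 6 (by decide), hz 4 6 (by decide), h01, h23]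
  linear_combination hR (e 4) (e 6) +
    (-1) * h.a13 (e 4) (e 5) (e 6) +
    (-1) * h.a14 (e 6) (e 7) (e 4)

theorem case2 : L6 ω φ (e 0) (e 1) (e 2) (e 3) (e 4) (e 7) = 0 := by
  unfold L6
  simp only [he]
  have hz : ∀ i j : Fin 8, i.val / 2 ≠ j.val / 2 → J8 i j = 0 := fun i j hij => by
    unfold J8; rw [if_neg hij]
  have h01 : J8 0 1 = 1 := by unfold J8; simp
  have h23 : J8 2 3 = 1 := by unfold J8; simp
  rw [hz 0 2 (by decide), hz 0 3 (by decide), hz 0 4 (by decide), hz 0 7 (by decide), hz 1 2 (by decide), hz 1 3 (by decide), hz 1 4 (by decide), hz 1 7 (by decide), hz 2 4 (by decide), hz 2 7 (by decide), hz 3 4 (by decide), hz 3 7 (by decide), hz 4 7 (by decide), h01, h23]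
  linear_combination hR (e 4) (e 7) +
    (-1) * h.a13 (e 4) (e 5) (e 7) +
    (-1) * h.a24 (e 6) (e 7) (e 4)

theorem case3 : L6 ω φ (e 0) (e 1) (e 2) (e 3) (e 5) (e 6) = 0 := by
  unfold L6
  simp only [he]
  have hz : ∀ i j : Fin 8, i.val / 2 ≠ j.val / 2 → J8 i j = 0 := fun i j hij => by
    unfold J8; rw [if_neg hij]
  have h01 : J8 0 1 = 1 := by unfold J8; simp
  have h23 : J8 2 3 = 1 := by unfold J8; simp
  rw [hz 0 2 (by decide), hz 0 3 (by decide), hz 0 5 (by decide), hz 0 6 (by decide), hz 1 2 (by decide), hz 1 3 (by decide), hz 1 5 (by decide), hz 1 6 (by decide), hz 2 5 (by decide), hz 2 6 (by decide), hz 3 5 (by decide), hz 3 6 (by decide), hz 5 6 (by decide), h01, h23]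
  linear_combination hR (e 5) (e 6) +
    (-1) * h.a23 (e 4) (e 5) (e 6) +
    (-1) * h.a14 (e 6) (e 7) (e 5)

theorem case4 : L6 ω φ (e 0) (e 1) (e 2) (e 3) (e 5) (e 7) = 0 := by
  unfold L6
  simp only [he]
  have hz : ∀ i j : Fin 8, i.val / 2 ≠ j.val / 2 → J8 i j = 0 := fun i j hij => by
    unfold J8; rw [if_neg hij]
  have h01 : J8 0 1 = 1 := by unfold J8; simp
  have h23 : J8 2 3 = 1 := by unfold J8; simp
  rw [hz 0 2 (by decide), hz 0 3 (by decide), hz 0 5 (by decide), hz 0 7 (by decide), hz 1 2 (by decide), hz 1 3 (by decide), hz 1 5 (by decide), hz 1 7 (by decide), hz 2 5 (by decide), hz 2 7 (by decide), hz 3 5 (by decide), hz 3 7 (by decide), hz 5 7 (by decide), h01, h23]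
  linear_combination hR (e 5) (e 7) +
    (-1) * h.a23 (e 4) (e 5) (e 7) +
    (-1) * h.a24 (e 6) (e 7) (e 5)

theorem case5 : L6 ω φ (e 0) (e 1) (e 2) (e 3) (e 6) (e 7) = 0 := by
  unfold L6
  simp only [he]
  have hz : ∀ i j : Fin 8, i.val / 2 ≠ j.val / 2 → J8 i j = 0 := fun i j hij => by
    unfold J8; rw [if_neg hij]
  have h01 : J8 0 1 = 1 := by unfold J8; simp
  have h23 : J8 2 3 = 1 := by unfold J8; simp
  have h67 : J8 6 7 = 1 := by unfold J8; simp
  rw [hz 0 2 (by decide), hz 0 3 (by decide), hz 0 6 (by decide), hz 0 7 (by decide), hz 1 2 (by decide), hz 1 3 (by decide), hz 1 6 (by decide), hz 1 7 (by decide), hz 2 6 (by decide), hz 2 7 (by decide), hz 3 6 (by decide), hz 3 7 (by decide), h01, h23, h67]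
  linear_combination (1/2) * hR (e 0) (e 1) +
    (-(1/2)) * h.a13 (e 0) (e 1) (e 1) +
    (-(1/2)) * h.pair (e 2) (e 3) (e 0) (e 1) +
    (-(1/2)) * h.pair (e 4) (e 5) (e 0) (e 1) +
    (-(1/2)) * h.pair (e 6) (e 7) (e 0) (e 1) +
    (1/2) * hR (e 2) (e 3) +
    (-(1/2)) * h.a13 (e 2) (e 3) (e 3) +
    (-(1/2)) * h.pair (e 4) (e 5) (e 2) (e 3) +
    (-(1/2)) * h.pair (e 6) (e 7) (e 2) (e 3) +
    (1/2) * hR (e 6) (e 7) +
    (-(1/2)) * h.a13 (e 6) (e 7) (e 7) +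
    (-1/2) * hR (e 4) (e 5) +
    (-(-1/2)) * h.a13 (e 4) (e 5) (e 5) +
    (-(-1/2)) * h.pair (e 6) (e 7) (e 4) (e 5)

theorem case6 : L6 ω φ (e 0) (e 1) (e 2) (e 4) (e 5) (e 6) = 0 := by
  unfold L6
  simp only [he]
  have hz : ∀ i j : Fin 8, i.val / 2 ≠ j.val / 2 → J8 i j = 0 := fun i j hij => by
    unfold J8; rw [if_neg hij]
  have h01 : J8 0 1 = 1 := by unfold J8; simp
  have h45 : J8 4 5 = 1 := by unfold J8; simp
  rw [hz 0 2 (by decide), hz 0 4 (by decide), hz 0 5 (by decide), hz 0 6 (by decide), hz 1 2 (by decide), hz 1 4 (by decide), hz 1 5 (by decide), hz 1 6 (by decide), hz 2 4 (by decide), hz 2 5 (by decide), hz 2 6 (by decide), hz 4 6 (by decide), hz 5 6 (by decide), h01, h45]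
  linear_combination hR (e 2) (e 6) +
    (-1) * h.a13 (e 2) (e 3) (e 6) +
    (-1) * h.a14 (e 6) (e 7) (e 2) +
    h.mid (e 2) (e 4) (e 5) (e 6)

theorem case7 : L6 ω φ (e 0) (e 1) (e 2) (e 4) (e 5) (e 7) = 0 := by
  unfold L6
  simp only [he]
  have hz : ∀ i j : Fin 8, i.val / 2 ≠ j.val / 2 → J8 i j = 0 := fun i j hij => by
    unfold J8; rw [if_neg hij]
  have h01 : J8 0 1 = 1 := by unfold J8; simp
  have h45 : J8 4 5 = 1 := by unfold J8; simp
  rw [hz 0 2 (by decide), hz 0 4 (by decide), hz 0 5 (by decide), hz 0 7 (by decide), hz 1 2 (by decide), hz 1 4 (by decide), hz 1 5 (by decide), hz 1 7 (by decide), hz 2 4 (by decide), hz 2 5 (by decide), hz 2 7 (by decide), hz 4 7 (by decide), hz 5 7 (by decide), h01, h45]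
  linear_combination hR (e 2) (e 7) +
    (-1) * h.a13 (e 2) (e 3) (e 7) +
    (-1) * h.a24 (e 6) (e 7) (e 2) +
    h.mid (e 2) (e 4) (e 5) (e 7)

theorem case8 : L6 ω φ (e 0) (e 1) (e 2) (e 4) (e 6) (e 7) = 0 := by
  unfold L6
  simp only [he]
  have hz : ∀ i j : Fin 8, i.val / 2 ≠ j.val / 2 → J8 i j = 0 := fun i j hij => by
    unfold J8; rw [if_neg hij]
  have h01 : J8 0 1 = 1 := by unfold J8; simp
  have h67 : J8 6 7 = 1 := by unfold J8; simp
  rw [hz 0 2 (by decide), hz 0 4 (by decide), hz 0 6 (by decide), hz 0 7 (by decide), hz 1 2 (by decide), hz 1 4 (by decide), hz 1 6 (by decide), hz 1 7 (by decide), hz 2 4 (by decide), hz 2 6 (by decide), hz 2 7 (by decide), hz 4 6 (by decide), hz 4 7 (by decide), h01, h67]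
  linear_combination hR (e 2) (e 4) +
    (-1) * h.a13 (e 2) (e 3) (e 4) +
    (-1) * h.a14 (e 4) (e 5) (e 2) +
    h.pair (e 2) (e 4) (e 6) (e 7)

theorem case9 : L6 ω φ (e 0) (e 1) (e 2) (e 5) (e 6) (e 7) = 0 := by
  unfold L6
  simp only [he]
  have hz : ∀ i j : Fin 8, i.val / 2 ≠ j.val / 2 → J8 i j = 0 := fun i j hij => by
    unfold J8; rw [if_neg hij]
  have h01 : J8 0 1 = 1 := by unfold J8; simp
  have h67 : J8 6 7 = 1 := by unfold J8; simp
  rw [hz 0 2 (by decide), hz 0 5 (by decide), hz 0 6 (by decide), hz 0 7 (by decide), hz 1 2 (by decide), hz 1 5 (by decide), hz 1 6 (by decide), hz 1 7 (by decide), hz 2 5 (by decide), hz 2 6 (by decide), hz 2 7 (by decide), hz 5 6 (by decide), hz 5 7 (by decide), h01, h67]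
  linear_combination hR (e 2) (e 5) +
    (-1) * h.a13 (e 2) (e 3) (e 5) +
    (-1) * h.a24 (e 4) (e 5) (e 2) +
    h.pair (e 2) (e 5) (e 6) (e 7)

theorem case10 : L6 ω φ (e 0) (e 1) (e 3) (e 4) (e 5) (e 6) = 0 := by
  unfold L6
  simp only [he]
  have hz : ∀ i j : Fin 8, i.val / 2 ≠ j.val / 2 → J8 i j = 0 := fun i j hij => by
    unfold J8; rw [if_neg hij]
  have h01 : J8 0 1 = 1 := by unfold J8; simp
  have h45 : J8 4 5 = 1 := by unfold J8; simp
  rw [hz 0 3 (by decide), hz 0 4 (by decide), hz 0 5 (by decide), hz 0 6 (by decide), hz 1 3 (by decide), hz 1 4 (by decide), hz 1 5 (by decide), hz 1 6 (by decide), hz 3 4 (by decide), hz 3 5 (by decide), hz 3 6 (by decide), hz 4 6 (by decide), hz 5 6 (by decide), h01, h45]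
  linear_combination hR (e 3) (e 6) +
    (-1) * h.a23 (e 2) (e 3) (e 6) +
    (-1) * h.a14 (e 6) (e 7) (e 3) +
    h.mid (e 3) (e 4) (e 5) (e 6)

theorem case11 : L6 ω φ (e 0) (e 1) (e 3) (e 4) (e 5) (e 7) = 0 := by
  unfold L6
  simp only [he]
  have hz : ∀ i j : Fin 8, i.val / 2 ≠ j.val / 2 → J8 i j = 0 := fun i j hij => by
    unfold J8; rw [if_neg hij]
  have h01 : J8 0 1 = 1 := by unfold J8; simp
  have h45 : J8 4 5 = 1 := by unfold J8; simp
  rw [hz 0 3 (by decide), hz 0 4 (by decide), hz 0 5 (by decide), hz 0 7 (by decide), hz 1 3 (by decide), hz 1 4 (by decide), hz 1 5 (by decide), hz 1 7 (by decide), hz 3 4 (by decide), hz 3 5 (by decide), hz 3 7 (by decide), hz 4 7 (by decide), hz 5 7 (by decide), h01, h45]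
  linear_combination hR (e 3) (e 7) +
    (-1) * h.a23 (e 2) (e 3) (e 7) +
    (-1) * h.a24 (e 6) (e 7) (e 3) +
    h.mid (e 3) (e 4) (e 5) (e 7)

theorem case12 : L6 ω φ (e 0) (e 1) (e 3) (e 4) (e 6) (e 7) = 0 := by
  unfold L6
  simp only [he]
  have hz : ∀ i j : Fin 8, i.val / 2 ≠ j.val / 2 → J8 i j = 0 := fun i j hij => by
    unfold J8; rw [if_neg hij]
  have h01 : J8 0 1 = 1 := by unfold J8; simp
  have h67 : J8 6 7 = 1 := by unfold J8; simp
  rw [hz 0 3 (by decide), hz 0 4 (by decide), hz 0 6 (by decide), hz 0 7 (by decide), hz 1 3 (by decide), hz 1 4 (by decide), hz 1 6 (by decide), hz 1 7 (by decide), hz 3 4 (by decide), hz 3 6 (by decide), hz 3 7 (by decide), hz 4 6 (by decide), hz 4 7 (by decide), h01, h67]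
  linear_combination hR (e 3) (e 4) +
    (-1) * h.a23 (e 2) (e 3) (e 4) +
    (-1) * h.a14 (e 4) (e 5) (e 3) +
    h.pair (e 3) (e 4) (e 6) (e 7)

theorem case13 : L6 ω φ (e 0) (e 1) (e 3) (e 5) (e 6) (e 7) = 0 := by
  unfold L6
  simp only [he]
  have hz : ∀ i j : Fin 8, i.val / 2 ≠ j.val / 2 → J8 i j = 0 := fun i j hij => by
    unfold J8; rw [if_neg hij]
  have h01 : J8 0 1 = 1 := by unfold J8; simp
  have h67 : J8 6 7 = 1 := by unfold J8; simp
  rw [hz 0 3 (by decide), hz 0 5 (by decide), hz 0 6 (by decide), hz 0 7 (by decide), hz 1 3 (by decide), hz 1 5 (by decide), hz 1 6 (by decide), hz 1 7 (by decide), hz 3 5 (by decide), hz 3 6 (by decide), hz 3 7 (by decide), hz 5 6 (by decide), hz 5 7 (by decide), h01, h67]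
  linear_combination hR (e 3) (e 5) +
    (-1) * h.a23 (e 2) (e 3) (e 5) +
    (-1) * h.a24 (e 4) (e 5) (e 3) +
    h.pair (e 3) (e 5) (e 6) (e 7)

theorem case14 : L6 ω φ (e 0) (e 1) (e 4) (e 5) (e 6) (e 7) = 0 := by
  unfold L6
  simp only [he]
  have hz : ∀ i j : Fin 8, i.val / 2 ≠ j.val / 2 → J8 i j = 0 := fun i j hij => by
    unfold J8; rw [if_neg hij]
  have h01 : J8 0 1 = 1 := by unfold J8; simp
  have h45 : J8 4 5 = 1 := by unfold J8; simp
  have h67 : J8 6 7 = 1 := by unfold J8; simp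
  rw [hz 0 4 (by decide), hz 0 5 (by decide), hz 0 6 (by decide), hz 0 7 (by decide), hz 1 4 (by decide), hz 1 5 (by decide), hz 1 6 (by decide), hz 1 7 (by decide), hz 4 6 (by decide), hz 4 7 (by decide), hz 5 6 (by decide), hz 5 7 (by decide), h01, h45, h67]
  linear_combination (1/2) * hR (e 0) (e 1) +
    (-(1/2)) * h.a13 (e 0) (e 1) (e 1) +
    (-(1/2)) * h.pair (e 2) (e 3) (e 0) (e 1) +
    (-(1/2)) * h.pair (e 4) (e 5) (e 0) (e 1) +
    (-(1/2)) * h.pair (e 6) (e 7) (e 0) (e 1) +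
    (1/2) * hR (e 4) (e 5) +
    (-(1/2)) * h.a13 (e 4) (e 5) (e 5) +
    (-(1/2)) * h.pair (e 6) (e 7) (e 4) (e 5) +
    (1/2) * hR (e 6) (e 7) +
    (-(1/2)) * h.a13 (e 6) (e 7) (e 7) +
    (-1/2) * hR (e 2) (e 3) +
    (-(-1/2)) * h.a13 (e 2) (e 3) (e 3) +
    (-(-1/2)) * h.pair (e 4) (e 5) (e 2) (e 3) +
    (-(-1/2)) * h.pair (e 6) (e 7) (e 2) (e 3)

theorem case15 : L6 ω φ (e 0) (e 2) (e 3) (e 4) (e 5) (e 6) = 0 := by
  unfold L6
  simp only [he]
  have hz : ∀ i j : Fin 8, i.val / 2 ≠ j.val / 2 → J8 i j = 0 := fun i j hij => by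
    unfold J8; rw [if_neg hij]
  have h23 : J8 2 3 = 1 := by unfold J8; simp
  have h45 : J8 4 5 = 1 := by unfold J8; simp
  rw [hz 0 2 (by decide), hz 0 3 (by decide), hz 0 4 (by decide), hz 0 5 (by decide), hz 0 6 (by decide), hz 2 4 (by decide), hz 2 5 (by decide), hz 2 6 (by decide), hz 3 4 (by decide), hz 3 5 (by decide), hz 3 6 (by decide), hz 4 6 (by decide), hz 5 6 (by decide), h23, h45]
  linear_combination hR (e 0) (e 6) +
    (-1) * h.a13 (e 0) (e 1) (e 6) +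
    (-1) * h.a14 (e 6) (e 7) (e 0) +
    h.mid (e 0) (e 2) (e 3) (e 6) +
    h.mid (e 0) (e 4) (e 5) (e 6)

theorem case16 : L6 ω φ (e 0) (e 2) (e 3) (e 4) (e 5) (e 7) = 0 := by
  unfold L6
  simp only [he]
  have hz : ∀ i j : Fin 8, i.val / 2 ≠ j.val / 2 → J8 i j = 0 := fun i j hij => by
    unfold J8; rw [if_neg hij]
  have h23 : J8 2 3 = 1 := by unfold J8; simp
  have h45 : J8 4 5 = 1 := by unfold J8; simp
  rw [hz 0 2 (by decide), hz 0 3 (by decide), hz 0 4 (by decide), hz 0 5 (by decide), hz 0 7 (by decide), hz 2 4 (by decide), hz 2 5 (by decide), hz 2 7 (by decide), hz 3 4 (by decide), hz 3 5 (by decide), hz 3 7 (by decide), hz 4 7 (by decide), hz 5 7 (by decide), h23, h45]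
  linear_combination hR (e 0) (e 7) +
    (-1) * h.a13 (e 0) (e 1) (e 7) +
    (-1) * h.a24 (e 6) (e 7) (e 0) +
    h.mid (e 0) (e 2) (e 3) (e 7) +
    h.mid (e 0) (e 4) (e 5) (e 7)

theorem case17 : L6 ω φ (e 0) (e 2) (e 3) (e 4) (e 6) (e 7) = 0 := by
  unfold L6
  simp only [he]
  have hz : ∀ i j : Fin 8, i.val / 2 ≠ j.val / 2 → J8 i j = 0 := fun i j hij => by
    unfold J8; rw [if_neg hij]
  have h23 : J8 2 3 = 1 := by unfold J8; simp
  have h67 : J8 6 7 = 1 := by unfold J8; simp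
  rw [hz 0 2 (by decide), hz 0 3 (by decide), hz 0 4 (by decide), hz 0 6 (by decide), hz 0 7 (by decide), hz 2 4 (by decide), hz 2 6 (by decide), hz 2 7 (by decide), hz 3 4 (by decide), hz 3 6 (by decide), hz 3 7 (by decide), hz 4 6 (by decide), hz 4 7 (by decide), h23, h67]
  linear_combination hR (e 0) (e 4) +
    (-1) * h.a13 (e 0) (e 1) (e 4) +
    (-1) * h.a14 (e 4) (e 5) (e 0) +
    h.mid (e 0) (e 2) (e 3) (e 4) +
    h.pair (e 0) (e 4) (e 6) (e 7)

theorem case18 : L6 ω φ (e 0) (e 2) (e 3) (e 5) (e 6) (e 7) = 0 := by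
  unfold L6
  simp only [he]
  have hz : ∀ i j : Fin 8, i.val / 2 ≠ j.val / 2 → J8 i j = 0 := fun i j hij => by
    unfold J8; rw [if_neg hij]
  have h23 : J8 2 3 = 1 := by unfold J8; simp
  have h67 : J8 6 7 = 1 := by unfold J8; simp
  rw [hz 0 2 (by decide), hz 0 3 (by decide), hz 0 5 (by decide), hz 0 6 (by decide), hz 0 7 (by decide), hz 2 5 (by decide), hz 2 6 (by decide), hz 2 7 (by decide), hz 3 5 (by decide), hz 3 6 (by decide), hz 3 7 (by decide), hz 5 6 (by decide), hz 5 7 (by decide), h23, h67]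
  linear_combination hR (e 0) (e 5) +
    (-1) * h.a13 (e 0) (e 1) (e 5) +
    (-1) * h.a24 (e 4) (e 5) (e 0) +
    h.mid (e 0) (e 2) (e 3) (e 5) +
    h.pair (e 0) (e 5) (e 6) (e 7)

theorem case19 : L6 ω φ (e 0) (e 2) (e 4) (e 5) (e 6) (e 7) = 0 := by
  unfold L6
  simp only [he]
  have hz : ∀ i j : Fin 8, i.val / 2 ≠ j.val / 2 → J8 i j = 0 := fun i j hij => by
    unfold J8; rw [if_neg hij]
  have h45 : J8 4 5 = 1 := by unfold J8; simp
  have h67 : J8 6 7 = 1 := by unfold J8; simp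
  rw [hz 0 2 (by decide), hz 0 4 (by decide), hz 0 5 (by decide), hz 0 6 (by decide), hz 0 7 (by decide), hz 2 4 (by decide), hz 2 5 (by decide), hz 2 6 (by decide), hz 2 7 (by decide), hz 4 6 (by decide), hz 4 7 (by decide), hz 5 6 (by decide), hz 5 7 (by decide), h45, h67]
  linear_combination hR (e 0) (e 2) +
    (-1) * h.a13 (e 0) (e 1) (e 2) +
    (-1) * h.a14 (e 2) (e 3) (e 0) +
    h.pair (e 0) (e 2) (e 4) (e 5) +
    h.pair (e 0) (e 2) (e 6) (e 7)

theorem case20 : L6 ω φ (e 0) (e 3) (e 4) (e 5) (e 6) (e 7) = 0 := by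
  unfold L6
  simp only [he]
  have hz : ∀ i j : Fin 8, i.val / 2 ≠ j.val / 2 → J8 i j = 0 := fun i j hij => by
    unfold J8; rw [if_neg hij]
  have h45 : J8 4 5 = 1 := by unfold J8; simp
  have h67 : J8 6 7 = 1 := by unfold J8; simp
  rw [hz 0 3 (by decide), hz 0 4 (by decide), hz 0 5 (by decide), hz 0 6 (by decide), hz 0 7 (by decide), hz 3 4 (by decide), hz 3 5 (by decide), hz 3 6 (by decide), hz 3 7 (by decide), hz 4 6 (by decide), hz 4 7 (by decide), hz 5 6 (by decide), hz 5 7 (by decide), h45, h67]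
  linear_combination hR (e 0) (e 3) +
    (-1) * h.a13 (e 0) (e 1) (e 3) +
    (-1) * h.a24 (e 2) (e 3) (e 0) +
    h.pair (e 0) (e 3) (e 4) (e 5) +
    h.pair (e 0) (e 3) (e 6) (e 7)

theorem case21 : L6 ω φ (e 1) (e 2) (e 3) (e 4) (e 5) (e 6) = 0 := by
  unfold L6
  simp only [he]
  have hz : ∀ i j : Fin 8, i.val / 2 ≠ j.val / 2 → J8 i j = 0 := fun i j hij => by
    unfold J8; rw [if_neg hij]
  have h23 : J8 2 3 = 1 := by unfold J8; simp
  have h45 : J8 4 5 = 1 := by unfold J8; simp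
  rw [hz 1 2 (by decide), hz 1 3 (by decide), hz 1 4 (by decide), hz 1 5 (by decide), hz 1 6 (by decide), hz 2 4 (by decide), hz 2 5 (by decide), hz 2 6 (by decide), hz 3 4 (by decide), hz 3 5 (by decide), hz 3 6 (by decide), hz 4 6 (by decide), hz 5 6 (by decide), h23, h45]
  linear_combination hR (e 1) (e 6) +
    (-1) * h.a23 (e 0) (e 1) (e 6) +
    (-1) * h.a14 (e 6) (e 7) (e 1) +
    h.mid (e 1) (e 2) (e 3) (e 6) +
    h.mid (e 1) (e 4) (e 5) (e 6)

theorem case22 : L6 ω φ (e 1) (e 2) (e 3) (e 4) (e 5) (e 7) = 0 := by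
  unfold L6
  simp only [he]
  have hz : ∀ i j : Fin 8, i.val / 2 ≠ j.val / 2 → J8 i j = 0 := fun i j hij => by
    unfold J8; rw [if_neg hij]
  have h23 : J8 2 3 = 1 := by unfold J8; simp
  have h45 : J8 4 5 = 1 := by unfold J8; simp
  rw [hz 1 2 (by decide), hz 1 3 (by decide), hz 1 4 (by decide), hz 1 5 (by decide), hz 1 7 (by decide), hz 2 4 (by decide), hz 2 5 (by decide), hz 2 7 (by decide), hz 3 4 (by decide), hz 3 5 (by decide), hz 3 7 (by decide), hz 4 7 (by decide), hz 5 7 (by decide), h23, h45]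
  linear_combination hR (e 1) (e 7) +
    (-1) * h.a23 (e 0) (e 1) (e 7) +
    (-1) * h.a24 (e 6) (e 7) (e 1) +
    h.mid (e 1) (e 2) (e 3) (e 7) +
    h.mid (e 1) (e 4) (e 5) (e 7)

theorem case23 : L6 ω φ (e 1) (e 2) (e 3) (e 4) (e 6) (e 7) = 0 := by
  unfold L6
  simp only [he]
  have hz : ∀ i j : Fin 8, i.val / 2 ≠ j.val / 2 → J8 i j = 0 := fun i j hij => by
    unfold J8; rw [if_neg hij]
  have h23 : J8 2 3 = 1 := by unfold J8; simp
  have h67 : J8 6 7 = 1 := by unfold J8; simp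
  rw [hz 1 2 (by decide), hz 1 3 (by decide), hz 1 4 (by decide), hz 1 6 (by decide), hz 1 7 (by decide), hz 2 4 (by decide), hz 2 6 (by decide), hz 2 7 (by decide), hz 3 4 (by decide), hz 3 6 (by decide), hz 3 7 (by decide), hz 4 6 (by decide), hz 4 7 (by decide), h23, h67]
  linear_combination hR (e 1) (e 4) +
    (-1) * h.a23 (e 0) (e 1) (e 4) +
    (-1) * h.a14 (e 4) (e 5) (e 1) +
    h.mid (e 1) (e 2) (e 3) (e 4) +
    h.pair (e 1) (e 4) (e 6) (e 7)

theorem case24 : L6 ω φ (e 1) (e 2) (e 3) (e 5) (e 6) (e 7) = 0 := by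
  unfold L6
  simp only [he]
  have hz : ∀ i j : Fin 8, i.val / 2 ≠ j.val / 2 → J8 i j = 0 := fun i j hij => by
    unfold J8; rw [if_neg hij]
  have h23 : J8 2 3 = 1 := by unfold J8; simp
  have h67 : J8 6 7 = 1 := by unfold J8; simp
  rw [hz 1 2 (by decide), hz 1 3 (by decide), hz 1 5 (by decide), hz 1 6 (by decide), hz 1 7 (by decide), hz 2 5 (by decide), hz 2 6 (by decide), hz 2 7 (by decide), hz 3 5 (by decide), hz 3 6 (by decide), hz 3 7 (by decide), hz 5 6 (by decide), hz 5 7 (by decide), h23, h67]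
  linear_combination hR (e 1) (e 5) +
    (-1) * h.a23 (e 0) (e 1) (e 5) +
    (-1) * h.a24 (e 4) (e 5) (e 1) +
    h.mid (e 1) (e 2) (e 3) (e 5) +
    h.pair (e 1) (e 5) (e 6) (e 7)

theorem case25 : L6 ω φ (e 1) (e 2) (e 4) (e 5) (e 6) (e 7) = 0 := by
  unfold L6
  simp only [he]
  have hz : ∀ i j : Fin 8, i.val / 2 ≠ j.val / 2 → J8 i j = 0 := fun i j hij => by
    unfold J8; rw [if_neg hij]
  have h45 : J8 4 5 = 1 := by unfold J8; simp
  have h67 : J8 6 7 = 1 := by unfold J8; simp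
  rw [hz 1 2 (by decide), hz 1 4 (by decide), hz 1 5 (by decide), hz 1 6 (by decide), hz 1 7 (by decide), hz 2 4 (by decide), hz 2 5 (by decide), hz 2 6 (by decide), hz 2 7 (by decide), hz 4 6 (by decide), hz 4 7 (by decide), hz 5 6 (by decide), hz 5 7 (by decide), h45, h67]
  linear_combination hR (e 1) (e 2) +
    (-1) * h.a23 (e 0) (e 1) (e 2) +
    (-1) * h.a14 (e 2) (e 3) (e 1) +
    h.pair (e 1) (e 2) (e 4) (e 5) +
    h.pair (e 1) (e 2) (e 6) (e 7)

theorem case26 : L6 ω φ (e 1) (e 3) (e 4) (e 5) (e 6) (e 7) = 0 := by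
  unfold L6
  simp only [he]
  have hz : ∀ i j : Fin 8, i.val / 2 ≠ j.val / 2 → J8 i j = 0 := fun i j hij => by
    unfold J8; rw [if_neg hij]
  have h45 : J8 4 5 = 1 := by unfold J8; simp
  have h67 : J8 6 7 = 1 := by unfold J8; simp
  rw [hz 1 3 (by decide), hz 1 4 (by decide), hz 1 5 (by decide), hz 1 6 (by decide), hz 1 7 (by decide), hz 3 4 (by decide), hz 3 5 (by decide), hz 3 6 (by decide), hz 3 7 (by decide), hz 4 6 (by decide), hz 4 7 (by decide), hz 5 6 (by decide), hz 5 7 (by decide), h45, h67]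
  linear_combination hR (e 1) (e 3) +
    (-1) * h.a23 (e 0) (e 1) (e 3) +
    (-1) * h.a24 (e 2) (e 3) (e 1) +
    h.pair (e 1) (e 3) (e 4) (e 5) +
    h.pair (e 1) (e 3) (e 6) (e 7)

theorem case27 : L6 ω φ (e 2) (e 3) (e 4) (e 5) (e 6) (e 7) = 0 := by
  unfold L6
  simp only [he]
  have hz : ∀ i j : Fin 8, i.val / 2 ≠ j.val / 2 → J8 i j = 0 := fun i j hij => by
    unfold J8; rw [if_neg hij]
  have h23 : J8 2 3 = 1 := by unfold J8; simp
  have h45 : J8 4 5 = 1 := by unfold J8; simp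
  have h67 : J8 6 7 = 1 := by unfold J8; simp
  rw [hz 2 4 (by decide), hz 2 5 (by decide), hz 2 6 (by decide), hz 2 7 (by decide), hz 3 4 (by decide), hz 3 5 (by decide), hz 3 6 (by decide), hz 3 7 (by decide), hz 4 6 (by decide), hz 4 7 (by decide), hz 5 6 (by decide), hz 5 7 (by decide), h23, h45, h67]
  linear_combination (1/2) * hR (e 2) (e 3) +
    (-(1/2)) * h.a13 (e 2) (e 3) (e 3) +
    (-(1/2)) * h.pair (e 4) (e 5) (e 2) (e 3) +
    (-(1/2)) * h.pair (e 6) (e 7) (e 2) (e 3) +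
    (1/2) * hR (e 4) (e 5) +
    (-(1/2)) * h.a13 (e 4) (e 5) (e 5) +
    (-(1/2)) * h.pair (e 6) (e 7) (e 4) (e 5) +
    (1/2) * hR (e 6) (e 7) +
    (-(1/2)) * h.a13 (e 6) (e 7) (e 7) +
    (-1/2) * hR (e 0) (e 1) +
    (-(-1/2)) * h.a13 (e 0) (e 1) (e 1) +
    (-(-1/2)) * h.pair (e 2) (e 3) (e 0) (e 1) +
    (-(-1/2)) * h.pair (e 4) (e 5) (e 0) (e 1) +
    (-(-1/2)) * h.pair (e 6) (e 7) (e 0) (e 1)

end cases

theorem tuples : ∀ i0 i1 : Fin 8, i0 < i1 → ∀ i2, i1 < i2 → ∀ i3, i2 < i3 → ∀ i4, i3 < i4 → ∀ i5, i4 < i5 →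
    (i0, i1, i2, i3, i4, i5) ∈ ([(0, 1, 2, 3, 4, 5), (0, 1, 2, 3, 4, 6), (0, 1, 2, 3, 4, 7), (0, 1, 2, 3, 5, 6)
    , (0, 1, 2, 3, 5, 7), (0, 1, 2, 3, 6, 7), (0, 1, 2, 4, 5, 6), (0, 1, 2, 4, 5, 7)
    , (0, 1, 2, 4, 6, 7), (0, 1, 2, 5, 6, 7), (0, 1, 3, 4, 5, 6), (0, 1, 3, 4, 5, 7)
    , (0, 1, 3, 4, 6, 7), (0, 1, 3, 5, 6, 7), (0, 1, 4, 5, 6, 7), (0, 2, 3, 4, 5, 6)
    , (0, 2, 3, 4, 5, 7), (0, 2, 3, 4, 6, 7), (0, 2, 3, 5, 6, 7), (0, 2, 4, 5, 6, 7)
    , (0, 3, 4, 5, 6, 7), (1, 2, 3, 4, 5, 6), (1, 2, 3, 4, 5, 7), (1, 2, 3, 4, 6, 7)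
    , (1, 2, 3, 5, 6, 7), (1, 2, 4, 5, 6, 7), (1, 3, 4, 5, 6, 7), (2, 3, 4, 5, 6, 7)] :
      List (Fin 8 × Fin 8 × Fin 8 × Fin 8 × Fin 8 × Fin 8)) := by
  decide

theorem Lv_sorted {e : Fin 8 → V} (h : Alt4 φ) (he : ∀ i j, ω (e i) (e j) = J8 i j)
    (hR : ∀ u v, φ (e 0) (e 1) u v + φ (e 2) (e 3) u v + φ (e 4) (e 5) u v +
      φ (e 6) (e 7) u v = 0) (t : Fin 6 → Fin 8) (ht : StrictMono t) : Lv ω φ (e ∘ t) = 0 := by
  have h1 := tuples (t 0) (t 1) (ht (by decide)) (t 2) (ht (by decide)) (t 3) (ht (by decide))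
    (t 4) (ht (by decide)) (t 5) (ht (by decide))
  simp only [List.mem_cons, Prod.mk.injEq, List.not_mem_nil, or_false] at h1
  change L6 ω φ (e (t 0)) (e (t 1)) (e (t 2)) (e (t 3)) (e (t 4)) (e (t 5)) = 0
  rcases h1 with ⟨h0, h1, h2, h3, h4, h5⟩ | ⟨h0, h1, h2, h3, h4, h5⟩ | ⟨h0, h1, h2, h3, h4, h5⟩ | ⟨h0, h1, h2, h3, h4, h5⟩ | ⟨h0, h1, h2, h3, h4, h5⟩ | ⟨h0, h1, h2, h3, h4, h5⟩ | ⟨h0, h1, h2, h3, h4, h5⟩ | ⟨h0, h1, h2, h3, h4, h5⟩ | ⟨h0, h1, h2, h3, h4, h5⟩ | ⟨h0, h1, h2, h3, h4, h5⟩ | ⟨h0, h1, h2, h3, h4, h5⟩ | ⟨h0, h1, h2, h3, h4, h5⟩ | ⟨h0, h1, h2, h3, h4, h5⟩ | ⟨h0, h1, h2, h3, h4, h5⟩ | ⟨h0, h1, h2, h3, h4, h5⟩ | ⟨h0, h1, h2, h3, h4, h5⟩ | ⟨h0, h1, h2, h3, h4, h5⟩ | ⟨h0, h1, h2, h3, h4, h5⟩ | ⟨h0, h1, h2, h3, h4, h5⟩ | ⟨h0, h1, h2, h3, h4, h5⟩ | ⟨h0, h1, h2, h3, h4, h5⟩ | ⟨h0, h1, h2, h3, h4, h5⟩ | ⟨h0, h1, h2, h3, h4, h5⟩ | ⟨h0, h1, h2, h3, h4, h5⟩ | ⟨h0, h1, h2, h3, h4, h5⟩ | ⟨h0, h1, h2, h3, h4, h5⟩ |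 ⟨h0, h1, h2, h3, h4, h5⟩ | ⟨h0, h1, h2, h3, h4, h5⟩
  · rw [h0, h1, h2, h3, h4, h5]; exact case0 h he hR
  · rw [h0, h1, h2, h3, h4, h5]; exact case1 h he hR
  · rw [h0, h1, h2, h3, h4, h5]; exact case2 h he hR
  · rw [h0, h1, h2, h3, h4, h5]; exact case3 h he hR
  · rw [h0, h1, h2, h3, h4, h5]; exact case4 h he hR
  · rw [h0, h1, h2, h3, h4, h5]; exact case5 h he hR
  · rw [h0, h1, h2, h3, h4, h5]; exact case6 h he hR
  · rw [h0, h1, h2, h3, h4, h5]; exact case7 h he hR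
  · rw [h0, h1, h2, h3, h4, h5]; exact case8 h he hR
  · rw [h0, h1, h2, h3, h4, h5]; exact case9 h he hR
  · rw [h0, h1, h2, h3, h4, h5]; exact case10 h he hR
  · rw [h0, h1, h2, h3, h4, h5]; exact case11 h he hR
  · rw [h0, h1, h2, h3, h4, h5]; exact case12 h he hR
  · rw [h0, h1, h2, h3, h4, h5]; exact case13 h he hR
  · rw [h0, h1, h2, h3, h4, h5]; exact case14 h he hR
  · rw [h0, h1, h2, h3, h4, h5]; exact case15 h he hR
  · rw [h0, h1, h2, h3, h4, h5]; exact case16 h he hR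
  · rw [h0, h1, h2, h3, h4, h5]; exact case17 h he hR
  · rw [h0, h1, h2, h3, h4, h5]; exact case18 h he hR
  · rw [h0, h1, h2, h3, h4, h5]; exact case19 h he hR
  · rw [h0, h1, h2, h3, h4, h5]; exact case20 h he hR
  · rw [h0, h1, h2, h3, h4, h5]; exact case21 h he hR
  · rw [h0, h1, h2, h3, h4, h5]; exact case22 h he hR
  · rw [h0, h1, h2, h3, h4, h5]; exact case23 h he hR
  · rw [h0, h1, h2, h3, h4, h5]; exact case24 h he hR
  · rw [h0, h1, h2, h3, h4, h5]; exact case25 h he hR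
  · rw [h0, h1, h2, h3, h4, h5]; exact case26 h he hR
  · rw [h0, h1, h2, h3, h4, h5]; exact case27 h he hR

theorem Lv_basis {e : Fin 8 → V} (h : Alt4 φ) (hω : ∀ u v, ω u v = -ω v u)
    (he : ∀ i j, ω (e i) (e j) = J8 i j)
    (hR : ∀ u v, φ (e 0) (e 1) u v + φ (e 2) (e 3) u v + φ (e 4) (e 5) u v +
      φ (e 6) (e 7) u v = 0) (s : Fin 6 → Fin 8) : Lv ω φ (e ∘ s) = 0 := by
  have hmono := Tuple.monotone_sort s
  set σ := Tuple.sort s
  have key : Lv ω φ ((e ∘ s) ∘ σ) = 0 := by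
    by_cases hs : StrictMono (s ∘ σ)
    · exact Lv_sorted h he hR _ hs
    · rw [Fin.strictMono_iff_lt_succ] at hs
      push Not at hs
      obtain ⟨k, hk⟩ := hs
      have heq : (s ∘ σ) k.castSucc = (s ∘ σ) k.succ :=
        le_antisymm (hmono (Fin.castSucc_lt_succ).le) hk
      have h2 := Lv_swap h hω k ((e ∘ s) ∘ σ)
      have h3 : ((e ∘ s) ∘ σ) ∘ swap k.castSucc k.succ = (e ∘ s) ∘ σ := by
        funext i
        simp only [Function.comp_apply] at heq ⊢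
        by_cases h4 : i = k.castSucc
        · rw [h4, swap_apply_left, heq]
        · by_cases h5 : i = k.succ
          · rw [h5, swap_apply_right, heq]
          · rw [swap_apply_of_ne_of_ne h4 h5]
      rw [h3] at h2
      exact self_eq_neg.1 h2
  rcases Lv_perm h hω σ (e ∘ s) with h2 | h2
  · rw [← h2, key]
  · rw [key] at h2
    exact neg_eq_zero.1 h2.symm

theorem span_ext {e : Basis (Fin 8) ℂ V} {G : V → ℂ} (hadd : ∀ u v, G (u + v) = G u + G v)
    (hs : ∀ r v, G (r • v) = r * G v) (he : ∀ i, G (e i) = 0) (v : V) : G v = 0 := by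
  have h0 : G 0 = 0 := by
    have := hs 0 0
    rwa [zero_smul, zero_mul] at this
  have hv : v ∈ Submodule.span ℂ (Set.range e) := by rw [e.span_eq]; trivial
  induction hv using Submodule.span_induction with
  | mem x hx => obtain ⟨i, rfl⟩ := hx; exact he i
  | zero => exact h0
  | add x y _ _ hx hy => rw [hadd, hx, hy, add_zero]
  | smul a x _ hx => rw [hs, hx, mul_zero]

/-- **A primitive form is annihilated by the product with the symplectic form.** -/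
theorem L6_zero {e : Basis (Fin 8) ℂ V} (h : Alt4 φ) (hω : ∀ u v, ω u v = -ω v u)
    (he : ∀ i j, ω (e i) (e j) = J8 i j)
    (hR : ∀ u v, φ (e 0) (e 1) u v + φ (e 2) (e 3) u v + φ (e 4) (e 5) u v +
      φ (e 6) (e 7) u v = 0) (a b c d x y : V) : L6 ω φ a b c d x y = 0 := by
  refine span_ext (e := e) (G := fun a => L6 ω φ a b c d x y) (fun u v => L6_add0 _ _ _ _ _ _ _)
    (fun r v => L6_smul0 _ _ _ _ _ _ _) (fun i0 => ?_) a
  refine span_ext (e := e) (G := fun b => L6 ω φ (e i0) b c d x y)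
    (fun u v => L6_add1 _ _ _ _ _ _ _) (fun r v => L6_smul1 _ _ _ _ _ _ _) (fun i1 => ?_) b
  refine span_ext (e := e) (G := fun c => L6 ω φ (e i0) (e i1) c d x y)
    (fun u v => L6_add2 _ _ _ _ _ _ _) (fun r v => L6_smul2 _ _ _ _ _ _ _) (fun i2 => ?_) c
  refine span_ext (e := e) (G := fun d => L6 ω φ (e i0) (e i1) (e i2) d x y)
    (fun u v => L6_add3 _ _ _ _ _ _ _) (fun r v => L6_smul3 _ _ _ _ _ _ _) (fun i3 => ?_) d
  refine span_ext (e := e) (G := fun x => L6 ω φ (e i0) (e i1) (e i2) (e i3) x y)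
    (fun u v => L6_add4 _ _ _ _ _ _ _) (fun r v => L6_smul4 _ _ _ _ _ _ _) (fun i4 => ?_) x
  refine span_ext (e := e) (G := fun y => L6 ω φ (e i0) (e i1) (e i2) (e i3) (e i4) y)
    (fun u v => L6_add5 _ _ _ _ _ _ _) (fun r v => L6_smul5 _ _ _ _ _ _ _) (fun i5 => ?_) y
  exact Lv_basis h hω he hR ![i0, i1, i2, i3, i4, i5]

end

end Pool.Agent.P8H30.FF
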