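import Pool.Agent.P8H30.FF.AV
import Pool.Agent.Y102.AV11

set_option autoImplicit false
set_option linter.unusedSectionVars false
set_option linter.unusedVariables false
set_option linter.unusedSimpArgs false

/-!
# De Rham-Betti classes of degree four on abelian fourfolds
-/

open Module TensorProduct Function

noncomputable section

namespace Pool.Agent.P8H30.FF

open Pool.Agent.Y102 Pool.Agent.W516.DR Pool.Agent.H204R3.GP Pool.Agent.W516.KC
  Pool.Agent.H204R3.SP

section Fam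

variable {X : Type}

/-- a family of four elements -/
def fam (a b c d : X) (p : Fin 2 × Fin 2) : X :=
  if p = (0, 0) then a else if p = (0, 1) then b else if p = (1, 0) then c else d

theorem fam_eta (v : Fin 2 × Fin 2 → X) : fam (v (0, 0)) (v (0, 1)) (v (1, 0)) (v (1, 1)) = v := by
  funext ⟨i, j⟩
  fin_cases i <;> fin_cases j <;> rfl

theorem fam_map {Y : Type} (f : X → Y) (a b c d : X) :
    (fun p => f (fam a b c d p)) = fam (f a) (f b) (f c) (f d) := by
  funext ⟨i, j⟩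
  fin_cases i <;> fin_cases j <;> rfl

theorem upd0 (a b c d x : X) : update (fam a b c d) (0, 0) x = fam x b c d := by
  funext ⟨i, j⟩
  fin_cases i <;> fin_cases j <;> rfl

theorem upd1 (a b c d x : X) : update (fam a b c d) (0, 1) x = fam a x c d := by
  funext ⟨i, j⟩
  fin_cases i <;> fin_cases j <;> rfl

theorem upd2 (a b c d x : X) : update (fam a b c d) (1, 0) x = fam a b x d := by
  funext ⟨i, j⟩
  fin_cases i <;> fin_cases j <;> rfl

theorem upd3 (a b c d x : X) : update (fam a b c d) (1, 1) x = fam a b c x := by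
  funext ⟨i, j⟩
  fin_cases i <;> fin_cases j <;> rfl

end Fam

/-- the form in curried shape -/
def cur {V : Type} [AddCommGroup V] [Module ℂ V]
    (F : MultilinearMap ℂ (fun _ : Fin 2 × Fin 2 => V) ℂ) : F4 V :=
  mk4 (fun a b c d => F (fam a b c d))
    (by
      intro a a' b c d
      have h := F.map_update_add (fam a b c d) (0, 0) a a'
      simpa only [upd0] using h)
    (by
      intro r a b c d
      have h := F.map_update_smul (fam a b c d) (0, 0) r a
      simpa only [upd0, smul_eq_mul] using h)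
    (by
      intro a b b' c d
      have h := F.map_update_add (fam a b c d) (0, 1) b b'
      simpa only [upd1] using h)
    (by
      intro r a b c d
      have h := F.map_update_smul (fam a b c d) (0, 1) r b
      simpa only [upd1, smul_eq_mul] using h)
    (by
      intro a b c c' d
      have h := F.map_update_add (fam a b c d) (1, 0) c c'
      simpa only [upd2] using h)
    (by
      intro r a b c d
      have h := F.map_update_smul (fam a b c d) (1, 0) r c
      simpa only [upd2, smul_eq_mul] using h)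
    (by
      intro a b c d d'
      have h := F.map_update_add (fam a b c d) (1, 1) d d'
      simpa only [upd3] using h)
    (by
      intro r a b c d
      have h := F.map_update_smul (fam a b c d) (1, 1) r d
      simpa only [upd3, smul_eq_mul] using h)

theorem cur_apply {V : Type} [AddCommGroup V] [Module ℂ V]
    (F : MultilinearMap ℂ (fun _ : Fin 2 × Fin 2 => V) ℂ) (a b c d : V) :
    cur F a b c d = F (fam a b c d) := rfl

section Ext

variable {W : Type} [AddCommGroup W] [Module ℚ W] [FiniteDimensional ℚ W]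

theorem ext4 {F G : F4 (ℂ ⊗[ℚ] W)} (h : ∀ a b c d : W,
    F ((1 : ℂ) ⊗ₜ[ℚ] a) ((1 : ℂ) ⊗ₜ[ℚ] b) ((1 : ℂ) ⊗ₜ[ℚ] c) ((1 : ℂ) ⊗ₜ[ℚ] d) =
    G ((1 : ℂ) ⊗ₜ[ℚ] a) ((1 : ℂ) ⊗ₜ[ℚ] b) ((1 : ℂ) ⊗ₜ[ℚ] c) ((1 : ℂ) ⊗ₜ[ℚ] d)) : F = G := by
  let β := (Module.finBasis ℚ W).baseChange ℂ
  have hβ : ∀ i, β i = (1 : ℂ) ⊗ₜ[ℚ] (Module.finBasis ℚ W i) := fun i => by
    change (Module.finBasis ℚ W).baseChange ℂ i = _
    rw [Basis.baseChange_apply]
  refine β.ext fun i => β.ext fun j => β.ext fun k => β.ext fun l => ?_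
  rw [hβ, hβ, hβ, hβ, h]

theorem alt4_of {F : F4 (ℂ ⊗[ℚ] W)}
    (h12 : ∀ a b c d : W, F ((1 : ℂ) ⊗ₜ[ℚ] a) ((1 : ℂ) ⊗ₜ[ℚ] b) ((1 : ℂ) ⊗ₜ[ℚ] c)
      ((1 : ℂ) ⊗ₜ[ℚ] d) = -F ((1 : ℂ) ⊗ₜ[ℚ] b) ((1 : ℂ) ⊗ₜ[ℚ] a) ((1 : ℂ) ⊗ₜ[ℚ] c)
      ((1 : ℂ) ⊗ₜ[ℚ] d))
    (h23 : ∀ a b c d : W, F ((1 : ℂ) ⊗ₜ[ℚ] a) ((1 : ℂ) ⊗ₜ[ℚ] b) ((1 : ℂ) ⊗ₜ[ℚ] c)
      ((1 : ℂ) ⊗ₜ[ℚ] d) = -F ((1 : ℂ) ⊗ₜ[ℚ] a) ((1 : ℂ) ⊗ₜ[ℚ] c) ((1 : ℂ) ⊗ₜ[ℚ] b)
      ((1 : ℂ) ⊗ₜ[ℚ] d))
    (h34 : ∀ a b c d : W, F ((1 : ℂ) ⊗ₜ[ℚ] a) ((1 : ℂ) ⊗ₜ[ℚ] b) ((1 : ℂ) ⊗ₜ[ℚ] c)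
      ((1 : ℂ) ⊗ₜ[ℚ] d) = -F ((1 : ℂ) ⊗ₜ[ℚ] a) ((1 : ℂ) ⊗ₜ[ℚ] b) ((1 : ℂ) ⊗ₜ[ℚ] d)
      ((1 : ℂ) ⊗ₜ[ℚ] c)) : Alt4 F := by
  have e12 : F = mk4 (fun a b c d => -F b a c d)
      (by intros; simp only [map_add, LinearMap.add_apply]; ring)
      (by intros; simp only [map_smul, LinearMap.smul_apply, smul_eq_mul]; ring)
      (by intros; simp only [map_add, LinearMap.add_apply]; ring)
      (by intros; simp only [map_smul, LinearMap.smul_apply, smul_eq_mul]; ring)
      (by intros; simp only [map_add, LinearMap.add_apply]; ring)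
      (by intros; simp only [map_smul, LinearMap.smul_apply, smul_eq_mul]; ring)
      (by intros; simp only [map_add, LinearMap.add_apply]; ring)
      (by intros; simp only [map_smul, LinearMap.smul_apply, smul_eq_mul]; ring) := ext4 h12
  have e23 : F = mk4 (fun a b c d => -F a c b d)
      (by intros; simp only [map_add, LinearMap.add_apply]; ring)
      (by intros; simp only [map_smul, LinearMap.smul_apply, smul_eq_mul]; ring)
      (by intros; simp only [map_add, LinearMap.add_apply]; ring)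
      (by intros; simp only [map_smul, LinearMap.smul_apply, smul_eq_mul]; ring)
      (by intros; simp only [map_add, LinearMap.add_apply]; ring)
      (by intros; simp only [map_smul, LinearMap.smul_apply, smul_eq_mul]; ring)
      (by intros; simp only [map_add, LinearMap.add_apply]; ring)
      (by intros; simp only [map_smul, LinearMap.smul_apply, smul_eq_mul]; ring) := ext4 h23
  have e34 : F = mk4 (fun a b c d => -F a b d c)
      (by intros; simp only [map_add, LinearMap.add_apply]; ring)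
      (by intros; simp only [map_smul, LinearMap.smul_apply, smul_eq_mul]; ring)
      (by intros; simp only [map_add, LinearMap.add_apply]; ring)
      (by intros; simp only [map_smul, LinearMap.smul_apply, smul_eq_mul]; ring)
      (by intros; simp only [map_add, LinearMap.add_apply]; ring)
      (by intros; simp only [map_smul, LinearMap.smul_apply, smul_eq_mul]; ring)
      (by intros; simp only [map_add, LinearMap.add_apply]; ring)
      (by intros; simp only [map_smul, LinearMap.smul_apply, smul_eq_mul]; ring) := ext4 h34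
  refine ⟨fun u v w => ?_, fun u v w => ?_, fun u v w => ?_⟩
  · exact self_eq_neg.1 (congrArg (fun G : F4 (ℂ ⊗[ℚ] W) => G u u v w) e12)
  · exact self_eq_neg.1 (congrArg (fun G : F4 (ℂ ⊗[ℚ] W) => G u v v w) e23)
  · exact self_eq_neg.1 (congrArg (fun G : F4 (ℂ ⊗[ℚ] W) => G u v w w) e34)

end Ext

section Wedge

variable {W : Type} [AddCommGroup W] [Module ℚ W]

/-- the exterior product of two alternating forms -/
def wedge (α β : W →ₗ[ℚ] W →ₗ[ℚ] ℚ) (v : Fin 2 × Fin 2 → W) : ℚ :=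
  α (v (0, 0)) (v (0, 1)) * β (v (1, 0)) (v (1, 1)) -
    α (v (0, 0)) (v (1, 0)) * β (v (0, 1)) (v (1, 1)) +
    α (v (0, 0)) (v (1, 1)) * β (v (0, 1)) (v (1, 0)) +
    α (v (0, 1)) (v (1, 0)) * β (v (0, 0)) (v (1, 1)) -
    α (v (0, 1)) (v (1, 1)) * β (v (0, 0)) (v (1, 0)) +
    α (v (1, 0)) (v (1, 1)) * β (v (0, 0)) (v (0, 1))

/-- the exterior product as a multilinear map -/
def wedgeM (α β : W →ₗ[ℚ] W →ₗ[ℚ] ℚ) : MultilinearMap ℚ (fun _ : Fin 2 × Fin 2 => W) ℚ where
  toFun v := wedge α β v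
  map_update_add' v i x y := by
    obtain ⟨i, j⟩ := i
    fin_cases i <;> fin_cases j <;>
    · simp [wedge, Function.update_apply]
      ring
  map_update_smul' v i r x := by
    obtain ⟨i, j⟩ := i
    fin_cases i <;> fin_cases j <;>
    · simp [wedge, Function.update_apply]
      ring

end Wedge

variable (A : AbVar 4)

/-- products of divisor classes -/
def DP : Set (MultilinearMap ℚ (fun _ : Fin 2 × Fin 2 => A.H1) ℚ) :=
  {ψ | ∃ P ∈ A.EA, ∃ R ∈ A.EA, ψ = wedgeM (A.om.comp P) (A.om.comp R)}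

theorem finrank_V : finrank ℂ (ℂ ⊗[ℚ] A.H1) = 8 := by
  rw [Module.finrank_baseChange, A.finrank_H1]
  rfl

theorem wd_comp (P R : Module.End ℚ A.H1) (a b c d : A.H1) :
    wd (omC A) (P.baseChange ℂ) (R.baseChange ℂ) ((1 : ℂ) ⊗ₜ[ℚ] a) ((1 : ℂ) ⊗ₜ[ℚ] b)
      ((1 : ℂ) ⊗ₜ[ℚ] c) ((1 : ℂ) ⊗ₜ[ℚ] d) =
    algebraMap ℚ ℂ (wedge (A.om.comp P) (A.om.comp R) (fam a b c d)) := by
  rw [wd_apply]
  simp only [LinearMap.baseChange_tmul, omC_tmul]
  unfold wedge
  have f0 : fam a b c d (0, 0) = a := rfl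
  have f1 : fam a b c d (0, 1) = b := rfl
  have f2 : fam a b c d (1, 0) = c := rfl
  have f3 : fam a b c d (1, 1) = d := rfl
  rw [f0, f1, f2, f3]
  simp only [LinearMap.comp_apply, map_add, map_sub, map_mul]

theorem wd_add_left {V : Type} [AddCommGroup V] [Module ℂ V] (ω : V →ₗ[ℂ] V →ₗ[ℂ] ℂ)
    (P P' R : Module.End ℂ V) : wd ω (P + P') R = wd ω P R + wd ω P' R := by
  refine LinearMap.ext fun a => LinearMap.ext fun b => LinearMap.ext fun c =>
    LinearMap.ext fun d => ?_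
  simp only [LinearMap.add_apply, wd_apply, map_add]
  ring

theorem wd_add_right {V : Type} [AddCommGroup V] [Module ℂ V] (ω : V →ₗ[ℂ] V →ₗ[ℂ] ℂ)
    (P R R' : Module.End ℂ V) : wd ω P (R + R') = wd ω P R + wd ω P R' := by
  refine LinearMap.ext fun a => LinearMap.ext fun b => LinearMap.ext fun c =>
    LinearMap.ext fun d => ?_
  simp only [LinearMap.add_apply, wd_apply, map_add]
  ring

theorem wd_smul_left {V : Type} [AddCommGroup V] [Module ℂ V] (ω : V →ₗ[ℂ] V →ₗ[ℂ] ℂ)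
    (r : ℂ) (P R : Module.End ℂ V) : wd ω (r • P) R = r • wd ω P R := by
  refine LinearMap.ext fun a => LinearMap.ext fun b => LinearMap.ext fun c =>
    LinearMap.ext fun d => ?_
  simp only [LinearMap.smul_apply, wd_apply, map_smul, smul_eq_mul]
  ring

theorem wd_smul_right {V : Type} [AddCommGroup V] [Module ℂ V] (ω : V →ₗ[ℂ] V →ₗ[ℂ] ℂ)
    (r : ℂ) (P R : Module.End ℂ V) : wd ω P (r • R) = r • wd ω P R := by
  refine LinearMap.ext fun a => LinearMap.ext fun b => LinearMap.ext fun c =>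
    LinearMap.ext fun d => ?_
  simp only [LinearMap.smul_apply, wd_apply, map_smul, smul_eq_mul]
  ring

/-- rational components of a form -/
def fc (lam : ℂ →ₗ[ℚ] ℚ) (ψ : F4 (ℂ ⊗[ℚ] A.H1)) (v : Fin 2 × Fin 2 → A.H1) : ℚ :=
  lam (ψ ((1 : ℂ) ⊗ₜ[ℚ] v (0, 0)) ((1 : ℂ) ⊗ₜ[ℚ] v (0, 1)) ((1 : ℂ) ⊗ₜ[ℚ] v (1, 0))
    ((1 : ℂ) ⊗ₜ[ℚ] v (1, 1)))

/-- the forms whose components are combinations of products -/
def TT (ψ : F4 (ℂ ⊗[ℚ] A.H1)) : Prop :=
  ∀ lam : ℂ →ₗ[ℚ] ℚ, ∃ θ ∈ Submodule.span ℚ (DP A), ∀ v, fc A lam ψ v = θ v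

theorem TT_zero : TT A 0 := fun lam => ⟨0, Submodule.zero_mem _, fun v => by
  simp [fc]⟩

theorem TT_add {ψ ψ' : F4 (ℂ ⊗[ℚ] A.H1)} (h : TT A ψ) (h' : TT A ψ') : TT A (ψ + ψ') := by
  intro lam
  obtain ⟨θ, hθ, h1⟩ := h lam
  obtain ⟨θ', hθ', h1'⟩ := h' lam
  refine ⟨θ + θ', Submodule.add_mem _ hθ hθ', fun v => ?_⟩
  rw [add_apply, ← h1, ← h1']
  simp only [fc, LinearMap.add_apply, map_add]

theorem TT_smul (c : ℂ) {ψ : F4 (ℂ ⊗[ℚ] A.H1)} (h : TT A ψ) : TT A (c • ψ) := by
  intro lam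
  obtain ⟨θ, hθ, h1⟩ := h (lam ∘ₗ (LinearMap.mulLeft ℚ c))
  refine ⟨θ, hθ, fun v => ?_⟩
  rw [← h1]
  simp only [fc, LinearMap.smul_apply, LinearMap.comp_apply, LinearMap.mulLeft_apply, smul_eq_mul]

theorem TT_wd {x y : Module.End ℂ (ℂ ⊗[ℚ] A.H1)} (hx : x ∈ cx A.EA) (hy : y ∈ cx A.EA) :
    TT A (wd (omC A) x y) := by
  induction hx using Submodule.span_induction with
  | mem x hx =>
    obtain ⟨P, hP, rfl⟩ := hx
    induction hy using Submodule.span_induction with
    | mem y hy =>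
      obtain ⟨R, hR, rfl⟩ := hy
      intro lam
      refine ⟨lam 1 • wedgeM (A.om.comp P) (A.om.comp R), Submodule.smul_mem _ _
        (Submodule.subset_span ⟨P, hP, R, hR, rfl⟩), fun v => ?_⟩
      unfold fc
      rw [wd_comp, fam_eta, smul_apply, smul_eq_mul, Algebra.algebraMap_eq_smul_one,
        map_smul, smul_eq_mul, mul_comm]
      rfl
    | zero =>
      have h0 : wd (omC A) (P.baseChange ℂ) 0 = 0 := by
        have := wd_smul_right (omC A) 0 (P.baseChange ℂ) 0
        rwa [zero_smul, zero_smul] at this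
      rw [h0]
      exact TT_zero A
    | add a b _ _ ha hb => rw [wd_add_right]; exact TT_add A ha hb
    | smul c a _ ha => rw [wd_smul_right]; exact TT_smul A c ha
  | zero =>
    have h0 : wd (omC A) 0 y = 0 := by
      have := wd_smul_left (omC A) 0 0 y
      rwa [zero_smul, zero_smul] at this
    rw [h0]
    exact TT_zero A
  | add a b _ _ ha hb => rw [wd_add_left]; exact TT_add A ha hb
  | smul c a _ ha => rw [wd_smul_left]; exact TT_smul A c ha

/-- the complex form is killed -/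
theorem kills_C {φ : MultilinearMap ℚ (fun _ : Fin 2 × Fin 2 => A.H1) ℚ}
    (hφ : IsDeRhamBettiForm QBar A.dR tau 2 φ) {X : Module.End ℚ A.H1} (hX : X ∈ A.LA) :
    Kills (X.baseChange ℂ) (bcm (Ω := ℂ) (Module.finBasis ℚ A.H1) φ) := by
  rw [kills_bcm_iff]
  intro lam
  have h1 : cmpE lam (X.baseChange ℂ) = lam 1 • X := by
    refine LinearMap.ext fun w => ?_
    rw [cmpE_apply, LinearMap.baseChange_tmul, cmp_tmul, LinearMap.smul_apply]
  rw [h1]
  exact A.kills_of_mem hφ (A.LA.smul_mem _ hX)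

/-- **Main theorem.** -/
theorem main (hsym : ∀ P ∈ A.EA, ∀ u v, A.om (P u) v = A.om u (P v))
    {φ : MultilinearMap ℚ (fun _ : Fin 2 × Fin 2 => A.H1) ℚ}
    (hφ : IsDeRhamBettiForm QBar A.dR tau 2 φ)
    (halt : ∀ v : Fin 2 × Fin 2 → A.H1, ∀ i j, i ≠ j → v i = v j → φ v = 0) :
    φ ∈ Submodule.span ℚ (DP A) := by
  obtain ⟨Φ, hΦ⟩ : ∃ Φ, Φ = cur (bcm (Ω := ℂ) (Module.finBasis ℚ A.H1) φ) := ⟨_, rfl⟩
  have hΦ1 : ∀ a b c d : A.H1, Φ ((1 : ℂ) ⊗ₜ[ℚ] a) ((1 : ℂ) ⊗ₜ[ℚ] b) ((1 : ℂ) ⊗ₜ[ℚ] c)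
      ((1 : ℂ) ⊗ₜ[ℚ] d) = algebraMap ℚ ℂ (φ (fam a b c d)) := by
    intro a b c d
    rw [hΦ, cur_apply, ← fam_map (fun x : A.H1 => (1 : ℂ) ⊗ₜ[ℚ] x), bcm_one]
  have hswap : ∀ (v : Fin 2 × Fin 2 → A.H1) (i j : Fin 2 × Fin 2), i ≠ j →
      φ (update (update v i (v j)) j (v i)) = -φ v := by
    intro v i j hij
    have h0 := halt (update (update v i (v i + v j)) j (v i + v j)) i j hij (by
      rw [update_self, update_of_ne hij, update_self])
    have h1 := halt (update (update v i (v i)) j (v i)) i j hij (by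
      rw [update_self, update_of_ne hij, update_self])
    have h2 := halt (update (update v i (v j)) j (v j)) i j hij (by
      rw [update_self, update_of_ne hij, update_self])
    have hP1 : ∀ x y y', φ (update (update v i x) j (y + y')) =
        φ (update (update v i x) j y) + φ (update (update v i x) j y') := fun x y y' =>
      φ.map_update_add _ _ _ _
    have hP2 : ∀ x x' y, φ (update (update v i (x + x')) j y) =
        φ (update (update v i x) j y) + φ (update (update v i x') j y) := by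
      intro x x' y
      rw [update_comm hij (x + x') y v, update_comm hij x y v, update_comm hij x' y v]
      exact φ.map_update_add _ _ _ _
    have h3 : update (update v i (v i)) j (v j) = v := by rw [update_eq_self, update_eq_self]
    rw [hP1, hP2, hP2, h1, h2, h3] at h0
    linear_combination h0
  have hA : Alt4 Φ := by
    refine alt4_of (fun a b c d => ?_) (fun a b c d => ?_) fun a b c d => ?_
    · rw [hΦ1, hΦ1, ← map_neg]
      congr 1
      have h1 := hswap (fam a b c d) (0, 0) (0, 1) (by decide)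
      have h2 : update (update (fam a b c d) (0, 0) (fam a b c d (0, 1))) (0, 1)
          (fam a b c d (0, 0)) = fam b a c d := by
        change update (update (fam a b c d) (0, 0) b) (0, 1) a = _
        rw [upd0, upd1]
      rw [h2] at h1
      linear_combination h1
    · rw [hΦ1, hΦ1, ← map_neg]
      congr 1
      have h1 := hswap (fam a b c d) (0, 1) (1, 0) (by decide)
      have h2 : update (update (fam a b c d) (0, 1) (fam a b c d (1, 0))) (1, 0)
          (fam a b c d (0, 1)) = fam a c b d := by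
        change update (update (fam a b c d) (0, 1) c) (1, 0) b = _
        rw [upd1, upd2]
      rw [h2] at h1
      linear_combination h1
    · rw [hΦ1, hΦ1, ← map_neg]
      congr 1
      have h1 := hswap (fam a b c d) (1, 0) (1, 1) (by decide)
      have h2 : update (update (fam a b c d) (1, 0) (fam a b c d (1, 1))) (1, 1)
          (fam a b c d (1, 0)) = fam a b d c := by
        change update (update (fam a b c d) (1, 0) d) (1, 1) c = _
        rw [upd2, upd3]
      rw [h2] at h1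
      linear_combination h1
  have hK : Φ ∈ A0 (ℂ ⊗[ℚ] A.H1) (QQ A) := by
    refine ⟨hA, ?_⟩
    rintro _ ⟨X, hX, rfl⟩ u v w x
    have h1 := kills_C A hφ hX (fam u v w x)
    rw [Fintype.sum_prod_type, Fin.sum_univ_two, Fin.sum_univ_two, Fin.sum_univ_two] at h1
    rw [upd0, upd1, upd2, upd3] at h1
    rw [hΦ, cur_apply, cur_apply, cur_apply, cur_apply]
    rw [← add_assoc] at h1
    exact h1
  have hmem := invariants (omC_alt A) (omC_nd A) (finrank_V A) (QQ_skew A)
    (fun x hx => adj_of_cx A hsym (mem_cx A hx)) (fun U hU => exists_proj A hsym U hU) hK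
  have hT : TT A Φ := by
    clear hΦ hΦ1 hA hK
    induction hmem using Submodule.span_induction with
    | mem ψ hψ =>
      obtain ⟨P, R, hP, hR, rfl⟩ := hψ
      exact TT_wd A (mem_cx A hP) (mem_cx A hR)
    | zero => exact TT_zero A
    | add a b _ _ ha hb => exact TT_add A ha hb
    | smul c a _ ha => exact TT_smul A c ha
  obtain ⟨lam, hlam⟩ := exists_lam
  obtain ⟨θ, hθ, h1⟩ := hT lam
  have h2 : φ = θ := by
    refine MultilinearMap.ext fun v => ?_
    rw [← h1]
    unfold fc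
    rw [hΦ1, fam_eta, Algebra.algebraMap_eq_smul_one, map_smul, hlam, smul_eq_mul, mul_one]
  rw [h2]
  exact hθ

end Pool.Agent.P8H30.FF
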