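import Pool.Agent.P8H30.FF.Lef

set_option autoImplicit false
set_option linter.unusedSectionVars false
set_option linter.unusedVariables false

/-!
# The operator attached to an alternating form of degree four
-/

open Module

noncomputable section

namespace Pool.Agent.P8H30.FF

variable {V : Type} [AddCommGroup V] [Module ℂ V] {ι : Type} [Fintype ι] [DecidableEq ι]

/-- the operator attached to a bilinear form -/
def op (b : Basis ι ℂ V) (b' : ι → V) : (V →ₗ[ℂ] V →ₗ[ℂ] ℂ) →ₗ[ℂ] Module.End ℂ V where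
  toFun β := ∑ j, (β.flip (b j)).smulRight (b' j)
  map_add' β γ := by
    rw [← Finset.sum_add_distrib]
    refine Finset.sum_congr rfl fun j _ => LinearMap.ext fun u => ?_
    simp [add_smul]
  map_smul' c β := by
    rw [Finset.smul_sum]
    refine Finset.sum_congr rfl fun j _ => LinearMap.ext fun u => ?_
    simp [mul_smul]

/-- contraction of a form with an operator -/
def con (b : Basis ι ℂ V) (b' : ι → V) (φ : F4 V) :
    Module.End ℂ V →ₗ[ℂ] (V →ₗ[ℂ] V →ₗ[ℂ] ℂ) where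
  toFun x := ∑ i, φ (x (b i)) (b' i)
  map_add' x y := by
    rw [← Finset.sum_add_distrib]
    exact Finset.sum_congr rfl fun i _ => by rw [LinearMap.add_apply, map_add, LinearMap.add_apply]
  map_smul' c x := by
    rw [RingHom.id_apply, Finset.smul_sum]
    exact Finset.sum_congr rfl fun i _ => by
      rw [LinearMap.smul_apply, map_smul, LinearMap.smul_apply]

/-- the operator on operators -/
def Phi (b : Basis ι ℂ V) (b' : ι → V) (φ : F4 V) : Module.End ℂ V →ₗ[ℂ] Module.End ℂ V :=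
  op b b' ∘ₗ con b b' φ

variable {ω : V →ₗ[ℂ] V →ₗ[ℂ] ℂ} {b : Basis ι ℂ V} {b' : ι → V} {φ : F4 V}

theorem con_apply (x : Module.End ℂ V) (u v : V) :
    con b b' φ x u v = ∑ i, φ (x (b i)) (b' i) u v := by
  change (∑ i, φ (x (b i)) (b' i)) u v = _
  rw [LinearMap.sum_apply, LinearMap.sum_apply]

namespace SB

variable (h : SB ω b b')
include h

theorem op_spec (β : V →ₗ[ℂ] V →ₗ[ℂ] ℂ) (u v : V) : ω (op b b' β u) v = β u v := by
  change ω ((∑ j, (β.flip (b j)).smulRight (b' j)) u) v = _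
  rw [LinearMap.sum_apply, map_sum, LinearMap.sum_apply]
  conv_rhs => rw [← h.exp v, map_sum]
  refine Finset.sum_congr rfl fun j _ => ?_
  rw [LinearMap.smulRight_apply, LinearMap.flip_apply, map_smul, LinearMap.smul_apply, map_smul,
    smul_eq_mul, smul_eq_mul, mul_comm]

theorem Phi_spec (x : Module.End ℂ V) (u v : V) :
    ω (Phi b b' φ x u) v = ∑ i, φ (x (b i)) (b' i) u v := by
  change ω (op b b' (con b b' φ x) u) v = _
  rw [h.op_spec, con_apply]

variable (ha : Alt4 φ)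
include ha

theorem Phi_spec' (x : Module.End ℂ V) (u v : V) :
    ω (Phi b b' φ x u) v = ∑ i, φ u v (x (b i)) (b' i) := by
  rw [h.Phi_spec]
  exact Finset.sum_congr rfl fun i _ => ha.pair _ _ _ _

theorem Phi_adj (x : Module.End ℂ V) : IsAdj ω (Phi b b' φ x) (Phi b b' φ x) := fun u v => by
  rw [h.anti u, h.Phi_spec, h.Phi_spec, ← Finset.sum_neg_distrib]
  exact Finset.sum_congr rfl fun i _ => ha.s34 _ _ _ _

theorem Phi_star {x y : Module.End ℂ V} (hx : IsAdj ω x y) : Phi b b' φ x = Phi b b' φ y := by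
  refine h.endExt fun u v => ?_
  have h1 := h.tw_adj φ hx
  have h2 := h.tw_swap (M := V →ₗ[ℂ] V →ₗ[ℂ] ℂ) (LinearMap.compl₂ φ y)
  simp only [LinearMap.compl₂_apply] at h2
  rw [h2] at h1
  have h3 := congrArg (fun β : V →ₗ[ℂ] V →ₗ[ℂ] ℂ => β u v) h1
  simp only [LinearMap.sum_apply, LinearMap.neg_apply] at h3
  rw [h.Phi_spec, h.Phi_spec, h3, ← Finset.sum_neg_distrib]
  exact Finset.sum_congr rfl fun i _ => by rw [ha.s12, neg_neg]

theorem trace_Phi (x y : Module.End ℂ V) : LinearMap.trace ℂ V (x * Phi b b' φ y) =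
    -∑ i, ∑ k, φ (y (b k)) (b' k) (x (b i)) (b' i) := by
  obtain ⟨x', hx⟩ := h.exists_adj x
  have h1 : ∀ i, ω (b' i) ((x * Phi b b' φ y) (b i)) =
      -(con b b' φ y (b i) (x' (b' i))) := by
    intro i
    rw [Module.End.mul_apply, ← h.adj_symm hx, h.anti, h.Phi_spec, con_apply]
  rw [h.trace_eq, Finset.sum_congr rfl fun i _ => h1 i, Finset.sum_neg_distrib,
    ← h.tw_adj (con b b' φ y) hx]
  congr 1
  exact Finset.sum_congr rfl fun i _ => con_apply _ _ _

theorem trace_Phi_symm (x y : Module.End ℂ V) : LinearMap.trace ℂ V (x * Phi b b' φ y) =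
    LinearMap.trace ℂ V (y * Phi b b' φ x) := by
  rw [h.trace_Phi ha, h.trace_Phi ha, Finset.sum_comm]
  congr 1
  exact Finset.sum_congr rfl fun i _ => Finset.sum_congr rfl fun k _ => ha.pair _ _ _ _

/-- the map is equivariant -/
theorem Phi_comm {q : Module.End ℂ V} (hq : IsAdj ω q (-q))
    (hk : ∀ u v w x, φ (q u) v w x + φ u (q v) w x + φ u v (q w) x + φ u v w (q x) = 0)
    (x : Module.End ℂ V) :
    Phi b b' φ (q * x - x * q) = q * Phi b b' φ x - Phi b b' φ x * q := by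
  refine h.endExt fun u v => ?_
  rw [h.Phi_spec, LinearMap.sub_apply, map_sub, LinearMap.sub_apply, Module.End.mul_apply,
    Module.End.mul_apply, hq (Phi b b' φ x u) v, LinearMap.neg_apply, map_neg, h.Phi_spec,
    h.Phi_spec]
  have h1 := h.tw_adj (M := V →ₗ[ℂ] V →ₗ[ℂ] ℂ) (φ ∘ₗ x) hq
  have h2 := congrArg (fun β : V →ₗ[ℂ] V →ₗ[ℂ] ℂ => β u v) h1
  simp only [LinearMap.sum_apply, LinearMap.comp_apply, LinearMap.neg_apply, map_neg,
    Finset.sum_neg_distrib] at h2
  simp only [LinearMap.sub_apply, Module.End.mul_apply, map_sub, Finset.sum_sub_distrib]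
  rw [h2]
  have h3 : ∑ i, (φ (q (x (b i))) (b' i) u v + φ (x (b i)) (q (b' i)) u v +
      φ (x (b i)) (b' i) (q u) v + φ (x (b i)) (b' i) u (q v)) = 0 :=
    Finset.sum_eq_zero fun i _ => hk _ _ _ _
  simp only [Finset.sum_add_distrib] at h3
  linear_combination h3

omit ha in
theorem X1 (f : V →ₗ[ℂ] ℂ) {z : Module.End ℂ V} (hz : IsAdj ω z z) (a : V) :
    ∑ k, ω a (z (b k)) * f (b' k) = f (z a) := by
  conv_rhs => rw [← h.exp' (z a), map_sum]
  exact Finset.sum_congr rfl fun k _ => by rw [hz, map_smul, smul_eq_mul]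

omit ha in
theorem X2 (f : V →ₗ[ℂ] ℂ) (z : Module.End ℂ V) (a : V) :
    ∑ k, ω a (b' k) * f (z (b k)) = -f (z a) := by
  conv_rhs => rw [← h.exp a, map_sum, map_sum, ← Finset.sum_neg_distrib]
  exact Finset.sum_congr rfl fun k _ => by
    rw [map_smul, map_smul, smul_eq_mul, h.anti, neg_mul]

variable (hL : ∀ a c d e f g, L6 ω φ a c d e f g = 0)
include hL

theorem I1 {z : Module.End ℂ V} (hz : IsAdj ω z z) (htz : LinearMap.trace ℂ V z = 0)
    (a c d e : V) :
    ω a c * ω (Phi b b' φ z d) e - ω a d * ω (Phi b b' φ z c) e + ω a e * ω (Phi b b' φ z c) d +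
    ω c d * ω (Phi b b' φ z a) e - ω c e * ω (Phi b b' φ z a) d + ω d e * ω (Phi b b' φ z a) c +
    2 * (φ (z a) c d e + φ a (z c) d e + φ a c (z d) e + φ a c d (z e)) = 0 := by
  have h0 : ∑ k, L6 ω φ a c d e (z (b k)) (b' k) = 0 :=
    Finset.sum_eq_zero fun k _ => hL _ _ _ _ _ _
  unfold L6 at h0
  simp only [Finset.sum_add_distrib, Finset.sum_sub_distrib, ← Finset.mul_sum,
    ← Finset.sum_mul] at h0
  rw [← h.Phi_spec' ha, ← h.Phi_spec' ha, ← h.Phi_spec' ha, ← h.Phi_spec' ha, ← h.Phi_spec' ha,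
    ← h.Phi_spec' ha, h.X1 (φ c d e) hz, h.X1 (φ a d e) hz, h.X1 (φ a c e) hz,
    h.X1 (φ a c d) hz, h.X2 (φ c d e), h.X2 (φ a d e), h.X2 (φ a c e), h.X2 (φ a c d),
    h.trace_eq', htz] at h0
  have e1 : φ (z a) c d e = -φ c d e (z a) := by
    rw [ha.s12, ha.s23, ha.s34, neg_neg]
  have e2 : φ a (z c) d e = φ a d e (z c) := by
    rw [ha.s23, ha.s34, neg_neg]
  have e3 : φ a c (z d) e = -φ a c e (z d) := by
    rw [ha.s34]
  linear_combination h0 + 2 * e1 + 2 * e2 + 2 * e3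

/-- **The Jordan identity.** -/
theorem I2 {y z : Module.End ℂ V} (hy : IsAdj ω y y) (hty : LinearMap.trace ℂ V y = 0)
    (hz : IsAdj ω z z) (htz : LinearMap.trace ℂ V z = 0) :
    Phi b b' φ (y * z + z * y) + (Phi b b' φ y * z + z * Phi b b' φ y) +
      (Phi b b' φ z * y + y * Phi b b' φ z) =
      (1 / 2 * LinearMap.trace ℂ V (Phi b b' φ z * y)) • (1 : Module.End ℂ V) := by
  refine h.endExt fun a c => ?_
  have h0 : ∑ j, (ω a c * ω (Phi b b' φ z (y (b j))) (b' j)
      - ω a (y (b j)) * ω (Phi b b' φ z c) (b' j) + ω a (b' j) * ω (Phi b b' φ z c) (y (b j)) +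
    ω c (y (b j)) * ω (Phi b b' φ z a) (b' j) - ω c (b' j) * ω (Phi b b' φ z a) (y (b j)) +
    ω (y (b j)) (b' j) * ω (Phi b b' φ z a) c +
    2 * (φ (z a) c (y (b j)) (b' j) + φ a (z c) (y (b j)) (b' j) + φ a c (z (y (b j))) (b' j) +
      φ a c (y (b j)) (z (b' j)))) = 0 :=
    Finset.sum_eq_zero fun j _ => h.I1 ha hL hz htz _ _ _ _
  simp only [Finset.sum_add_distrib, Finset.sum_sub_distrib, ← Finset.mul_sum,
    ← Finset.sum_mul] at h0
  have h1 := h.trace_eq' (Phi b b' φ z * y)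
  simp only [Module.End.mul_apply] at h1
  have h2 := h.tw_adj (M := ℂ) ((φ a c) ∘ₗ y) hz
  simp only [LinearMap.comp_apply] at h2
  have h3 := h.Phi_spec' ha (z * y) a c
  have h4 := h.Phi_spec' ha (y * z) a c
  simp only [Module.End.mul_apply] at h3 h4
  rw [h1, h.X1 _ hy, h.X1 _ hy, h.X2, h.X2, h.trace_eq', hty, ← h.Phi_spec' ha,
    ← h.Phi_spec' ha, ← h2, ← h3, ← h4] at h0
  have e1 : ω (Phi b b' φ z c) (y a) = -ω (Phi b b' φ z (y a)) c := by
    rw [h.Phi_adj ha, h.anti]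
  have e2 := hy (Phi b b' φ z a) c
  have e3 := hz (Phi b b' φ y a) c
  simp only [LinearMap.add_apply, map_add, LinearMap.smul_apply, Module.End.mul_apply, map_smul,
    Module.End.one_apply, smul_eq_mul]
  linear_combination (1 / 2) * h0 + e1 + e2 + e3

end SB

end Pool.Agent.P8H30.FF
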