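import Pool.Agent.P8H30.FF.Cliff

set_option autoImplicit false
set_option linter.unusedSectionVars false
set_option linter.unusedVariables false

/-!
# Invariant alternating forms of degree four are combinations of products
-/

open Module

noncomputable section

namespace Pool.Agent.P8H30.FF

variable {V : Type} [AddCommGroup V] [Module ℂ V]

/-! ### Symplectic bases -/

/-- the dual basis -/
def dualJ (e : Basis (Fin 8) ℂ V) (i : Fin 8) : V :=
  ![-e 1, e 0, -e 3, e 2, -e 5, e 4, -e 7, e 6] i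

theorem SB.of_J8 {ω : V →ₗ[ℂ] V →ₗ[ℂ] ℂ} (halt : ∀ v, ω v v = 0) {e : Basis (Fin 8) ℂ V}
    (he : ∀ i j, ω (e i) (e j) = J8 i j) : SB ω e (dualJ e) := by
  refine ⟨halt, fun v i => ?_⟩
  have h1 : Finsupp.lapply i ∘ₗ e.repr.toLinearMap = ω (dualJ e i) := by
    refine e.ext fun j => ?_
    rw [LinearMap.comp_apply, LinearEquiv.coe_coe, Basis.repr_self, Finsupp.lapply_apply,
      Finsupp.single_apply]
    fin_cases i <;> fin_cases j <;> simp [dualJ, he, J8]
  exact congrArg (fun F : V →ₗ[ℂ] ℂ => F v) h1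

theorem exists_J8 {ω : V →ₗ[ℂ] V →ₗ[ℂ] ℂ} (halt : ∀ v, ω v v = 0)
    (hnd : ∀ u, (∀ v, ω u v = 0) → u = 0) (hdim : finrank ℂ V = 8) :
    ∃ e : Basis (Fin 8) ℂ V, ∀ i j, ω (e i) (e j) = J8 i j := by
  have : FiniteDimensional ℂ V := FiniteDimensional.of_finrank_pos (by rw [hdim]; norm_num)
  obtain ⟨b, hb⟩ := Darb.exists_basis (k := 4) ω halt hnd (by rw [hdim])
  refine ⟨b.reindex (finProdFinEquiv : Fin 4 × Fin 2 ≃ Fin 8), fun i j => ?_⟩
  rw [Basis.reindex_apply, Basis.reindex_apply, hb]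
  have key : ∀ i j : Fin 8, Darb.Jst ((finProdFinEquiv : Fin 4 × Fin 2 ≃ Fin 8).symm i)
      ((finProdFinEquiv : Fin 4 × Fin 2 ≃ Fin 8).symm j) = J8 i j := by
    intro i j
    have e1 : ∀ i : Fin 8, ((finProdFinEquiv : Fin 4 × Fin 2 ≃ Fin 8).symm i).1.val =
        i.val / 2 := fun i => rfl
    have e2 : ∀ i : Fin 8, ((finProdFinEquiv : Fin 4 × Fin 2 ≃ Fin 8).symm i).2.val =
        i.val % 2 := fun i => rfl
    unfold Darb.Jst J8
    have c1 : (((finProdFinEquiv : Fin 4 × Fin 2 ≃ Fin 8).symm i).1 =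
        ((finProdFinEquiv : Fin 4 × Fin 2 ≃ Fin 8).symm j).1) ↔ (i.val / 2 = j.val / 2) := by
      rw [← e1, ← e1]
      exact Fin.ext_iff
    have c2 : ∀ i : Fin 8, (((finProdFinEquiv : Fin 4 × Fin 2 ≃ Fin 8).symm i).2 = 0) ↔
        (i.val % 2 = 0) := fun i => by rw [← e2]; exact Fin.ext_iff
    have c3 : ∀ i : Fin 8, (((finProdFinEquiv : Fin 4 × Fin 2 ≃ Fin 8).symm i).2 = 1) ↔
        (i.val % 2 = 1) := fun i => by rw [← e2]; exact Fin.ext_iff
    simp only [c1, c2, c3]
    by_cases h1 : i.val / 2 = j.val / 2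
    · rw [if_pos h1, if_pos h1]
      by_cases h2 : i.val < j.val
      · rw [if_pos h2, if_pos (by omega)]
      · rw [if_neg h2, if_neg (by omega)]
        by_cases h3 : j.val < i.val
        · rw [if_pos h3, if_pos (by omega)]
        · rw [if_neg h3, if_neg (by omega)]
    · rw [if_neg h1, if_neg h1]
  exact key i j

theorem L6_of_Phi {ω : V →ₗ[ℂ] V →ₗ[ℂ] ℂ} (halt : ∀ v, ω v v = 0) {e : Basis (Fin 8) ℂ V}
    (he : ∀ i j, ω (e i) (e j) = J8 i j) {φ : F4 V} (ha : Alt4 φ)
    (h1 : Phi e (dualJ e) φ 1 = 0) (a c d f x y : V) : L6 ω φ a c d f x y = 0 := by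
  have h := SB.of_J8 halt he
  refine L6_zero (e := e) ha h.anti he (fun u v => ?_) a c d f x y
  have h2 := h.Phi_spec (φ := φ) 1 u v
  rw [h1, LinearMap.zero_apply, map_zero, LinearMap.zero_apply] at h2
  rw [Fin.sum_univ_eight] at h2
  simp only [Module.End.one_apply] at h2
  have e0 : dualJ e 0 = -e 1 := rfl
  have e1 : dualJ e 1 = e 0 := rfl
  have e2 : dualJ e 2 = -e 3 := rfl
  have e3 : dualJ e 3 = e 2 := rfl
  have e4 : dualJ e 4 = -e 5 := rfl
  have e5 : dualJ e 5 = e 4 := rfl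
  have e6 : dualJ e 6 = -e 7 := rfl
  have e7 : dualJ e 7 = e 6 := rfl
  rw [e0, e1, e2, e3, e4, e5, e6, e7] at h2
  simp only [map_neg, LinearMap.neg_apply] at h2
  linear_combination (1 / 2) * h2 + (1 / 2) * ha.s12 (e 0) (e 1) u v +
    (1 / 2) * ha.s12 (e 2) (e 3) u v + (1 / 2) * ha.s12 (e 4) (e 5) u v +
    (1 / 2) * ha.s12 (e 6) (e 7) u v

/-! ### Products -/

/-- multilinear forms from functions -/
def mk4 (f : V → V → V → V → ℂ) (h1 : ∀ a a' b c d, f (a + a') b c d = f a b c d + f a' b c d)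
    (h2 : ∀ r a b c d, f (r • a) b c d = r * f a b c d)
    (h3 : ∀ a b b' c d, f a (b + b') c d = f a b c d + f a b' c d)
    (h4 : ∀ r a b c d, f a (r • b) c d = r * f a b c d)
    (h5 : ∀ a b c c' d, f a b (c + c') d = f a b c d + f a b c' d)
    (h6 : ∀ r a b c d, f a b (r • c) d = r * f a b c d)
    (h7 : ∀ a b c d d', f a b c (d + d') = f a b c d + f a b c d')
    (h8 : ∀ r a b c d, f a b c (r • d) = r * f a b c d) : F4 V :=
  LinearMap.mk₂ ℂ (fun a b => LinearMap.mk₂ ℂ (fun c d => f a b c d) (fun c c' d => h5 a b c c' d)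
    (fun r c d => h6 r a b c d) (fun c d d' => h7 a b c d d') (fun r c d => h8 r a b c d))
    (fun a a' b => LinearMap.ext fun c => LinearMap.ext fun d => h1 a a' b c d)
    (fun r a b => LinearMap.ext fun c => LinearMap.ext fun d => h2 r a b c d)
    (fun a b b' => LinearMap.ext fun c => LinearMap.ext fun d => h3 a b b' c d)
    (fun r a b => LinearMap.ext fun c => LinearMap.ext fun d => h4 r a b c d)

/-- the product of the forms attached to two operators -/
def wd (ω : V →ₗ[ℂ] V →ₗ[ℂ] ℂ) (P R : Module.End ℂ V) : F4 V :=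
  mk4 (fun a b c d => ω (P a) b * ω (R c) d - ω (P a) c * ω (R b) d + ω (P a) d * ω (R b) c +
    ω (P b) c * ω (R a) d - ω (P b) d * ω (R a) c + ω (P c) d * ω (R a) b)
    (by intros; simp only [map_add, LinearMap.add_apply]; ring)
    (by intros; simp only [map_smul, LinearMap.smul_apply, smul_eq_mul]; ring)
    (by intros; simp only [map_add, LinearMap.add_apply]; ring)
    (by intros; simp only [map_smul, LinearMap.smul_apply, smul_eq_mul]; ring)
    (by intros; simp only [map_add, LinearMap.add_apply]; ring)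
    (by intros; simp only [map_smul, LinearMap.smul_apply, smul_eq_mul]; ring)
    (by intros; simp only [map_add, LinearMap.add_apply]; ring)
    (by intros; simp only [map_smul, LinearMap.smul_apply, smul_eq_mul]; ring)

variable {ω : V →ₗ[ℂ] V →ₗ[ℂ] ℂ}

theorem wd_apply (P R : Module.End ℂ V) (a b c d : V) : wd ω P R a b c d =
    ω (P a) b * ω (R c) d - ω (P a) c * ω (R b) d + ω (P a) d * ω (R b) c +
    ω (P b) c * ω (R a) d - ω (P b) d * ω (R a) c + ω (P c) d * ω (R a) b := rfl

theorem cls_alt (hanti : ∀ u v, ω u v = -ω v u) {P : Module.End ℂ V} (hP : IsAdj ω P P) (v : V) :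
    ω (P v) v = 0 := by
  have h1 := hP v v
  rw [hanti v] at h1
  exact self_eq_neg.1 h1

theorem cls_anti (hanti : ∀ u v, ω u v = -ω v u) {P : Module.End ℂ V} (hP : IsAdj ω P P)
    (u v : V) : ω (P u) v = -ω (P v) u := by
  rw [hP, hanti]

theorem wd_alt (hanti : ∀ u v, ω u v = -ω v u) {P R : Module.End ℂ V} (hP : IsAdj ω P P)
    (hR : IsAdj ω R R) : Alt4 (wd ω P R) := by
  refine ⟨fun u v w => ?_, fun u v w => ?_, fun u v w => ?_⟩
  · rw [wd_apply, cls_alt hanti hP, cls_alt hanti hR]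
    ring
  · rw [wd_apply, cls_alt hanti hP, cls_alt hanti hR]
    ring
  · rw [wd_apply, cls_alt hanti hP, cls_alt hanti hR]
    ring

theorem cls_kill {P q : Module.End ℂ V} (hq : IsAdj ω q (-q)) (hc : q * P = P * q) (u v : V) :
    ω (P (q u)) v + ω (P u) (q v) = 0 := by
  have h1 : P (q u) = q (P u) := congrArg (fun F : Module.End ℂ V => F u) hc.symm
  rw [h1, hq, LinearMap.neg_apply, map_neg, neg_add_cancel]

theorem wd_kill {P R q : Module.End ℂ V} (hq : IsAdj ω q (-q)) (hP : q * P = P * q)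
    (hR : q * R = R * q) (u v w x : V) : wd ω P R (q u) v w x + wd ω P R u (q v) w x +
      wd ω P R u v (q w) x + wd ω P R u v w (q x) = 0 := by
  have p := fun u v => cls_kill hq hP u v
  have r := fun u v => cls_kill hq hR u v
  simp only [wd_apply]
  linear_combination ω (R w) x * p u v + ω (P u) v * r w x - ω (R v) x * p u w -
    ω (P u) w * r v x + ω (R v) w * p u x + ω (P u) x * r v w + ω (R u) x * p v w +
    ω (P v) w * r u x - ω (R u) w * p v x - ω (P v) x * r u w + ω (R u) v * p w x +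
    ω (P w) x * r u v

/-! ### The pairing -/

variable {ι : Type} [Fintype ι] [DecidableEq ι] {b : Basis ι ℂ V} {b' : ι → V}

/-- contraction of a form with coefficients -/
def S4 (b : Basis ι ℂ V) (φ : F4 V) (g : ι → ι → ι → ι → ℂ) : ℂ :=
  ∑ i, ∑ j, ∑ k, ∑ l, φ (b i) (b j) (b k) (b l) * g i j k l

theorem S4_12 {φ : F4 V} (ha : Alt4 φ) (g : ι → ι → ι → ι → ℂ) :
    S4 b φ (fun i j k l => g j i k l) = -S4 b φ g := by
  unfold S4
  rw [Finset.sum_comm, ← Finset.sum_neg_distrib]
  refine Finset.sum_congr rfl fun i _ => ?_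
  rw [← Finset.sum_neg_distrib]
  refine Finset.sum_congr rfl fun j _ => ?_
  rw [← Finset.sum_neg_distrib]
  refine Finset.sum_congr rfl fun k _ => ?_
  rw [← Finset.sum_neg_distrib]
  refine Finset.sum_congr rfl fun l _ => ?_
  rw [ha.s12, neg_mul]

theorem S4_23 {φ : F4 V} (ha : Alt4 φ) (g : ι → ι → ι → ι → ℂ) :
    S4 b φ (fun i j k l => g i k j l) = -S4 b φ g := by
  unfold S4
  rw [← Finset.sum_neg_distrib]
  refine Finset.sum_congr rfl fun i _ => ?_
  rw [Finset.sum_comm, ← Finset.sum_neg_distrib]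
  refine Finset.sum_congr rfl fun j _ => ?_
  rw [← Finset.sum_neg_distrib]
  refine Finset.sum_congr rfl fun k _ => ?_
  rw [← Finset.sum_neg_distrib]
  refine Finset.sum_congr rfl fun l _ => ?_
  rw [ha.s23, neg_mul]

theorem S4_34 {φ : F4 V} (ha : Alt4 φ) (g : ι → ι → ι → ι → ℂ) :
    S4 b φ (fun i j k l => g i j l k) = -S4 b φ g := by
  unfold S4
  rw [← Finset.sum_neg_distrib]
  refine Finset.sum_congr rfl fun i _ => ?_
  rw [← Finset.sum_neg_distrib]
  refine Finset.sum_congr rfl fun j _ => ?_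
  rw [Finset.sum_comm, ← Finset.sum_neg_distrib]
  refine Finset.sum_congr rfl fun k _ => ?_
  rw [← Finset.sum_neg_distrib]
  refine Finset.sum_congr rfl fun l _ => ?_
  rw [ha.s34, neg_mul]

/-- the pairing -/
def pair (b : Basis ι ℂ V) (b' : ι → V) : F4 V →ₗ[ℂ] F4 V →ₗ[ℂ] ℂ :=
  LinearMap.mk₂ ℂ (fun φ ψ => S4 b φ fun i j k l => ψ (b' i) (b' j) (b' k) (b' l))
    (fun φ φ' ψ => by
      simp only [S4, LinearMap.add_apply, add_mul, Finset.sum_add_distrib])
    (fun r φ ψ => by
      simp only [S4, LinearMap.smul_apply, smul_eq_mul, Finset.mul_sum, mul_assoc])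
    (fun φ ψ ψ' => by
      simp only [S4, LinearMap.add_apply, mul_add, Finset.sum_add_distrib])
    (fun r φ ψ => by
      simp only [S4, LinearMap.smul_apply, smul_eq_mul, Finset.mul_sum, mul_left_comm])

theorem pair_apply (φ ψ : F4 V) : pair b b' φ ψ =
    S4 b φ fun i j k l => ψ (b' i) (b' j) (b' k) (b' l) := rfl

theorem S4_add (φ : F4 V) (g g' : ι → ι → ι → ι → ℂ) :
    S4 b φ (fun i j k l => g i j k l + g' i j k l) = S4 b φ g + S4 b φ g' := by
  simp only [S4, mul_add, Finset.sum_add_distrib]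

theorem S4_sub (φ : F4 V) (g g' : ι → ι → ι → ι → ℂ) :
    S4 b φ (fun i j k l => g i j k l - g' i j k l) = S4 b φ g - S4 b φ g' := by
  simp only [S4, mul_sub, Finset.sum_sub_distrib]

theorem SB.contr (h : SB ω b b') (f : V →ₗ[ℂ] ℂ) (u : V) :
    ∑ l, f (b l) * ω u (b' l) = -f u := by
  conv_rhs => rw [← h.exp u, map_sum, ← Finset.sum_neg_distrib]
  exact Finset.sum_congr rfl fun l _ => by
    rw [map_smul, smul_eq_mul, h.anti u, mul_neg, mul_comm]

theorem pair_wd (h : SB ω b b') {φ : F4 V} (ha : Alt4 φ) {P R : Module.End ℂ V}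
    (hP : IsAdj ω P P) (hR : IsAdj ω R R) :
    pair b b' φ (wd ω P R) = -6 * LinearMap.trace ℂ V (R * Phi b b' φ P) := by
  rw [pair_apply]
  obtain ⟨g, hg⟩ : ∃ g : ι → ι → ι → ι → ℂ, ∀ i j k l, g i j k l =
    ω (P (b' i)) (b' j) * ω (R (b' k)) (b' l) := ⟨_, fun _ _ _ _ => rfl⟩
  have e : (fun i j k l => wd ω P R (b' i) (b' j) (b' k) (b' l)) =
      fun i j k l => g i j k l - g i k j l + g i l j k + g j k i l - g j l i k + g k l i j := by
    funext i j k l
    rw [wd_apply]
    simp only [hg]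
  rw [e]
  rw [S4_add, S4_sub, S4_add, S4_add, S4_sub]
  have t2 : S4 b φ (fun i j k l => g i k j l) = -S4 b φ g := S4_23 ha g
  have t3 : S4 b φ (fun i j k l => g i l j k) = S4 b φ g := by
    have := S4_34 (b := b) ha (fun i j k l => g i k j l)
    rw [t2, neg_neg] at this
    exact this
  have t4 : S4 b φ (fun i j k l => g j k i l) = S4 b φ g := by
    have := S4_12 (b := b) ha (fun i j k l => g i k j l)
    rw [t2, neg_neg] at this
    exact this
  have t5 : S4 b φ (fun i j k l => g j l i k) = -S4 b φ g := by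
    have := S4_12 (b := b) ha (fun i j k l => g i l j k)
    rw [t3] at this
    exact this
  have t6 : S4 b φ (fun i j k l => g k l i j) = S4 b φ g := by
    have := S4_23 (b := b) ha (fun i j k l => g j l i k)
    rw [t5, neg_neg] at this
    exact this
  rw [t2, t3, t4, t5, t6]
  have key : S4 b φ g = -LinearMap.trace ℂ V (R * Phi b b' φ P) := by
    rw [h.trace_Phi ha, neg_neg]
    unfold S4
    have s1 : ∀ i j k, ∑ l, φ (b i) (b j) (b k) (b l) * g i j k l =
        -(φ (b i) (b j) (b k) (R (b' k)) * ω (P (b' i)) (b' j)) := by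
      intro i j k
      have h1 := h.contr (φ (b i) (b j) (b k)) (R (b' k))
      rw [← neg_mul, ← h1, Finset.sum_mul]
      exact Finset.sum_congr rfl fun l _ => by rw [hg]; ring
    have s2 : ∀ i k, ∑ j, φ (b i) (b j) (b k) (R (b' k)) * ω (P (b' i)) (b' j) =
        -φ (b i) (P (b' i)) (b k) (R (b' k)) := by
      intro i k
      have h1 := h.contr (((φ (b i)).flip (b k)).flip (R (b' k))) (P (b' i))
      simp only [LinearMap.flip_apply] at h1
      exact h1
    have s3 : ∀ i, ∑ j, ∑ k, ∑ l, φ (b i) (b j) (b k) (b l) * g i j k l =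
        ∑ k, φ (b i) (P (b' i)) (b k) (R (b' k)) := by
      intro i
      simp only [s1]
      rw [Finset.sum_comm]
      refine Finset.sum_congr rfl fun k _ => ?_
      rw [Finset.sum_neg_distrib, s2, neg_neg]
    simp only [s3]
    have s4 : ∀ i, ∑ k, φ (b i) (P (b' i)) (b k) (R (b' k)) =
        ∑ k, φ (b i) (P (b' i)) (R (b k)) (b' k) := fun i =>
      (h.tw_adj (φ (b i) (P (b' i))) hR).symm
    simp only [s4]
    rw [Finset.sum_comm]
    refine Finset.sum_congr rfl fun k _ => ?_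
    have s5 := congrArg (fun β : V →ₗ[ℂ] V →ₗ[ℂ] ℂ => β (R (b k)) (b' k)) (h.tw_adj φ hP)
    simp only [LinearMap.sum_apply] at s5
    exact s5.symm
  rw [key]
  ring

/-! ### The commutant -/

/-- The trace form is nondegenerate on the commutant. -/
theorem trace_nd [FiniteDimensional ℂ V] (h : SB ω b b') {Q : Set (Module.End ℂ V)}
    (hC : ∀ x, (∀ q ∈ Q, q * x = x * q) → IsAdj ω x x)
    (hS : ∀ U : Submodule ℂ V, (∀ q ∈ Q, ∀ u ∈ U, q u ∈ U) → ∃ p : Module.End ℂ V,
      (∀ q ∈ Q, q * p = p * q) ∧ (∀ u, p u ∈ U) ∧ (∀ u ∈ U, p u = u))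
    {x : Module.End ℂ V} (hx : ∀ q ∈ Q, q * x = x * q)
    (h0 : ∀ y, (∀ q ∈ Q, q * y = y * q) → LinearMap.trace ℂ V (y * x) = 0) : x = 0 := by
  have hcomm : ∀ y z : Module.End ℂ V, (∀ q ∈ Q, q * y = y * q) → (∀ q ∈ Q, q * z = z * q) →
      y * z = z * y := by
    intro y z hy hz
    have h1 := (hC y hy).mul (hC z hz)
    have h2 := hC (y * z) fun q hq => by rw [← mul_assoc, hy q hq, mul_assoc, hz q hq, mul_assoc]
    exact h.adj_uniq h2 h1
  obtain ⟨e, hec, heU, he⟩ := hS (LinearMap.ker x) fun q hq u hu => by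
    rw [LinearMap.mem_ker] at hu ⊢
    have h1 : x (q u) = q (x u) := congrArg (fun F : Module.End ℂ V => F u) (hx q hq).symm
    rw [h1, hu, map_zero]
  have hxe : x * e = 0 := LinearMap.ext fun u => LinearMap.mem_ker.1 (heU u)
  have hex : e * x = 0 := by rw [hcomm e x hec hx, hxe]
  have hee : e * e = e := LinearMap.ext fun u => he _ (heU u)
  -- the inverse
  have hinj : Function.Injective (x + e) := by
    rw [injective_iff_map_eq_zero]
    intro v hv
    have h1 : e v = 0 := by
      have h2 : e ((x + e) v) = e v := by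
        have h3 : e * (x + e) = e := by rw [mul_add, hex, hee, zero_add]
        exact congrArg (fun F : Module.End ℂ V => F v) h3
      rw [← h2, hv, map_zero]
    rw [LinearMap.add_apply, h1, add_zero] at hv
    rw [← he v (LinearMap.mem_ker.2 hv), h1]
  obtain ⟨y, hy⟩ : ∃ y : Module.End ℂ V, y * (x + e) = 1 := by
    let E := LinearEquiv.ofInjectiveEndo (x + e) hinj
    refine ⟨E.symm.toLinearMap, LinearMap.ext fun v => ?_⟩
    exact E.symm_apply_apply v
  have hyc : ∀ q ∈ Q, q * y = y * q := by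
    intro q hq
    have h1 : (x + e) * y = 1 := by
      rw [mul_eq_one_comm]
      exact hy
    have h2 : q * (x + e) = (x + e) * q := by rw [mul_add, add_mul, hx q hq, hec q hq]
    calc q * y = y * (x + e) * q * y := by rw [hy, one_mul]
      _ = y * (q * (x + e)) * y := by rw [h2]; simp only [mul_assoc]
      _ = y * q * ((x + e) * y) := by simp only [mul_assoc]
      _ = y * q := by rw [h1, mul_one]
  have hyx : y * x = 1 - e := by
    have h1 : (x + e) * (1 - e) = x := by
      rw [mul_sub, mul_one, add_mul, hxe, hee, zero_add, add_sub_cancel_right]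
    calc y * x = y * ((x + e) * (1 - e)) := by rw [h1]
      _ = 1 - e := by rw [← mul_assoc, hy, one_mul]
  have h1 := h0 y hyc
  rw [hyx] at h1
  have hidem : IsIdempotentElem (1 - e) := by
    change (1 - e) * (1 - e) = 1 - e
    rw [mul_sub, mul_one, sub_mul, one_mul, hee, sub_self, sub_zero]
  have h2 := LinearMap.IsIdempotentElem.eq_zero_of_trace_eq_zero hidem h1
  rw [h2] at hyx
  have h3 : (x + e) * y = 1 := by
    rw [mul_eq_one_comm]
    exact hy
  calc x = (x + e) * (y * x) := by rw [← mul_assoc, h3, one_mul]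
    _ = 0 := by rw [hyx, mul_zero]

/-- comparison of dimensions -/
theorem dim_arg {M : Type} [AddCommGroup M] [Module ℂ M] [Module.Finite ℂ M]
    {D A : Submodule ℂ M} (hDA : D ≤ A) (B : M →ₗ[ℂ] M →ₗ[ℂ] ℂ)
    (hinj : ∀ ψ ∈ A, (∀ δ ∈ D, B ψ δ = 0) → ψ = 0) : A ≤ D := by
  have hle : finrank ℂ A ≤ finrank ℂ D := by
    let F : A →ₗ[ℂ] Module.Dual ℂ D := (B.domRestrict₁₂ A D)
    have hF : ∀ (ψ : A) (δ : D), F ψ δ = B ψ δ := fun ψ δ => rfl
    have hFinj : Function.Injective F := by
      rw [injective_iff_map_eq_zero]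
      intro ψ hψ
      apply Subtype.ext
      refine hinj ψ ψ.2 fun δ hδ => ?_
      rw [← hF ψ ⟨δ, hδ⟩, hψ, LinearMap.zero_apply]
    have h1 := LinearMap.finrank_le_finrank_of_injective hFinj
    rwa [Subspace.dual_finrank_eq] at h1
  exact (Submodule.eq_of_le_of_finrank_le hDA hle).ge

/-- the invariant alternating forms -/
def A0 (V : Type) [AddCommGroup V] [Module ℂ V] (Q : Set (Module.End ℂ V)) :
    Submodule ℂ (F4 V) where
  carrier := {φ | Alt4 φ ∧ ∀ q ∈ Q, ∀ u v w x,
    φ (q u) v w x + φ u (q v) w x + φ u v (q w) x + φ u v w (q x) = 0}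
  add_mem' := fun {φ ψ} h h' => ⟨⟨fun u v w => by
      rw [LinearMap.add_apply, LinearMap.add_apply, LinearMap.add_apply, LinearMap.add_apply,
        h.1.a12, h'.1.a12, add_zero], fun u v w => by
      rw [LinearMap.add_apply, LinearMap.add_apply, LinearMap.add_apply, LinearMap.add_apply,
        h.1.a23, h'.1.a23, add_zero], fun u v w => by
      rw [LinearMap.add_apply, LinearMap.add_apply, LinearMap.add_apply, LinearMap.add_apply,
        h.1.a34, h'.1.a34, add_zero]⟩, fun q hq u v w x => by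
      have h1 := h.2 q hq u v w x
      have h2 := h'.2 q hq u v w x
      simp only [LinearMap.add_apply]
      linear_combination h1 + h2⟩
  zero_mem' := ⟨⟨fun _ _ _ => rfl, fun _ _ _ => rfl, fun _ _ _ => rfl⟩, fun q hq u v w x => by
    simp⟩
  smul_mem' := fun c φ h => ⟨⟨fun u v w => by
      rw [LinearMap.smul_apply, LinearMap.smul_apply, LinearMap.smul_apply, LinearMap.smul_apply,
        h.1.a12, smul_zero], fun u v w => by
      rw [LinearMap.smul_apply, LinearMap.smul_apply, LinearMap.smul_apply, LinearMap.smul_apply,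
        h.1.a23, smul_zero], fun u v w => by
      rw [LinearMap.smul_apply, LinearMap.smul_apply, LinearMap.smul_apply, LinearMap.smul_apply,
        h.1.a34, smul_zero]⟩, fun q hq u v w x => by
      have h1 := h.2 q hq u v w x
      simp only [LinearMap.smul_apply, smul_eq_mul]
      linear_combination c * h1⟩

end Pool.Agent.P8H30.FF
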