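import Pool.Agent.P8H30.FF.Phi

set_option autoImplicit false
set_option linter.unusedSectionVars false
set_option linter.unusedVariables false

/-!
# The spectrum of the operator
-/

open Module

noncomputable section

namespace Pool.Agent.P8H30.FF

/-- nilpotent anti-derivations -/
theorem nil_step {M : Type} [AddCommGroup M] [Module ℂ M] (T : Module.End ℂ M)
    (β : M →ₗ[ℂ] M →ₗ[ℂ] M) (hT : ∀ x y, T (β x y) = -(β (T x) y + β x (T y))) {n : ℕ}
    (hn : T ^ (n + 2) = 0) (x y : M) : β ((T ^ (n + 1)) x) ((T ^ (n + 1)) y) = 0 := by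
  have h0 : ∀ z, (T ^ (n + 2)) z = 0 := fun z => by rw [hn, LinearMap.zero_apply]
  have key : ∀ m : ℕ, (T ^ (m + 1)) (β ((T ^ n) x) y) = (-1 : ℂ) ^ (m + 1) •
      (((m : ℂ) + 1) • β ((T ^ (n + 1)) x) ((T ^ m) y) + β ((T ^ n) x) ((T ^ (m + 1)) y)) := by
    intro m
    induction m with
    | zero =>
      rw [pow_succ' T n, Module.End.mul_apply]
      simp only [zero_add, pow_one, pow_zero, Module.End.one_apply, Nat.cast_zero, one_smul]
      rw [hT]
      module
    | succ m ih =>
      rw [pow_succ' T (m + 1), Module.End.mul_apply, ih, map_smul, map_add, map_smul, hT, hT]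
      have e1 : T ((T ^ (n + 1)) x) = 0 := by
        rw [← Module.End.mul_apply, ← pow_succ']; exact h0 x
      have e2 : T ((T ^ n) x) = (T ^ (n + 1)) x := by rw [pow_succ' T n, Module.End.mul_apply]
      have e3 : T ((T ^ m) y) = (T ^ (m + 1)) y := by rw [pow_succ' T m, Module.End.mul_apply]
      rw [e1, e2, e3, map_zero, LinearMap.zero_apply, zero_add, Module.End.mul_apply]
      push_cast
      rw [pow_succ (-1 : ℂ) (m + 1)]
      module
  have h1 := key (n + 1)
  rw [h0, h0, map_zero, add_zero] at h1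
  have h2 : ((-1 : ℂ) ^ (n + 1 + 1) * (((n + 1 : ℕ) : ℂ) + 1)) •
      β ((T ^ (n + 1)) x) ((T ^ (n + 1)) y) = 0 := by
    rw [mul_smul]
    exact h1.symm
  refine (smul_eq_zero.1 h2).resolve_left (mul_ne_zero (pow_ne_zero _ (by norm_num)) ?_)
  exact Nat.cast_add_one_ne_zero _

/-- Either the operator is nilpotent or there is an eigenvalue of maximal modulus. -/
theorem nil_or {M : Type} [AddCommGroup M] [Module ℂ M] [FiniteDimensional ℂ M] [Nontrivial M]
    (T : Module.End ℂ M) : (∃ n, T ^ (n + 1) = 0) ∨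
      ∃ μ : ℂ, μ ≠ 0 ∧ T.HasEigenvalue μ ∧ ¬ T.HasEigenvalue (-(2 * μ)) := by
  have hfin : {μ : ℂ | T.HasEigenvalue μ}.Finite := Module.End.finite_hasEigenvalue T
  obtain ⟨μ₀, hμ₀⟩ := Module.End.exists_eigenvalue T
  obtain ⟨μ, hμ, hmax⟩ := hfin.exists_maximalFor (fun z : ℂ => ‖z‖) _ ⟨μ₀, hμ₀⟩
  have hle : ∀ ν, T.HasEigenvalue ν → ‖ν‖ ≤ ‖μ‖ := fun ν hν => by
    by_contra hcon
    push Not at hcon
    exact absurd (hmax hν hcon.le) (not_le.2 hcon)
  by_cases h0 : μ = 0
  · left
    have hz : ∀ ν, T.HasEigenvalue ν → ν = 0 := fun ν hν => by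
      have := hle ν hν
      rw [h0, norm_zero] at this
      exact norm_le_zero_iff.1 this
    have h1 := Module.End.iSup_maxGenEigenspace_eq_top T
    have h2 : ∀ ν : ℂ, T.maxGenEigenspace ν ≤ T.maxGenEigenspace 0 := by
      intro ν x hx
      by_cases hν : ν = 0
      · rwa [hν] at hx
      · rw [Module.End.mem_maxGenEigenspace] at hx
        obtain ⟨k, hk⟩ := hx
        have hinj : Function.Injective (T - ν • (1 : Module.End ℂ M)) := by
          rw [injective_iff_map_eq_zero]
          intro v hv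
          by_contra hv0
          apply hν
          apply hz
          refine Module.End.hasEigenvalue_of_hasEigenvector (x := v) ⟨?_, hv0⟩
          rw [Module.End.mem_eigenspace_iff]
          rw [LinearMap.sub_apply, LinearMap.smul_apply, Module.End.one_apply, sub_eq_zero] at hv
          exact hv
        have hx0 : x = 0 := by
          have h3 : Function.Injective ((T - ν • (1 : Module.End ℂ M)) ^ k) := by
            rw [Module.End.coe_pow]
            exact hinj.iterate k
          exact h3 (hk.trans (map_zero _).symm)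
        rw [hx0]
        exact Submodule.zero_mem _
    have h3 : T.maxGenEigenspace 0 = ⊤ := top_le_iff.1 (h1 ▸ iSup_le h2)
    rw [Module.End.maxGenEigenspace_eq_genEigenspace_finrank] at h3
    refine ⟨finrank ℂ M, LinearMap.ext fun v => ?_⟩
    have h4 : v ∈ T.genEigenspace 0 (finrank ℂ M) := by rw [h3]; trivial
    rw [Module.End.mem_genEigenspace_nat, LinearMap.mem_ker, zero_smul, sub_zero] at h4
    rw [pow_succ', Module.End.mul_apply, h4, map_zero, LinearMap.zero_apply]
  · right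
    refine ⟨μ, h0, hμ, fun h2 => ?_⟩
    have h3 := hle _ h2
    rw [norm_neg, norm_mul, Complex.norm_two] at h3
    have h4 := norm_pos_iff.2 h0
    linarith

variable {V : Type} [AddCommGroup V] [Module ℂ V] {ι : Type} [Fintype ι] [DecidableEq ι]

/-- self-adjoint operators with trace zero -/
def S0 (ω : V →ₗ[ℂ] V →ₗ[ℂ] ℂ) : Submodule ℂ (Module.End ℂ V) where
  carrier := {x | IsAdj ω x x ∧ LinearMap.trace ℂ V x = 0}
  add_mem' := fun h h' => ⟨h.1.add h'.1, by rw [map_add, h.2, h'.2, add_zero]⟩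
  zero_mem' := ⟨IsAdj.zero, map_zero _⟩
  smul_mem' := fun c x hx => ⟨hx.1.smul c, by rw [map_smul, hx.2, smul_zero]⟩

/-- The hypotheses. -/
structure Sys (ω : V →ₗ[ℂ] V →ₗ[ℂ] ℂ) (b : Basis ι ℂ V) (b' : ι → V) (φ : F4 V)
    (Q : Set (Module.End ℂ V)) : Prop where
  h : SB ω b b'
  ha : Alt4 φ
  hL : ∀ a c d e f g, L6 ω φ a c d e f g = 0
  dim : finrank ℂ V = 8
  skew : ∀ q ∈ Q, IsAdj ω q (-q)
  kill : ∀ q ∈ Q, ∀ u v w x,
    φ (q u) v w x + φ u (q v) w x + φ u v (q w) x + φ u v w (q x) = 0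
  hC : ∀ x, (∀ q ∈ Q, q * x = x * q) → IsAdj ω x x
  hS : ∀ U : Submodule ℂ V, (∀ q ∈ Q, ∀ u ∈ U, q u ∈ U) → ∃ p : Module.End ℂ V,
    (∀ q ∈ Q, q * p = p * q) ∧ (∀ u, p u ∈ U) ∧ (∀ u ∈ U, p u = u)
  hP : ∀ x, (∀ q ∈ Q, q * x = x * q) → Phi b b' φ x = 0

/-- the trace-free part of the Jordan product -/
def jor (y z : Module.End ℂ V) : Module.End ℂ V :=
  y * z + z * y - (1 / 4 * LinearMap.trace ℂ V (y * z)) • (1 : Module.End ℂ V)

namespace Sys

variable {ω : V →ₗ[ℂ] V →ₗ[ℂ] ℂ} {b : Basis ι ℂ V} {b' : ι → V} {φ : F4 V}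
  {Q : Set (Module.End ℂ V)} (H : Sys ω b b' φ Q)
include H

theorem fin : FiniteDimensional ℂ V := FiniteDimensional.of_finrank_pos (by rw [H.dim]; norm_num)

theorem nontriv : Nontrivial V := by
  have := H.fin
  exact Module.finrank_pos_iff.1 (by rw [H.dim]; norm_num)

theorem trace_one : LinearMap.trace ℂ V 1 = 8 := by
  have := H.fin
  rw [LinearMap.trace_one, H.dim]
  norm_num

theorem Phi_one : Phi b b' φ 1 = 0 := H.hP 1 fun q _ => by rw [mul_one, one_mul]

theorem Phi_mem (x : Module.End ℂ V) : Phi b b' φ x ∈ S0 ω := by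
  refine ⟨H.h.Phi_adj H.ha x, ?_⟩
  have h1 := H.h.trace_Phi_symm H.ha (φ := φ) 1 x
  rw [one_mul, H.Phi_one, mul_zero, map_zero] at h1
  exact h1

theorem jor_mem {y z : Module.End ℂ V} (hy : y ∈ S0 ω) (hz : z ∈ S0 ω) : jor y z ∈ S0 ω := by
  refine ⟨?_, ?_⟩
  · unfold jor
    refine IsAdj.sub ?_ (IsAdj.one.smul _)
    have h1 := (hy.1.mul hz.1).add (hz.1.mul hy.1)
    rwa [add_comm (z * y) (y * z)] at h1
  · unfold jor
    rw [map_sub, map_add, map_smul, H.trace_one, LinearMap.trace_mul_comm ℂ z y, smul_eq_mul]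
    ring

theorem Phi_jor {y z : Module.End ℂ V} (hy : y ∈ S0 ω) (hz : z ∈ S0 ω) :
    Phi b b' φ (jor y z) = -(jor (Phi b b' φ y) z + jor y (Phi b b' φ z)) := by
  have h1 := H.h.I2 H.ha H.hL hy.1 hy.2 hz.1 hz.2
  have h2 : LinearMap.trace ℂ V (Phi b b' φ z * y) =
      LinearMap.trace ℂ V (y * Phi b b' φ z) := LinearMap.trace_mul_comm ℂ _ _
  have h3 : LinearMap.trace ℂ V (Phi b b' φ y * z) =
      LinearMap.trace ℂ V (y * Phi b b' φ z) := by
    rw [LinearMap.trace_mul_comm, H.h.trace_Phi_symm H.ha]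
  unfold jor
  rw [map_sub, map_smul, H.Phi_one, smul_zero, sub_zero, h3]
  rw [h2] at h1
  rw [← sub_eq_zero] at h1 ⊢
  rw [← h1]
  module

theorem br_mem {q x : Module.End ℂ V} (hq : q ∈ Q) (hx : x ∈ S0 ω) : q * x - x * q ∈ S0 ω := by
  refine ⟨?_, ?_⟩
  · have h1 := ((H.skew q hq).mul hx.1).sub (hx.1.mul (H.skew q hq))
    have h2 : x * -q - -q * x = q * x - x * q := by noncomm_ring
    rwa [h2] at h1
  · rw [map_sub, LinearMap.trace_mul_comm, sub_self]

/-- Stable spaces of operators with square zero vanish. -/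
theorem claimN (R : Submodule ℂ (Module.End ℂ V)) (hadj : ∀ x ∈ R, IsAdj ω x x)
    (hst : ∀ x ∈ R, ∀ q ∈ Q, q * x - x * q ∈ R) (hsq : ∀ x ∈ R, ∀ y ∈ R, x * y + y * x = 0) :
    ∀ x ∈ R, x = 0 := by
  have := H.fin
  obtain ⟨U, hU⟩ : ∃ U : Submodule ℂ V, ∀ v, v ∈ U ↔ ∀ x ∈ R, x v = 0 :=
    ⟨⨅ x : R, LinearMap.ker (x : Module.End ℂ V), fun v => by
      rw [Submodule.mem_iInf]
      exact ⟨fun h x hx => h ⟨x, hx⟩, fun h x => h x x.2⟩⟩
  obtain ⟨p, hpc, hpU, hp⟩ := H.hS U fun q hq u hu => by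
    rw [hU] at hu ⊢
    intro x hx
    have h1 := hu _ (hst x hx q hq)
    rw [LinearMap.sub_apply, Module.End.mul_apply, Module.End.mul_apply, hu x hx, map_zero,
      zero_sub, neg_eq_zero] at h1
    exact h1
  have hpa := H.hC p hpc
  have hpx : ∀ x ∈ R, p * x = 0 := by
    intro x hx
    have h1 : x * p = 0 := LinearMap.ext fun u => by
      rw [Module.End.mul_apply, LinearMap.zero_apply]
      exact (hU _).1 (hpU u) x hx
    have h2 := (hadj x hx).mul hpa
    rw [h1] at h2
    exact H.h.adj_uniq h2 IsAdj.zero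
  obtain ⟨s, hs⟩ := IsNoetherian.noetherian R
  have hsR : ∀ x ∈ s, x ∈ R := fun x hx => hs ▸ Submodule.subset_span hx
  -- the kernel of `p` vanishes
  have hker : ∀ v, p v = 0 → v = 0 := by
    intro v hv
    by_contra hv0
    have key : ∀ t : Finset (Module.End ℂ V), (∀ x ∈ t, x ∈ R) →
        ∃ v, v ≠ 0 ∧ p v = 0 ∧ ∀ x ∈ t, x v = 0 := by
      classical
      intro t
      induction t using Finset.induction_on with
      | empty => exact fun _ => ⟨v, hv0, hv, fun x hx => absurd hx (Finset.notMem_empty x)⟩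
      | insert y t hyt ih =>
        intro ht
        obtain ⟨w, hw0, hpw, hw⟩ := ih fun x hx => ht x (Finset.mem_insert_of_mem hx)
        have hy := ht y (Finset.mem_insert_self y t)
        by_cases hyw : y w = 0
        · refine ⟨w, hw0, hpw, fun x hx => ?_⟩
          rcases Finset.mem_insert.1 hx with rfl | hx
          · exact hyw
          · exact hw x hx
        · refine ⟨y w, hyw, ?_, fun x hx => ?_⟩
          · rw [← Module.End.mul_apply, hpx y hy, LinearMap.zero_apply]
          · have h1 := hsq x (ht x hx) y hy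
            have h2 := congrArg (fun T : Module.End ℂ V => T w) h1
            simp only [LinearMap.add_apply, Module.End.mul_apply, LinearMap.zero_apply] at h2
            rcases Finset.mem_insert.1 hx with rfl | hx
            · have h3 : (2 : ℂ) • x (x w) = 0 := by rw [two_smul]; exact h2
              exact (smul_eq_zero.1 h3).resolve_left two_ne_zero
            · rw [hw x hx, map_zero, add_zero] at h2
              exact h2
    obtain ⟨w, hw0, hpw, hw⟩ := key s hsR
    apply hw0
    have h1 : w ∈ U := by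
      rw [hU]
      intro x hx
      rw [← hs] at hx
      induction hx using Submodule.span_induction with
      | mem x hx => exact hw x hx
      | zero => rfl
      | add x y _ _ hx hy => rw [LinearMap.add_apply, hx, hy, add_zero]
      | smul c x _ hx => rw [LinearMap.smul_apply, hx, smul_zero]
    rw [← hp w h1, hpw]
  intro x hx
  refine LinearMap.ext fun v => ?_
  have h1 : v ∈ U := by
    have h2 : p (v - p v) = 0 := by rw [map_sub, hp _ (hpU v), sub_self]
    have h3 := sub_eq_zero.1 (hker _ h2)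
    rw [h3]
    exact hpU v
  exact (hU v).1 h1 x hx

end Sys

end Pool.Agent.P8H30.FF
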