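import Mathlib

set_option autoImplicit false
set_option linter.unusedSectionVars false
set_option linter.unusedVariables false

/-!
# Symplectic spaces: dual bases, adjoints, traces
-/

open Module

namespace Pool.Agent.P8H30.FF

variable {K : Type} [Field K] {V : Type} [AddCommGroup V] [Module K V]
  {ι : Type} [Fintype ι] [DecidableEq ι]

/-- Dual bases of a symplectic space. -/
structure SB (ω : V →ₗ[K] V →ₗ[K] K) (b : Basis ι K V) (b' : ι → V) : Prop where
  alt : ∀ v, ω v v = 0
  rep : ∀ v i, b.repr v i = ω (b' i) v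

/-- adjoint operators -/
def IsAdj (ω : V →ₗ[K] V →ₗ[K] K) (x y : Module.End K V) : Prop :=
  ∀ u v, ω (x u) v = ω u (y v)

theorem IsAdj.add {ω : V →ₗ[K] V →ₗ[K] K} {x y x' y' : Module.End K V} (h : IsAdj ω x y)
    (h' : IsAdj ω x' y') : IsAdj ω (x + x') (y + y') := fun u v => by
  rw [LinearMap.add_apply, map_add, LinearMap.add_apply, h, h', LinearMap.add_apply, map_add]

theorem IsAdj.sub {ω : V →ₗ[K] V →ₗ[K] K} {x y x' y' : Module.End K V} (h : IsAdj ω x y)
    (h' : IsAdj ω x' y') : IsAdj ω (x - x') (y - y') := fun u v => by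
  rw [LinearMap.sub_apply, map_sub, LinearMap.sub_apply, h, h', LinearMap.sub_apply, map_sub]

theorem IsAdj.neg {ω : V →ₗ[K] V →ₗ[K] K} {x y : Module.End K V} (h : IsAdj ω x y) :
    IsAdj ω (-x) (-y) := fun u v => by
  rw [LinearMap.neg_apply, map_neg, LinearMap.neg_apply, h, LinearMap.neg_apply, map_neg]

theorem IsAdj.smul {ω : V →ₗ[K] V →ₗ[K] K} {x y : Module.End K V} (c : K) (h : IsAdj ω x y) :
    IsAdj ω (c • x) (c • y) := fun u v => by
  rw [LinearMap.smul_apply, map_smul, LinearMap.smul_apply, h, LinearMap.smul_apply, map_smul]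

theorem IsAdj.mul {ω : V →ₗ[K] V →ₗ[K] K} {x y x' y' : Module.End K V} (h : IsAdj ω x y)
    (h' : IsAdj ω x' y') : IsAdj ω (x * x') (y' * y) := fun u v => by
  rw [Module.End.mul_apply, h, h', Module.End.mul_apply]

theorem IsAdj.one {ω : V →ₗ[K] V →ₗ[K] K} : IsAdj ω (1 : Module.End K V) 1 := fun u v => rfl

theorem IsAdj.zero {ω : V →ₗ[K] V →ₗ[K] K} : IsAdj ω (0 : Module.End K V) 0 := fun u v => by
  rw [LinearMap.zero_apply, map_zero, LinearMap.zero_apply, LinearMap.zero_apply, map_zero]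

namespace SB

variable {ω : V →ₗ[K] V →ₗ[K] K} {b : Basis ι K V} {b' : ι → V} (h : SB ω b b')
include h

theorem anti (u v : V) : ω u v = -ω v u := by
  have h1 := h.alt (u + v)
  simp only [map_add, LinearMap.add_apply, h.alt, zero_add, add_zero] at h1
  exact eq_neg_of_add_eq_zero_left (by rw [add_comm]; exact h1)

theorem exp (v : V) : ∑ i, ω (b' i) v • b i = v := by
  conv_rhs => rw [← b.sum_repr v]
  exact Finset.sum_congr rfl fun i _ => by rw [h.rep]

theorem nondeg {v : V} (hv : ∀ u, ω u v = 0) : v = 0 := by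
  rw [← h.exp v]
  exact Finset.sum_eq_zero fun i _ => by rw [hv, zero_smul]

theorem nondeg' {v : V} (hv : ∀ u, ω v u = 0) : v = 0 :=
  h.nondeg fun u => by rw [h.anti, hv, neg_zero]

theorem ext {v w : V} (hv : ∀ u, ω v u = ω w u) : v = w :=
  sub_eq_zero.1 (h.nondeg' fun u => by rw [map_sub, LinearMap.sub_apply, hv, sub_self])

theorem exp' (v : V) : ∑ i, ω v (b i) • b' i = v := by
  refine h.ext fun u => ?_
  rw [map_sum, LinearMap.sum_apply]
  conv_rhs => rw [← h.exp u, map_sum]
  refine Finset.sum_congr rfl fun i _ => ?_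
  rw [map_smul, LinearMap.smul_apply, map_smul, smul_eq_mul, smul_eq_mul, mul_comm]

theorem endExt {x y : Module.End K V} (hxy : ∀ u v, ω (x u) v = ω (y u) v) : x = y :=
  LinearMap.ext fun u => h.ext (hxy u)

theorem adj_symm {x y : Module.End K V} (hx : IsAdj ω x y) : IsAdj ω y x := fun u v => by
  rw [h.anti, ← hx, h.anti, neg_neg]

theorem adj_uniq {x y z : Module.End K V} (hx : IsAdj ω x y) (hz : IsAdj ω x z) : y = z := by
  refine h.endExt fun u v => ?_
  rw [h.adj_symm hx, h.adj_symm hz]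

/-- The adjoint exists. -/
theorem exists_adj (x : Module.End K V) : ∃ y, IsAdj ω x y := by
  refine ⟨∑ j, (ω (x (b' j))).smulRight (b j), fun u v => ?_⟩
  rw [LinearMap.sum_apply, map_sum]
  conv_lhs => rw [← h.exp' u, map_sum, map_sum, LinearMap.sum_apply]
  refine Finset.sum_congr rfl fun j _ => ?_
  rw [map_smul, map_smul, LinearMap.smul_apply, LinearMap.smulRight_apply, map_smul, smul_eq_mul,
    smul_eq_mul, mul_comm]

variable {M : Type} [AddCommGroup M] [Module K M]

/-- Swapping the dual bases. -/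
theorem tw_swap (F : V →ₗ[K] V →ₗ[K] M) : ∑ i, F (b i) (b' i) = -∑ i, F (b' i) (b i) := by
  have e1 : ∑ i, F (b i) (b' i) = ∑ i, ∑ j, ω (b' j) (b' i) • F (b i) (b j) := by
    refine Finset.sum_congr rfl fun i _ => ?_
    conv_lhs => rw [← h.exp (b' i), map_sum]
    exact Finset.sum_congr rfl fun j _ => by rw [map_smul]
  have e2 : ∑ i, F (b' i) (b i) = ∑ i, ∑ j, ω (b' j) (b' i) • F (b j) (b i) := by
    refine Finset.sum_congr rfl fun i _ => ?_
    conv_lhs => rw [← h.exp (b' i), map_sum, LinearMap.sum_apply]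
    exact Finset.sum_congr rfl fun j _ => by rw [map_smul, LinearMap.smul_apply]
  rw [e1, e2, Finset.sum_comm, ← Finset.sum_neg_distrib]
  refine Finset.sum_congr rfl fun i _ => ?_
  rw [← Finset.sum_neg_distrib]
  refine Finset.sum_congr rfl fun j _ => ?_
  rw [← neg_smul, h.anti (b' j) (b' i), neg_neg]

/-- Moving an operator. -/
theorem tw_adj (F : V →ₗ[K] V →ₗ[K] M) {x y : Module.End K V} (hx : IsAdj ω x y) :
    ∑ i, F (x (b i)) (b' i) = ∑ i, F (b i) (y (b' i)) := by
  have e1 : ∑ i, F (x (b i)) (b' i) = ∑ i, ∑ j, ω (b' j) (x (b i)) • F (b j) (b' i) := by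
    refine Finset.sum_congr rfl fun i _ => ?_
    conv_lhs => rw [← h.exp (x (b i)), map_sum, LinearMap.sum_apply]
    exact Finset.sum_congr rfl fun j _ => by rw [map_smul, LinearMap.smul_apply]
  have e2 : ∑ i, F (b i) (y (b' i)) = ∑ i, ∑ j, ω (y (b' i)) (b j) • F (b i) (b' j) := by
    refine Finset.sum_congr rfl fun i _ => ?_
    conv_lhs => rw [← h.exp' (y (b' i)), map_sum]
    exact Finset.sum_congr rfl fun j _ => by rw [map_smul]
  rw [e1, e2, Finset.sum_comm]
  refine Finset.sum_congr rfl fun i _ => Finset.sum_congr rfl fun j _ => ?_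
  rw [h.anti (b' i), hx, h.anti (b j), neg_neg]

theorem trace_eq (x : Module.End K V) : LinearMap.trace K V x = ∑ i, ω (b' i) (x (b i)) := by
  rw [LinearMap.trace_eq_matrix_trace K b x, Matrix.trace]
  refine Finset.sum_congr rfl fun i _ => ?_
  rw [Matrix.diag_apply, LinearMap.toMatrix_apply, h.rep]

theorem trace_eq' (x : Module.End K V) : ∑ i, ω (x (b i)) (b' i) = -LinearMap.trace K V x := by
  rw [h.trace_eq, ← Finset.sum_neg_distrib]
  exact Finset.sum_congr rfl fun i _ => by rw [h.anti]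

theorem trace_adj {x y : Module.End K V} (hx : IsAdj ω x y) :
    LinearMap.trace K V y = LinearMap.trace K V x := by
  have h1 := h.tw_adj ω hx
  rw [h.trace_eq'] at h1
  have h2 := h.tw_swap (M := K) (LinearMap.compl₂ ω y)
  simp only [LinearMap.compl₂_apply] at h2
  rw [h2, ← h.trace_eq] at h1
  exact (neg_injective h1).symm

end SB

end Pool.Agent.P8H30.FF
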